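import Pool.Agent.R947.SH.Stm

/-! # Translation invariance -/

set_option autoImplicit false

open scoped BigOperators ComplexConjugate
open Finset Pool.Agent.TH235.PP

namespace SH947

variable {d L : ℕ} [NeZero L]

/-- Shift of configurations by `v`. -/
def cs (v : Site L) : (Site L → Fin d) ≃ (Site L → Fin d) where
  toFun s := fun x => s (x + v)
  invFun s := fun x => s (x - v)
  left_inv s := by funext x; simp
  right_inv s := by funext x; simp

lemma cs_apply (v : Site L) (s : Site L → Fin d) (x : Site L) : cs v s x = s (x + v) := rfl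

lemma weyl_cs {A : Type} [AddCommGroup A] (e : Fin d ≃ A) (g : Site L → Lb A) (v : Site L)
    (s t : Site L → Fin d) :
    weyl e g (cs v s) (cs v t) = weyl e (fun x => g (x - v)) s t := by
  unfold weyl tp
  simp only [cs_apply]
  refine Fintype.prod_equiv (Equiv.addRight v) _ _ fun x => ?_
  simp

lemma sh_add {R : ℕ} (u v : Site L) (x : Fin R × Fin R) : sh u x + v = sh (u + v) x := by
  unfold sh
  ext
  · simp only [Prod.fst_add]; ring
  · simp only [Prod.snd_add]; ring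

lemma term_cs {R : ℕ} (h : BoxOp d R) (u v : Site L) (s t : Site L → Fin d) :
    (term h u : TorOp d L) (cs v s) (cs v t) = (term h (u + v) : TorOp d L) s t := by
  unfold term
  have e1 : (∀ y, (∀ x : Fin R × Fin R, sh u x ≠ y) → cs v s y = cs v t y) ↔
      (∀ y, (∀ x : Fin R × Fin R, sh (u + v) x ≠ y) → s y = t y) := by
    constructor
    · intro H y hy
      have := H (y - v) (fun x hx => hy x (by rw [← sh_add, hx]; abel))
      simpa [cs_apply] using this
    · intro H y hy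
      exact H (y + v) (fun x hx => hy x (by rw [← sh_add] at hx; exact add_right_cancel hx))
  by_cases hc : ∀ y, (∀ x : Fin R × Fin R, sh (u + v) x ≠ y) → s y = t y
  · rw [if_pos hc, if_pos (e1.2 hc)]
    simp only [cs_apply, sh_add]
  · rw [if_neg hc, if_neg (fun hh => hc (e1.1 hh))]

lemma ham_cs {R : ℕ} (h : BoxOp d R) (v : Site L) (s t : Site L → Fin d) :
    ham h L (cs v s) (cs v t) = ham h L s t := by
  unfold ham
  rw [Matrix.sum_apply, Matrix.sum_apply]
  refine Fintype.sum_equiv (Equiv.addRight v) _ _ fun u => ?_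
  exact term_cs h u v s t

lemma simple_shift {R : ℕ} (h : BoxOp d R) (ψ : (Site L → Fin d) → ℂ) (E : ℂ) (hψ : ψ ≠ 0)
    (h1 : (ham h L).mulVec ψ = E • ψ)
    (h2 : ∀ φ, (ham h L).mulVec φ = E • φ → ∃ c : ℂ, φ = c • ψ) (v : Site L) :
    ∃ c : ℂ, ‖c‖ = 1 ∧ ∀ s, ψ (cs v s) = c * ψ s := by
  obtain ⟨c, hc⟩ := h2 (fun s => ψ (cs v s)) (by
    funext s
    have h3 := congrFun h1 (cs v s)
    simp only [Matrix.mulVec, dotProduct, Pi.smul_apply, smul_eq_mul] at h3 ⊢
    rw [← h3]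
    refine Fintype.sum_equiv (cs v) _ _ fun t => ?_
    rw [ham_cs])
  refine ⟨c, ?_, fun s => congrFun hc s⟩
  have h4 : ∑ s, ‖ψ (cs v s)‖ ^ 2 = ∑ s, ‖ψ s‖ ^ 2 :=
    Fintype.sum_equiv (cs v) _ _ fun s => rfl
  have h5 : ∑ s, ‖ψ (cs v s)‖ ^ 2 = ‖c‖ ^ 2 * ∑ s, ‖ψ s‖ ^ 2 := by
    rw [Finset.mul_sum]
    refine Finset.sum_congr rfl fun s _ => ?_
    rw [show ψ (cs v s) = c * ψ s from congrFun hc s, norm_mul, mul_pow]
  have h6 : 0 < ∑ s, ‖ψ s‖ ^ 2 := by
    obtain ⟨s, hs⟩ := Function.ne_iff.1 hψ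
    exact Finset.sum_pos' (fun _ _ => by positivity) ⟨s, mem_univ _, by
      have : 0 < ‖ψ s‖ := norm_pos_iff.2 hs
      positivity⟩
  have h7 : ‖c‖ ^ 2 = 1 := by
    have : ‖c‖ ^ 2 * ∑ s, ‖ψ s‖ ^ 2 = 1 * ∑ s, ‖ψ s‖ ^ 2 := by rw [← h5, h4, one_mul]
    exact mul_right_cancel₀ h6.ne' this
  nlinarith [norm_nonneg c]

lemma ipr_shift {A : Type} [AddCommGroup A] (e : Fin d ≃ A) (ψ : (Site L → Fin d) → ℂ)
    (hψ : ∀ v : Site L, ∃ c : ℂ, ‖c‖ = 1 ∧ ∀ s, ψ (cs v s) = c * ψ s) (g : Site L → Lb A)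
    (v : Site L) :
    ipr ψ ((weyl e (fun x => g (x - v))).mulVec ψ) = ipr ψ ((weyl e g).mulVec ψ) := by
  obtain ⟨c, hc, h1⟩ := hψ v
  have hcc : conj c * c = 1 := by
    rw [Complex.conj_mul', hc]; norm_num
  unfold ipr Matrix.mulVec dotProduct
  simp only [Finset.mul_sum]
  have h2 : ∑ s, ∑ t, conj (ψ s) * (weyl e g s t * ψ t) =
      ∑ s, ∑ t, conj (ψ (cs v s)) * (weyl e g (cs v s) (cs v t) * ψ (cs v t)) := by
    symm
    refine Fintype.sum_equiv (cs v) _ _ fun s => ?_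
    exact Fintype.sum_equiv (cs v) _ _ fun t => rfl
  rw [h2]
  refine Finset.sum_congr rfl fun s _ => Finset.sum_congr rfl fun t _ => ?_
  rw [weyl_cs, h1 s, h1 t, map_mul]
  calc conj (ψ s) * (weyl e (fun x => g (x - v)) s t * ψ t)
      = (conj c * c) * (conj (ψ s) * (weyl e (fun x => g (x - v)) s t * ψ t)) := by
        rw [hcc, one_mul]
    _ = _ := by ring

end SH947
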