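import Pool.Agent.R947.SH.Stm

/-! # TRI: all terms have the same eigenvalue in a simple eigenspace -/

set_option autoImplicit false

open scoped BigOperators ComplexConjugate
open Finset Pool.Agent.TH235.PP

namespace SH947

namespace TriAux

/-- translation of configurations -/
def pw {d L : ℕ} (w : Site L) : (Site L → Fin d) ≃ (Site L → Fin d) where
  toFun s := fun v => s (v + w)
  invFun s := fun v => s (v - w)
  left_inv s := by funext v; simp
  right_inv s := by funext v; simp

/-- translation of vectors -/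
def Tw {d L : ℕ} (w : Site L) (φ : (Site L → Fin d) → ℂ) : (Site L → Fin d) → ℂ :=
  fun s => φ (pw w s)

lemma sh_add {R L : ℕ} (u w : Site L) (x : Fin R × Fin R) : sh (u + w) x = sh u x + w := by
  unfold sh
  ext
  · simp only [Prod.fst_add]; ring
  · simp only [Prod.snd_add]; ring

lemma term_tr {d R L : ℕ} (h : BoxOp d R) (u w : Site L) (s t : Site L → Fin d) :
    (term h (u + w) : TorOp d L) s t = (term h u : TorOp d L) (pw w s) (pw w t) := by
  unfold term
  have e : (∀ v, (∀ x : Fin R × Fin R, sh (u + w) x ≠ v) → s v = t v) ↔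
      (∀ v, (∀ x : Fin R × Fin R, sh u x ≠ v) → (pw w s) v = (pw w t) v) := by
    constructor
    · intro H v hv
      refine H (v + w) fun x hx => hv x ?_
      rw [sh_add] at hx
      exact add_right_cancel hx
    · intro H v hv
      have := H (v - w) fun x hx => hv x (by rw [sh_add, hx]; simp)
      simpa [pw] using this
  by_cases hc : ∀ v, (∀ x : Fin R × Fin R, sh (u + w) x ≠ v) → s v = t v
  · rw [if_pos hc, if_pos (e.mp hc)]
    congr 1 <;> funext x <;> simp [pw, sh_add]
  · rw [if_neg hc, if_neg (fun h => hc (e.mpr h))]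

lemma term_Tw {d R L : ℕ} [NeZero L] (h : BoxOp d R) (u w : Site L) (φ : (Site L → Fin d) → ℂ) :
    (term h (u + w) : TorOp d L).mulVec (Tw w φ) = Tw w ((term h u : TorOp d L).mulVec φ) := by
  funext s
  simp only [Matrix.mulVec, dotProduct, Tw, term_tr]
  exact Equiv.sum_comp (pw w) (fun t => (term h u : TorOp d L) (pw w s) t * φ t)

lemma Tw_sum {d L : ℕ} {ι : Type} (w : Site L) (s : Finset ι) (f : ι → (Site L → Fin d) → ℂ) :
    Tw w (∑ i ∈ s, f i) = ∑ i ∈ s, Tw w (f i) := by
  funext x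
  simp only [Tw, Finset.sum_apply]

lemma ham_Tw {d R L : ℕ} [NeZero L] (h : BoxOp d R) (w : Site L) (φ : (Site L → Fin d) → ℂ) :
    (ham h L).mulVec (Tw w φ) = Tw w ((ham h L).mulVec φ) := by
  unfold ham
  rw [Matrix.sum_mulVec, Matrix.sum_mulVec, Tw_sum]
  rw [← Equiv.sum_comp (Equiv.addRight w)]
  refine Finset.sum_congr rfl fun u _ => ?_
  exact term_Tw h u w φ

lemma Tw_smul {d L : ℕ} (w : Site L) (c : ℂ) (φ : (Site L → Fin d) → ℂ) :
    Tw w (c • φ) = c • Tw w φ := rfl

lemma Tw_inj {d L : ℕ} (w : Site L) (φ : (Site L → Fin d) → ℂ) (h : Tw w φ = 0) : φ = 0 := by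
  funext s
  have := congrFun h ((pw w).symm s)
  simpa [Tw] using this

end TriAux

open TriAux in
theorem t_TRI : S_TRI := by
  intro d R L _ h hc ψ E hψ hE hu
  have h1 : (ham h L).mulVec ((term h 0 : TorOp d L).mulVec ψ) =
      E • (term h 0 : TorOp d L).mulVec ψ := by
    rw [← Matrix.mulVec_smul, ← hE, Matrix.mulVec_mulVec, Matrix.mulVec_mulVec]
    congr 1
    unfold ham
    rw [Finset.sum_mul, Finset.mul_sum]
    exact Finset.sum_congr rfl fun u _ => hc u 0
  obtain ⟨μ, hμ⟩ := hu _ h1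
  refine ⟨μ, fun w => ?_⟩
  have h2 : (ham h L).mulVec (Tw w ψ) = E • Tw w ψ := by
    rw [ham_Tw, hE, Tw_smul]
  obtain ⟨c, hcc⟩ := hu _ h2
  have hc0 : c ≠ 0 := by
    rintro rfl
    rw [zero_smul] at hcc
    exact hψ (Tw_inj w ψ hcc)
  have h3 := term_Tw h 0 w ψ
  rw [zero_add, hμ, Tw_smul, hcc, Matrix.mulVec_smul, smul_comm μ c ψ] at h3
  exact smul_right_injective _ hc0 h3

end SH947
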