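import Pool.Agent.R947.SH.Stm

/-! # ALG: the commutative algebra -/

set_option autoImplicit false

open Pool.Agent.TH235.PP

namespace SH947

theorem alg_pow_mem {R : Type} [CommRing R] (J : Ideal R) [Finite (R ⧸ J)] (X : Rˣ) :
    ∃ L₀ : ℕ, 0 < L₀ ∧ ∀ k : ℕ, (X : R) ^ (L₀ * k) - 1 ∈ J := by
  have : Finite (R ⧸ J)ˣ := inferInstance
  refine ⟨Nat.card (R ⧸ J)ˣ, Nat.card_pos, fun k => ?_⟩
  rw [← Ideal.Quotient.eq_zero_iff_mem, map_sub, map_pow, map_one, sub_eq_zero]
  have h : (Units.map (Ideal.Quotient.mk J : R →* R ⧸ J) X) ^ (Nat.card (R ⧸ J)ˣ) = 1 :=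
    pow_card_eq_one'
  have h2 := congrArg (fun u : (R ⧸ J)ˣ => (u : R ⧸ J)) h
  simp only [Units.val_pow_eq_pow_val, Units.coe_map, Units.val_one] at h2
  rw [pow_mul]
  have h3 : (Ideal.Quotient.mk J (X : R)) ^ (Nat.card (R ⧸ J)ˣ) = 1 := h2
  rw [h3, one_pow]

theorem t_ALG : S_ALG := by
  intro k R V _ _ _ _ _ _ _ _ X Y S P h u hu
  obtain ⟨L₁, hL⟩ := h u hu
  have : IsNoetherianRing k := inferInstance
  have : IsNoetherianRing R := Algebra.FiniteType.isNoetherianRing k R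
  have : IsArtinianRing k := inferInstance
  have : IsJacobsonRing k := inferInstance
  rw [← Submodule.Quotient.mk_eq_zero S]
  by_contra hne
  set I : Ideal R := Ideal.torsionOf R (V ⧸ S) (Submodule.Quotient.mk u) with hI
  have hI1 : I ≠ ⊤ := by
    intro htop
    have h1 : (1 : R) ∈ I := by rw [htop]; trivial
    rw [hI, Ideal.mem_torsionOf_iff, one_smul] at h1
    exact hne h1
  obtain ⟨m, hm, hIm⟩ := Ideal.exists_le_maximal I hI1
  have : Finite (R ⧸ m) := by
    let : Field (R ⧸ m) := Ideal.Quotient.field m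
    have : Algebra.FiniteType k (R ⧸ m) :=
      Algebra.FiniteType.of_surjective (Ideal.Quotient.mkₐ k m) (Ideal.Quotient.mkₐ_surjective k m)
    have : Module.Finite k (R ⧸ m) := finite_of_finite_type_of_isJacobsonRing k (R ⧸ m)
    exact Module.finite_of_finite k
  have key : (Submodule.Quotient.mk u : V ⧸ S) ∈
      (⨅ i : ℕ, m ^ i • ⊤ : Submodule R (V ⧸ S)) := by
    rw [Submodule.mem_iInf]
    intro n
    have : Finite (R ⧸ m ^ n) := Ideal.finite_quotient_pow (IsNoetherian.noetherian m) n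
    obtain ⟨a, ha, hXa⟩ := alg_pow_mem (m ^ n) X
    obtain ⟨b, hb, hYb⟩ := alg_pow_mem (m ^ n) Y
    have hge : L₁ ≤ a * (b * (L₁ + 1)) := by
      have h1 : 1 ≤ a * b := Nat.mul_pos ha hb
      calc L₁ ≤ 1 * (L₁ + 1) := by omega
        _ ≤ (a * b) * (L₁ + 1) := Nat.mul_le_mul_right _ h1
        _ = a * (b * (L₁ + 1)) := by ring
    have hmem := hL _ hge
    have hJ : Ideal.span {(X : R) ^ (a * (b * (L₁ + 1))) - 1, (Y : R) ^ (a * (b * (L₁ + 1))) - 1}
        ≤ m ^ n := by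
      rw [Ideal.span_le]
      intro x hx
      rcases hx with rfl | hx
      · exact hXa _
      · rw [Set.mem_singleton_iff] at hx
        rw [hx]
        have e : a * (b * (L₁ + 1)) = b * (a * (L₁ + 1)) := by ring
        rw [e]
        exact hYb _
    rw [Submodule.mem_sup] at hmem
    obtain ⟨s, hs, t, ht, hst⟩ := hmem
    have e1 : (Submodule.Quotient.mk u : V ⧸ S) = Submodule.Quotient.mk t := by
      rw [← hst, Submodule.Quotient.mk_add, (Submodule.Quotient.mk_eq_zero S).mpr hs, zero_add]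
    rw [e1]
    have ht2 : (Submodule.Quotient.mk t : V ⧸ S) ∈ Submodule.map S.mkQ
        (Ideal.span {(X : R) ^ (a * (b * (L₁ + 1))) - 1, (Y : R) ^ (a * (b * (L₁ + 1))) - 1} •
          (⊤ : Submodule R V)) := ⟨t, ht, rfl⟩
    rw [Submodule.map_smul''] at ht2
    exact Submodule.smul_mono hJ le_top ht2
  rw [Ideal.mem_iInf_smul_pow_eq_bot_iff] at key
  obtain ⟨r, hr⟩ := key
  have h1 : 1 - (r : R) ∈ I := by
    rw [hI, Ideal.mem_torsionOf_iff, sub_smul, one_smul, hr, sub_self]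
  have h2 : (1 : R) ∈ m := by
    have := m.add_mem (hIm h1) r.2
    simpa using this
  exact hm.ne_top ((Ideal.eq_top_iff_one m).mpr h2)

end SH947
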