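import Pool.Agent.R947.SH.Stm3

/-!
# Project SH, piece CHR: the quotient of the eigenvalues is a character
-/

set_option autoImplicit false

open scoped BigOperators ComplexConjugate
open Finset Pool.Agent.TH235.PP

namespace SH947

namespace CHRaux

/-- products of powers of the eigenvalues -/
noncomputable def Lam {ι : Type} [Fintype ι] (l : ι → ℂ) (n : ι → ℤ) : ℂ := ∏ i, l i ^ n i

section Lam

variable {ι : Type} [Fintype ι] {l : ι → ℂ}

lemma Lam_zero : Lam l 0 = 1 := by simp [Lam]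

lemma Lam_add (hl : ∀ i, l i ≠ 0) (n n' : ι → ℤ) : Lam l (n + n') = Lam l n * Lam l n' := by
  unfold Lam
  rw [← Finset.prod_mul_distrib]
  refine Finset.prod_congr rfl fun i _ => ?_
  rw [Pi.add_apply, zpow_add₀ (hl i)]

lemma Lam_neg (n : ι → ℤ) : Lam l (-n) = (Lam l n)⁻¹ := by
  unfold Lam
  rw [← Finset.prod_inv_distrib]
  refine Finset.prod_congr rfl fun i _ => ?_
  rw [Pi.neg_apply, zpow_neg]

lemma Lam_smul (k : ℤ) (n : ι → ℤ) : Lam l (k • n) = (Lam l n) ^ k := by
  unfold Lam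
  rw [← Finset.prod_zpow]
  refine Finset.prod_congr rfl fun i _ => ?_
  rw [Pi.smul_apply, smul_eq_mul, mul_comm, zpow_mul]

lemma Lam_ne (hl : ∀ i, l i ≠ 0) (n : ι → ℤ) : Lam l n ≠ 0 :=
  Finset.prod_ne_zero_iff.2 fun i _ => zpow_ne_zero _ (hl i)

lemma Lam_single [DecidableEq ι] (i : ι) : Lam l (Pi.single i 1) = l i := by
  unfold Lam
  rw [Finset.prod_eq_single i]
  · simp
  · intro j _ hj
    rw [Pi.single_eq_of_ne hj, zpow_zero]
  · intro h
    exact absurd (Finset.mem_univ i) h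

end Lam

variable {A : Type} [AddCommGroup A]

lemma bet_ne_zero (u w : VV A) : bet u w ≠ 0 := by
  unfold bet
  refine Finset.prod_ne_zero_iff.2 fun p _ => ?_
  intro h
  have h1 : (w p).2 (u p).1 * (w p).2 (-(u p).1) = 1 := by
    rw [← AddChar.map_add_eq_mul, add_neg_cancel, AddChar.map_zero_eq_one]
  rw [h, zero_mul] at h1
  exact zero_ne_one h1

lemma pj_zero (L : ℕ) : pj L (0 : VV A) = 0 := by
  unfold pj
  rw [Finsupp.mapDomain_zero]
  rfl

lemma tr_tr (v v' : ℤ × ℤ) (u : VV A) : tr v (tr v' u) = tr (v' + v) u := by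
  unfold tr
  rw [← Finsupp.mapDomain_comp]
  congr 1
  funext p
  simp [add_assoc]

lemma tr_add (v : ℤ × ℤ) (u u' : VV A) : tr v (u + u') = tr v u + tr v u' :=
  Finsupp.mapDomain_add

lemma tr_zero' (v : ℤ × ℤ) : tr v (0 : VV A) = 0 := Finsupp.mapDomain_zero

lemma tr_neg (v : ℤ × ℤ) (u : VV A) : tr v (-u) = -tr v u := by
  have h : -u + u = 0 := neg_add_cancel u
  have h2 : tr v (-u) + tr v u = 0 := by rw [← tr_add, h, tr_zero']
  exact @eq_neg_of_add_eq_zero_left (VV A) _ (tr v (-u)) (tr v u) h2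

lemma tr_zero_left (u : VV A) : tr 0 u = u := by
  unfold tr
  have : (fun p : ℤ × ℤ => p + 0) = id := by
    funext p; simp
  rw [this, Finsupp.mapDomain_id]

variable {ι : Type}

open Classical in
/-- labels with their numbers of generators -/
noncomputable def SN (w : ι → VV A) : AddSubgroup (VV A × (ι → ℤ)) :=
  AddSubgroup.closure {x | ∃ (i : ι) (v : ℤ × ℤ), x = (tr v (w i), Pi.single i 1)}

lemma SN_tr (w : ι → VV A) (v : ℤ × ℤ) (x : VV A × (ι → ℤ)) (hx : x ∈ SN w) :
    ((tr v x.1, x.2) : VV A × (ι → ℤ)) ∈ SN w := by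
  unfold SN at hx ⊢
  induction hx using AddSubgroup.closure_induction with
  | mem x hx =>
    obtain ⟨i, v', rfl⟩ := hx
    simp only [tr_tr]
    exact AddSubgroup.subset_closure ⟨i, v' + v, rfl⟩
  | zero =>
    simp only [Prod.fst_zero, Prod.snd_zero, tr_zero']
    exact zero_mem _
  | add x y _ _ hx hy =>
    have := add_mem hx hy
    simpa only [Prod.fst_add, Prod.snd_add, tr_add, Prod.mk_add_mk] using this
  | neg x _ hx =>
    have := neg_mem hx
    simpa only [Prod.fst_neg, Prod.snd_neg, tr_neg, Prod.neg_mk] using this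

lemma exists_SN (w : ι → VV A) (g : VV A) (hg : g ∈ Gen w) : ∃ n, (g, n) ∈ SN w := by
  classical
  unfold Gen at hg
  induction hg using AddSubgroup.closure_induction with
  | mem x hx =>
    obtain ⟨i, v, rfl⟩ := hx
    refine ⟨Pi.single i 1, ?_⟩
    unfold SN
    apply AddSubgroup.subset_closure
    refine ⟨i, v, ?_⟩
    congr
  | zero => exact ⟨0, zero_mem _⟩
  | add x y _ _ hx hy =>
    obtain ⟨n, hn⟩ := hx
    obtain ⟨n', hn'⟩ := hy
    exact ⟨n + n', add_mem hn hn'⟩
  | neg x _ hx =>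
    obtain ⟨n, hn⟩ := hx
    exact ⟨-n, neg_mem hn⟩

end CHRaux

open CHRaux

theorem t_CHR (hW : S_WEY) (hL : S_LOC) (_hN : S_NOE) : S_CHR := by
  classical
  intro A _ _ d e ι _ w lam ψ L₀ hyp
  obtain ⟨-, hψ⟩ := hyp
  obtain ⟨hL1, hL2, hL3, -⟩ := hL A
  -- the eigenvalues do not vanish
  have hne : ∀ (L : ℕ) [NeZero L], L₀ ≤ L → ∀ i, lam L i ≠ 0 := by
    intro L _ hLL i h0
    obtain ⟨h1, h2, -⟩ := hψ L hLL
    have h3 := h2 i 0
    rw [h0, zero_smul] at h3
    have h4 := (hW A (Site L) d e).2.2.2.1 (fun x => pj L (w i) (x - 0))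
    apply h1
    calc ψ L = (1 : Matrix (Site L → Fin d) (Site L → Fin d) ℂ).mulVec (ψ L) :=
          (Matrix.one_mulVec _).symm
      _ = 0 := by rw [← h4, ← Matrix.mulVec_mulVec, h3, Matrix.mulVec_zero]
  -- the eigenvalue of a product of generators
  have key : ∀ x ∈ SN w, ∃ (θ : ℂ) (L₁ : ℕ), θ ≠ 0 ∧ ∀ (L : ℕ) [NeZero L], L₁ ≤ L →
      (weyl e (pj L x.1)).mulVec (ψ L) = (θ * Lam (lam L) x.2) • ψ L := by
    intro x hx
    unfold SN at hx
    induction hx using AddSubgroup.closure_induction with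
    | mem x hx =>
      obtain ⟨i, v, rfl⟩ := hx
      refine ⟨1, L₀, one_ne_zero, fun L _ hLL => ?_⟩
      simp only
      rw [hL2 L v (w i), one_mul]
      have h1 := (hψ L hLL).2.1 i (toT L v)
      have h2 := Lam_single (l := lam L) i
      rw [h1]
      congr 1
      rw [← h2]
    | zero =>
      refine ⟨1, 0, one_ne_zero, fun L _ _ => ?_⟩
      rw [Prod.fst_zero, Prod.snd_zero, pj_zero, (hW A (Site L) d e).2.1, Matrix.one_mulVec,
        Lam_zero, one_mul, one_smul]
    | add x y _ _ hx hy =>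
      obtain ⟨z, N, hz0, hz⟩ := hx
      obtain ⟨z', N', hz0', hz'⟩ := hy
      obtain ⟨N3, h3⟩ := hL3 x.1 y.1
      refine ⟨(bet x.1 y.1)⁻¹ * (z' * z), max (max N N') (max N3 L₀),
        mul_ne_zero (inv_ne_zero (bet_ne_zero _ _)) (mul_ne_zero hz0' hz0), fun L _ hLL => ?_⟩
      have k1 : N ≤ L := ((le_max_left _ _).trans (le_max_left _ _)).trans hLL
      have k2 : N' ≤ L := ((le_max_right _ _).trans (le_max_left _ _)).trans hLL
      have k3 : N3 ≤ L := ((le_max_left _ _).trans (le_max_right _ _)).trans hLL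
      have k4 : L₀ ≤ L := ((le_max_right _ _).trans (le_max_right _ _)).trans hLL
      have hm := (hW A (Site L) d e).1 (pj L x.1) (pj L y.1)
      rw [(h3 L k3).1, ← hL1] at hm
      have h4 := congrArg (fun M => M.mulVec (ψ L)) hm
      rw [← Matrix.mulVec_mulVec, hz' L k2, Matrix.mulVec_smul, hz L k1,
        Matrix.smul_mulVec] at h4
      rw [Prod.fst_add, Prod.snd_add, Lam_add (hne L k4)]
      have h5 : (weyl e (pj L (x.1 + y.1))).mulVec (ψ L) =
          (bet x.1 y.1)⁻¹ • (bet x.1 y.1 • (weyl e (pj L (x.1 + y.1))).mulVec (ψ L)) := by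
        rw [smul_smul, inv_mul_cancel₀ (bet_ne_zero _ _), one_smul]
      rw [h5, ← h4, smul_smul, smul_smul]
      congr 1
      ring
    | neg x _ hx =>
      obtain ⟨z, N, hz0, hz⟩ := hx
      obtain ⟨N3, h3⟩ := hL3 (-x.1) x.1
      refine ⟨z⁻¹ * bet (-x.1) x.1, max (max N L₀) N3,
        mul_ne_zero (inv_ne_zero hz0) (bet_ne_zero _ _), fun L _ hLL => ?_⟩
      have k1 : N ≤ L := ((le_max_left _ _).trans (le_max_left _ _)).trans hLL
      have k2 : L₀ ≤ L := ((le_max_right _ _).trans (le_max_left _ _)).trans hLL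
      have k3 : N3 ≤ L := (le_max_right _ _).trans hLL
      have hm := (hW A (Site L) d e).1 (pj L (-x.1)) (pj L x.1)
      have h9 : -x.1 + x.1 = 0 := neg_add_cancel x.1
      rw [(h3 L k3).1, ← hL1, h9, pj_zero, (hW A (Site L) d e).2.1] at hm
      have h4 := congrArg (fun M => M.mulVec (ψ L)) hm
      rw [← Matrix.mulVec_mulVec, hz L k1, Matrix.mulVec_smul, Matrix.smul_mulVec,
        Matrix.one_mulVec] at h4
      have hΛ := Lam_ne (hne L k2) x.2
      rw [Prod.fst_neg, Prod.snd_neg, Lam_neg]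
      have h5 : (weyl e (pj L (-x.1))).mulVec (ψ L) =
          (z * Lam (lam L) x.2)⁻¹ •
            ((z * Lam (lam L) x.2) • (weyl e (pj L (-x.1))).mulVec (ψ L)) := by
        rw [smul_smul, inv_mul_cancel₀ (mul_ne_zero hz0 hΛ), one_smul]
      rw [h5, h4, smul_smul]
      congr 1
      rw [mul_inv]
      ring
  -- relations
  have hrel : ∀ n : ι → ℤ, ∃ L₁ : ℕ, ((0 : VV A), n) ∈ SN w →
      ∀ (L L' : ℕ) [NeZero L] [NeZero L'], L₁ ≤ L → L₁ ≤ L' →
        Lam (lam L) n = Lam (lam L') n := by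
    intro n
    by_cases hn : ((0 : VV A), n) ∈ SN w
    · obtain ⟨θ, L₁, hθ, h⟩ := key _ hn
      have h1 : ∀ (L : ℕ) [NeZero L], max L₁ L₀ ≤ L → θ * Lam (lam L) n = 1 := by
        intro L _ hLL
        have h2 := h L ((le_max_left _ _).trans hLL)
        simp only at h2
        rw [pj_zero, (hW A (Site L) d e).2.1, Matrix.one_mulVec] at h2
        have h3 := (hψ L ((le_max_right _ _).trans hLL)).1
        have h4 : (1 : ℂ) • ψ L = (θ * Lam (lam L) n) • ψ L := by rw [one_smul]; exact h2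
        exact (smul_left_injective ℂ h3 h4).symm
      refine ⟨max L₁ L₀, fun _ L L' _ _ hL' hL'' => ?_⟩
      exact mul_left_cancel₀ hθ ((h1 L hL').trans (h1 L' hL'').symm)
    · exact ⟨0, fun h => absurd h hn⟩
  choose fL hfL using hrel
  -- finite generation
  set N : AddSubgroup (ι → ℤ) := (SN w).comap (AddMonoidHom.inr (VV A) (ι → ℤ)) with hNdef
  have hmemN : ∀ n, n ∈ N ↔ ((0 : VV A), n) ∈ SN w := fun n => Iff.rfl
  have hfg : (AddSubgroup.toIntSubmodule N).FG := IsNoetherian.noetherian _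
  obtain ⟨G, hG⟩ := hfg
  have hGN : ∀ n ∈ G, ((0 : VV A), n) ∈ SN w := by
    intro n hn
    have h1 : n ∈ AddSubgroup.toIntSubmodule N := by
      rw [← hG]
      exact Submodule.subset_span hn
    exact h1
  refine ⟨max L₀ (G.sup fL), fun L L' _ _ hLL hLL' => ?_⟩
  have k0 : L₀ ≤ L := (le_max_left _ _).trans hLL
  have k0' : L₀ ≤ L' := (le_max_left _ _).trans hLL'
  have hl := hne L k0
  have hl' := hne L' k0'
  have hall : ∀ n, ((0 : VV A), n) ∈ SN w → Lam (lam L) n = Lam (lam L') n := by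
    intro n hn
    have h1 : n ∈ Submodule.span ℤ (G : Set (ι → ℤ)) := by
      rw [hG]
      exact hn
    induction h1 using Submodule.span_induction with
    | mem x hx =>
      have h2 : fL x ≤ G.sup fL := Finset.le_sup (f := fL) hx
      exact hfL x (hGN x hx) L L' ((h2.trans (le_max_right _ _)).trans hLL)
        ((h2.trans (le_max_right _ _)).trans hLL')
    | zero => rw [Lam_zero, Lam_zero]
    | add x y hx hy ihx ihy =>
      have hx' : ((0 : VV A), x) ∈ SN w := by
        rw [hG] at hx; exact hx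
      have hy' : ((0 : VV A), y) ∈ SN w := by
        rw [hG] at hy; exact hy
      rw [Lam_add hl, Lam_add hl', ihx hx', ihy hy']
    | smul a x hx ihx =>
      have hx' : ((0 : VV A), x) ∈ SN w := by
        rw [hG] at hx; exact hx
      rw [Lam_smul, Lam_smul, ihx hx']
  -- the ratio
  set ρ : (ι → ℤ) → ℂ := fun n => Lam (lam L') n / Lam (lam L) n with hρ
  have hρadd : ∀ n n', ρ (n + n') = ρ n * ρ n' := by
    intro n n'
    simp only [hρ]
    rw [Lam_add hl, Lam_add hl', mul_div_mul_comm]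
  have hρ1 : ∀ n, ((0 : VV A), n) ∈ SN w → ρ n = 1 := by
    intro n hn
    simp only [hρ]
    rw [← hall n hn, div_self (Lam_ne hl n)]
  have hρneg : ∀ n, ρ n * ρ (-n) = 1 := by
    intro n
    rw [← hρadd, add_neg_cancel]
    exact hρ1 0 (zero_mem _)
  have hρwd : ∀ g n n', ((g, n) : VV A × (ι → ℤ)) ∈ SN w → ((g, n') : VV A × (ι → ℤ)) ∈ SN w →
      ρ n = ρ n' := by
    intro g n n' h h'
    have h1 := add_mem h (neg_mem h')
    have h2 : ((g, n) : VV A × (ι → ℤ)) + -(g, n') = (0, n + -n') :=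
      Prod.ext (add_neg_cancel g) rfl
    rw [h2] at h1
    have h3 := hρ1 _ h1
    rw [hρadd] at h3
    calc ρ n = ρ n * (ρ n' * ρ (-n')) := by rw [hρneg, mul_one]
      _ = (ρ n * ρ (-n')) * ρ n' := by ring
      _ = ρ n' := by rw [h3, one_mul]
  set χ : VV A → ℂ := fun g => if h : ∃ n, ((g, n) : VV A × (ι → ℤ)) ∈ SN w then ρ h.choose else 1
    with hχ
  have hχv : ∀ g n, ((g, n) : VV A × (ι → ℤ)) ∈ SN w → χ g = ρ n := by
    intro g n hn
    have hex : ∃ n, ((g, n) : VV A × (ι → ℤ)) ∈ SN w := ⟨n, hn⟩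
    have h1 : χ g = ρ hex.choose := by
      rw [hχ]; exact dif_pos hex
    rw [h1]
    exact hρwd g _ _ hex.choose_spec hn
  refine ⟨χ, ?_, ?_, ?_, ?_⟩
  · rw [hχv 0 0 (zero_mem _)]
    exact hρ1 0 (zero_mem _)
  · intro g hg g' hg'
    obtain ⟨n, hn⟩ := exists_SN w g hg
    obtain ⟨n', hn'⟩ := exists_SN w g' hg'
    have h1 := add_mem hn hn'
    rw [Prod.mk_add_mk] at h1
    rw [hχv g n hn, hχv g' n' hn', hχv _ _ h1, hρadd]
  · intro g hg v
    obtain ⟨n, hn⟩ := exists_SN w g hg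
    rw [hχv g n hn, hχv _ _ (SN_tr w v _ hn)]
  · intro i
    have h1 : ((w i, Pi.single i 1) : VV A × (ι → ℤ)) ∈ SN w := by
      unfold SN
      apply AddSubgroup.subset_closure
      refine ⟨i, 0, ?_⟩
      rw [tr_zero_left]
    rw [hχv _ _ h1]
    simp only [hρ]
    rw [Lam_single, Lam_single]
    exact div_mul_cancel₀ _ (hl i)

end SH947
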