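import Pool.Agent.R947.SH.Stm

/-!
# Project SH, piece LOC: labels of finite support on `ℤ²` and on large tori
-/

set_option autoImplicit false

open scoped BigOperators ComplexConjugate
open Finset Pool.Agent.TH235.PP

namespace SH947

namespace LOCaux

theorem toT_add (L : ℕ) (p q : ℤ × ℤ) : toT L (p + q) = toT L p + toT L q := by
  unfold toT
  ext <;> simp

theorem toT_sub (L : ℕ) (p q : ℤ × ℤ) : toT L (p - q) = toT L p - toT L q := by
  unfold toT
  ext <;> simp

/-- the box -/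
noncomputable def Bx (ρ : ℕ) : Finset (ℤ × ℤ) := Finset.Icc (-(ρ : ℤ)) ρ ×ˢ Finset.Icc (-(ρ : ℤ)) ρ

theorem mem_Bx (ρ : ℕ) (p : ℤ × ℤ) : p ∈ Bx ρ ↔ (-(ρ : ℤ) ≤ p.1 ∧ p.1 ≤ ρ) ∧ (-(ρ : ℤ) ≤ p.2 ∧ p.2 ≤ ρ) := by
  unfold Bx
  rw [Finset.mem_product, Finset.mem_Icc, Finset.mem_Icc]

theorem cast_inj {L : ℕ} {a b : ℤ} (h : (a : ZMod L) = (b : ZMod L)) (h1 : |a - b| < L) : a = b := by
  have h2 := (ZMod.intCast_eq_intCast_iff_dvd_sub b a L).1 h.symm
  have h3 := Int.eq_zero_of_abs_lt_dvd h2 h1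
  linarith

theorem toT_inj {L ρ : ℕ} (hL : 2 * ρ + 2 ≤ L) : Set.InjOn (toT L) (Bx ρ : Set (ℤ × ℤ)) := by
  intro p hp q hq h
  rw [Finset.mem_coe, mem_Bx] at hp hq
  have h1 : (p.1 : ZMod L) = (q.1 : ZMod L) := congrArg Prod.fst h
  have h2 : (p.2 : ZMod L) = (q.2 : ZMod L) := congrArg Prod.snd h
  apply Prod.ext
  · apply cast_inj h1
    rw [abs_lt]
    constructor <;> omega
  · apply cast_inj h2
    rw [abs_lt]
    constructor <;> omega

theorem exists_box (S : Finset (ℤ × ℤ)) : ∃ ρ : ℕ, S ⊆ Bx ρ := by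
  refine ⟨S.sup fun p => max p.1.natAbs p.2.natAbs, ?_⟩
  intro p hp
  have h := Finset.le_sup (f := fun p : ℤ × ℤ => max p.1.natAbs p.2.natAbs) hp
  rw [mem_Bx]
  simp only [sup_le_iff] at h
  omega

variable {A : Type} [AddCommGroup A]

theorem Bx_mono {ρ σ : ℕ} (h : ρ ≤ σ) : Bx ρ ⊆ Bx σ := by
  intro p hp
  rw [mem_Bx] at hp ⊢
  omega

theorem pj_supp (L : ℕ) (u : VV A) (y : Site L) (h : pj L u y ≠ 0) :
    ∃ p ∈ u.support, toT L p = y := by
  classical
  have h1 : y ∈ (u.mapDomain (toT L)).support := by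
    rw [Finsupp.mem_support_iff]
    exact h
  have h2 := Finsupp.mapDomain_support h1
  rw [Finset.mem_image] at h2
  exact h2

theorem pj_apply {L ρ : ℕ} (hL : 2 * ρ + 2 ≤ L) (u : VV A) (hu : u.support ⊆ Bx ρ) (p : ℤ × ℤ)
    (hp : p ∈ Bx ρ) : pj L u (toT L p) = u p :=
  Finsupp.mapDomain_apply' (Bx ρ : Set (ℤ × ℤ)) u (Finset.coe_subset.2 hu) (toT_inj hL) hp

theorem fac_one (u w : Lb A) (h : u = 0 ∨ w = 0) : w.2 u.1 = 1 := by
  rcases h with h | h
  · rw [h]
    exact AddChar.map_zero_eq_one _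
  · rw [h]
    rfl

theorem key {L ρ : ℕ} [NeZero L] (hL : 2 * ρ + 2 ≤ L) (u w : VV A) (hu : u.support ⊆ Bx ρ)
    (hw : w.support ⊆ Bx ρ) : betX (pj L u) (pj L w) = bet u w := by
  classical
  unfold betX bet
  have h1 : ∏ x : Site L, (pj L w x).2 (pj L u x).1 =
      ∏ x ∈ (Bx ρ).image (toT L), (pj L w x).2 (pj L u x).1 := by
    symm
    apply Finset.prod_subset (Finset.subset_univ _)
    intro x _ hx
    apply fac_one
    left
    by_contra h
    obtain ⟨p, hp, hpx⟩ := pj_supp L u x h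
    exact hx (Finset.mem_image.2 ⟨p, hu hp, hpx⟩)
  have h2 : ∏ x ∈ (Bx ρ).image (toT L), (pj L w x).2 (pj L u x).1 =
      ∏ p ∈ Bx ρ, (w p).2 (u p).1 := by
    rw [Finset.prod_image (toT_inj hL)]
    apply Finset.prod_congr rfl
    intro p hp
    rw [pj_apply hL u hu p hp, pj_apply hL w hw p hp]
  have h3 : ∏ p ∈ u.support, (w p).2 (u p).1 = ∏ p ∈ Bx ρ, (w p).2 (u p).1 := by
    apply Finset.prod_subset hu
    intro p _ hp
    apply fac_one
    left
    exact Finsupp.notMem_support_iff.1 hp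
  rw [h1, h2, h3]

theorem pj_tr (L : ℕ) (v : ℤ × ℤ) (u : VV A) :
    pj L (tr v u) = fun y => pj L u (y - toT L v) := by
  funext y
  unfold pj tr
  rw [← Finsupp.mapDomain_comp]
  have e : (toT L ∘ fun p => p + v) = (fun z => z + toT L v) ∘ toT L := by
    funext p
    simp only [Function.comp, toT_add]
  rw [e, Finsupp.mapDomain_comp]
  have hy : y = (fun z => z + toT L v) (y - toT L v) := by simp
  conv_lhs => rw [hy]
  rw [Finsupp.mapDomain_apply (add_left_injective _)]

theorem tr_supp {ρ : ℕ} (v : ℤ × ℤ) (w : VV A) (hw : w.support ⊆ Bx ρ) (hv : v ∈ Bx (2 * ρ)) :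
    (tr v w).support ⊆ Bx (3 * ρ) := by
  classical
  intro p hp
  have h1 := Finsupp.mapDomain_support hp
  rw [Finset.mem_image] at h1
  obtain ⟨q, hq, rfl⟩ := h1
  have h2 := hw hq
  rw [mem_Bx] at h2 hv ⊢
  rw [Prod.fst_add, Prod.snd_add]
  push_cast at hv ⊢
  omega

end LOCaux

open LOCaux in
theorem t_LOC : S_LOC := by
  classical
  intro A _ _
  refine ⟨?_, pj_tr, ?_, ?_⟩
  · intro L u w
    unfold pj
    rw [Finsupp.mapDomain_add, Finsupp.coe_add]
  · intro u w
    obtain ⟨ρ, hρ⟩ := exists_box (u.support ∪ w.support)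
    refine ⟨2 * ρ + 2, ?_⟩
    intro L _ hL
    have hu := Finset.union_subset_left hρ
    have hw := Finset.union_subset_right hρ
    exact ⟨key hL u w hu hw, key hL w u hw hu⟩
  · intro u w hcomm
    obtain ⟨ρ, hρ⟩ := exists_box (u.support ∪ w.support)
    have hu := Finset.union_subset_left hρ
    have hw := Finset.union_subset_right hρ
    refine ⟨2 * (3 * ρ) + 2, ?_⟩
    intro L _ hL y
    by_cases hm : ∃ p ∈ u.support, ∃ q ∈ w.support, toT L p = toT L q + y
    · obtain ⟨p, hp, q, hq, hpq⟩ := hm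
      have hy : toT L (p - q) = y := by
        rw [toT_sub, hpq]
        abel
      have e : (fun x => pj L w (x - y)) = pj L (tr (p - q) w) := by
        rw [pj_tr, hy]
      have hv : p - q ∈ Bx (2 * ρ) := by
        have h1 := hu hp
        have h2 := hw hq
        rw [mem_Bx] at h1 h2 ⊢
        rw [Prod.fst_sub, Prod.snd_sub]
        push_cast
        omega
      have hs := tr_supp (p - q) w hw hv
      have hu3 := hu.trans (Bx_mono (by omega : ρ ≤ 3 * ρ))
      rw [e, key hL u _ hu3 hs, key hL _ u hs hu3, hcomm]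
    · have hz : ∀ x, pj L u x = 0 ∨ pj L w (x - y) = 0 := by
        intro x
        by_contra hc
        push Not at hc
        obtain ⟨p, hp, hpx⟩ := pj_supp L u x hc.1
        obtain ⟨q, hq, hqx⟩ := pj_supp L w (x - y) hc.2
        apply hm
        refine ⟨p, hp, q, hq, ?_⟩
        rw [hpx, hqx]
        abel
      have e1 : betX (pj L u) (fun x => pj L w (x - y)) = 1 := by
        unfold betX
        apply Finset.prod_eq_one
        intro x _
        exact fac_one _ _ (hz x)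
      have e2 : betX (fun x => pj L w (x - y)) (pj L u) = 1 := by
        unfold betX
        apply Finset.prod_eq_one
        intro x _
        exact fac_one _ _ (hz x).symm
      rw [e1, e2]

end SH947
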