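import Pool.Agent.R947.SH.Stm3
import Pool.Agent.R947.SH.LOC

/-!
# Project SH, piece CST: the eigenvalues of one large torus occur on every other
-/

set_option autoImplicit false

open scoped BigOperators ComplexConjugate
open Finset Pool.Agent.TH235.PP

namespace SH947

namespace CSTaux

variable {A : Type} [AddCommGroup A]

theorem pj_sub (L : ℕ) (u w : VV A) : pj L (u - w) = pj L u - pj L w := by
  have h := map_sub (Finsupp.mapDomain.addMonoidHom (M := Lb A) (toT L)) u w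
  have h2 := congrArg (fun f : Site L →₀ Lb A => (⇑f : Site L → Lb A)) h
  simpa [pj] using h2

theorem vv_sub_add (h g : VV A) : h - g + g = h := sub_add_cancel (G := VV A) h g

theorem vv_add_neg (g : VV A) : g + -g = 0 := add_neg_cancel g

theorem pj_add (L : ℕ) (u w : VV A) : pj L (u + w) = pj L u + pj L w := by
  unfold pj
  rw [Finsupp.mapDomain_add, Finsupp.coe_add]

theorem pj_zero (L : ℕ) : pj L (0 : VV A) = 0 := by
  unfold pj
  rw [Finsupp.mapDomain_zero, Finsupp.coe_zero]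

theorem tr_tr (v v' : ℤ × ℤ) (u : VV A) : tr v (tr v' u) = tr (v' + v) u := by
  unfold tr
  rw [← Finsupp.mapDomain_comp]
  congr 1
  funext p
  simp [add_assoc]

theorem gen_tr {ι : Type} (w : ι → VV A) (v : ℤ × ℤ) (g : VV A) (hg : g ∈ Gen w) :
    tr v g ∈ Gen w := by
  have h : Gen w ≤ (Gen w).comap (Finsupp.mapDomain.addMonoidHom (M := Lb A)
      (fun p : ℤ × ℤ => p + v)) := by
    unfold Gen
    rw [AddSubgroup.closure_le]
    rintro x ⟨i, v', rfl⟩
    have : tr v (tr v' (w i)) ∈ AddSubgroup.closure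
        {g : VV A | ∃ (i : ι) (v : ℤ × ℤ), g = tr v (w i)} := by
      rw [tr_tr]
      exact AddSubgroup.subset_closure ⟨i, v' + v, rfl⟩
    exact this
  exact h hg

/-- the homomorphism `pj L` -/
noncomputable def pjHom (A : Type) [AddCommGroup A] (L : ℕ) : VV A →+ (Site L → Lb A) where
  toFun := pj L
  map_zero' := pj_zero L
  map_add' := pj_add L

theorem toT_surj (L : ℕ) [NeZero L] (y : Site L) : ∃ v : ℤ × ℤ, toT L v = y := by
  refine ⟨((y.1.val : ℤ), (y.2.val : ℤ)), ?_⟩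
  unfold toT
  ext <;> simp

end CSTaux

open CSTaux LOCaux in
theorem t_CST (hW : S_WEY) (hP : S_PER) (hT : S_TEX) (hC : S_CHR) : S_CST := by
  classical
  intro A _ _ d e ι _ w lam ψ L₀ hH
  obtain ⟨L₁, h1⟩ := hT A d e ι w lam ψ L₀ hH
  obtain ⟨L₂, h2⟩ := hC A d e ι w lam ψ L₀ hH
  refine ⟨max L₀ (max L₁ L₂), ?_⟩
  intro L L' _ _ hL hL'
  have hL0 : L₀ ≤ L := le_trans (le_max_left _ _) hL
  have hL1 : L₁ ≤ L := le_trans (le_trans (le_max_left _ _) (le_max_right _ _)) hL
  have hL2 : L₂ ≤ L := le_trans (le_trans (le_max_right _ _) (le_max_right _ _)) hL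
  have hL2' : L₂ ≤ L' := le_trans (le_trans (le_max_right _ _) (le_max_right _ _)) hL'
  obtain ⟨χ, hχ0, hχm, hχt, hχw⟩ := h2 L L' hL2 hL2'
  obtain ⟨hψ, hev, _⟩ := hH.2 L hL0
  obtain ⟨hmul, _, _, huni, _, _, _⟩ := hW A (Site L) d e
  have hne : ∀ g ∈ Gen w, χ g ≠ 0 := by
    intro g hg h0
    have := hχm g hg (-g) (neg_mem hg)
    have e0 : g + -g = 0 := vv_add_neg g
    rw [e0, hχ0, h0, zero_mul] at this
    exact one_ne_zero this
  have hone : ∀ g ∈ Gen w, ∀ v, χ (tr v g - g) = 1 := by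
    intro g hg v
    have h3 := hχm (tr v g - g) (sub_mem (gen_tr w v g hg) hg) g hg
    have e0 : tr v g - g + g = tr v g := vv_sub_add _ _
    rw [e0, hχt g hg v] at h3
    have h4 : 1 * χ g = χ (tr v g - g) * χ g := by rw [one_mul]; exact h3
    exact (mul_right_cancel₀ (hne g hg) h4).symm
  have hwell : ∀ g ∈ Gen w, ∀ g' ∈ Gen w, pj L g = pj L g' → χ g = χ g' := by
    intro g hg g' hg' he
    obtain ⟨a, ha, b, hb, hab⟩ := h1 L hL1 (g - g') (sub_mem hg hg')
      (by rw [pj_sub, he, sub_self])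
    have ha' := sub_mem (gen_tr w ((L : ℤ), 0) a ha) ha
    have hb' := sub_mem (gen_tr w (0, (L : ℤ)) b hb) hb
    have e1 : g = g' + ((tr ((L : ℤ), 0) a - a) + (tr (0, (L : ℤ)) b - b)) := by
      rw [← hab]; abel
    rw [e1, hχm g' hg' _ (add_mem ha' hb'), hχm _ ha' _ hb', hone a ha, hone b hb, mul_one,
      mul_one]
  let χ' : (Site L → Lb A) → ℂ := fun h =>
    if hh : ∃ g ∈ Gen w, pj L g = h then χ hh.choose else 1
  have hχ' : ∀ g ∈ Gen w, χ' (pj L g) = χ g := by
    intro g hg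
    have hh : ∃ g' ∈ Gen w, pj L g' = pj L g := ⟨g, hg, rfl⟩
    have e1 : χ' (pj L g) = χ hh.choose := dif_pos hh
    rw [e1]
    exact hwell _ hh.choose_spec.1 _ hg hh.choose_spec.2
  obtain ⟨t, ht⟩ := hP A (Site L) ((Gen w).map (pjHom A L)) χ'
    (by rw [← pj_zero L, hχ' 0 (zero_mem _), hχ0])
    (by
      rintro _ ⟨g, hg, rfl⟩ _ ⟨g', hg', rfl⟩
      have e1 : pjHom A L g + pjHom A L g' = pj L (g + g') := (pj_add L g g').symm
      rw [e1, hχ' _ (add_mem hg hg'), hχm g hg g' hg']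
      have e2 : χ' (pjHom A L g) = χ g := hχ' g hg
      have e3 : χ' (pjHom A L g') = χ g' := hχ' g' hg'
      rw [e2, e3])
  refine ⟨(weyl e t).mulVec (ψ L), ?_, ?_⟩
  · intro h0
    apply hψ
    have h3 : ((weyl e t).conjTranspose * weyl e t).mulVec (ψ L) = 0 := by
      rw [← Matrix.mulVec_mulVec, h0, Matrix.mulVec_zero]
    rwa [huni t, Matrix.one_mulVec] at h3
  · intro i y
    obtain ⟨v, rfl⟩ := toT_surj L y
    have ey : (fun x => pj L (w i) (x - toT L v)) = pj L (tr v (w i)) := (pj_tr L v (w i)).symm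
    have hev' : (weyl e (pj L (tr v (w i)))).mulVec (ψ L) = lam L i • ψ L := by
      rw [← ey]; exact hev i _
    have hgi : w i ∈ Gen w := by
      apply AddSubgroup.subset_closure
      refine ⟨i, 0, ?_⟩
      unfold tr
      have : (fun p : ℤ × ℤ => p + 0) = id := by funext p; simp
      rw [this, Finsupp.mapDomain_id]
    have hg : tr v (w i) ∈ Gen w := gen_tr w v _ hgi
    have hcomm := ht (pj L (tr v (w i))) ⟨_, hg, rfl⟩
    rw [hχ' _ hg, hχt _ hgi v] at hcomm
    rw [ey, Matrix.mulVec_mulVec, hmul, hcomm, ← smul_smul, add_comm, ← hmul,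
      Matrix.smul_mulVec, ← Matrix.mulVec_mulVec, hev', Matrix.mulVec_smul, smul_smul, hχw i]

end SH947
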