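import Pool.Agent.R947.SH.Stm

set_option autoImplicit false

open scoped BigOperators ComplexConjugate
open Finset Pool.Agent.TH235.PP

namespace SH947
namespace EVNaux

section lattice

variable {A : Type} [AddCommGroup A]

lemma bet_eq_prod (u w : VV A) : bet u w = u.prod (fun p k => (w p).2 k.1) := rfl

lemma bet_add_left (u u' w : VV A) : bet (u + u') w = bet u w * bet u' w := by
  classical
  rw [bet_eq_prod, bet_eq_prod, bet_eq_prod]
  refine Finsupp.prod_add_index' (fun p => ?_) (fun p a b => ?_)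
  · exact AddChar.map_zero_eq_one _
  · exact AddChar.map_add_eq_mul _ _ _

lemma bet_add_right (u w w' : VV A) : bet u (w + w') = bet u w * bet u w' := by
  unfold bet
  rw [← Finset.prod_mul_distrib]
  refine prod_congr rfl fun p _ => ?_
  rw [Finsupp.add_apply, Prod.snd_add, AddChar.add_apply]

lemma bet_zero_left (w : VV A) : bet 0 w = 1 := by simp [bet]

lemma bet_zero_right (u : VV A) : bet u 0 = 1 := by simp [bet]

lemma bet_neg_left (u w : VV A) : bet u w * bet (-u) w = 1 := by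
  have h : u + -u = 0 := add_neg_cancel u
  rw [← bet_add_left, h, bet_zero_left]

lemma bet_neg_right (u w : VV A) : bet u w * bet u (-w) = 1 := by
  have h : w + -w = 0 := add_neg_cancel w
  rw [← bet_add_right, h, bet_zero_right]

lemma bet_ne_zero (u w : VV A) : bet u w ≠ 0 := left_ne_zero_of_mul_eq_one (bet_neg_left u w)

lemma bet_tr (v : ℤ × ℤ) (u w : VV A) : bet (tr v u) (tr v w) = bet u w := by
  have hinj : Function.Injective (fun p : ℤ × ℤ => p + v) := add_left_injective v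
  rw [bet_eq_prod, bet_eq_prod]
  unfold tr
  rw [Finsupp.prod_mapDomain_index_inj hinj]
  refine Finset.prod_congr rfl fun p _ => ?_
  beta_reduce
  rw [Finsupp.mapDomain_apply hinj w p]

lemma tr_tr (v v' : ℤ × ℤ) (u : VV A) : tr v (tr v' u) = tr (v' + v) u := by
  unfold tr
  rw [← Finsupp.mapDomain_comp]
  congr 1
  funext p
  simp [add_assoc]

lemma tr_add (v : ℤ × ℤ) (u u' : VV A) : tr v (u + u') = tr v u + tr v u' :=
  Finsupp.mapDomain_add

lemma tr_zero' (v : ℤ × ℤ) : tr v (0 : VV A) = 0 := Finsupp.mapDomain_zero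

lemma tr_neg (v : ℤ × ℤ) (u : VV A) : tr v (-u) = -tr v u := by
  have h : -u + u = 0 := neg_add_cancel u
  have h2 : tr v (-u) + tr v u = 0 := by rw [← tr_add, h, tr_zero']
  exact @eq_neg_of_add_eq_zero_left (VV A) _ (tr v (-u)) (tr v u) h2

/-- The labels commuting with all the translates of the `w i`. -/
noncomputable def PP {ι : Type} (w : ι → VV A) : AddSubgroup (VV A) where
  carrier := {u | ∀ (i : ι) (v : ℤ × ℤ), bet u (tr v (w i)) = bet (tr v (w i)) u}
  zero_mem' := fun i v => by rw [bet_zero_left, bet_zero_right]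
  add_mem' := by
    intro a b ha hb i v
    rw [bet_add_left, bet_add_right, ha i v, hb i v]
  neg_mem' := by
    intro a ha i v
    have h1 := bet_neg_left a (tr v (w i))
    have h2 := bet_neg_right (tr v (w i)) a
    rw [← ha i v] at h2
    exact mul_left_cancel₀ (bet_ne_zero _ _) (h1.trans h2.symm)

lemma mem_PP {ι : Type} (w : ι → VV A) (u : VV A) :
    u ∈ PP w ↔ ∀ (i : ι) (v : ℤ × ℤ), bet u (tr v (w i)) = bet (tr v (w i)) u := Iff.rfl

/-- The group generated by the translates. -/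
noncomputable def SS {ι : Type} (w : ι → VV A) : AddSubgroup (VV A) :=
  AddSubgroup.closure {g : VV A | ∃ (i : ι) (v : ℤ × ℤ), g = tr v (w i)}

lemma SS_tr {ι : Type} (w : ι → VV A) (v : ℤ × ℤ) (u : VV A) (hu : u ∈ SS w) :
    tr v u ∈ SS w := by
  unfold SS at hu ⊢
  induction hu using AddSubgroup.closure_induction with
  | mem x hx =>
    obtain ⟨i, v', rfl⟩ := hx
    rw [tr_tr]
    exact AddSubgroup.subset_closure ⟨i, v' + v, rfl⟩
  | zero => rw [tr_zero']; exact zero_mem _
  | add x y _ _ hx hy => rw [tr_add]; exact add_mem hx hy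
  | neg x _ hx => rw [tr_neg]; exact neg_mem hx

lemma PP_tr {ι : Type} (w : ι → VV A) (v : ℤ × ℤ) (u : VV A) (hu : u ∈ PP w) :
    tr v u ∈ PP w := by
  intro i v'
  have h : tr v' (w i) = tr v (tr (v' - v) (w i)) := by rw [tr_tr]; congr 1; ring
  rw [h, bet_tr, bet_tr]
  exact hu i _

end lattice

section torus

variable {A : Type} [AddCommGroup A]

lemma pj_zero (L : ℕ) : pj L (0 : VV A) = 0 := by
  unfold pj
  rw [Finsupp.mapDomain_zero]
  rfl

lemma toT_surj (L : ℕ) [NeZero L] (y : Site L) : ∃ v : ℤ × ℤ, toT L v = y := by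
  refine ⟨((y.1.val : ℤ), (y.2.val : ℤ)), ?_⟩
  unfold toT
  ext <;> simp

lemma betX_shift (L : ℕ) [NeZero L] (a b : Site L → Lb A) (y : Site L) :
    betX (fun x => a (x - y)) (fun x => b (x - y)) = betX a b := by
  unfold betX
  exact Fintype.prod_equiv (Equiv.subRight y) _ _ (fun x => rfl)

end torus

section ipr

variable {S : Type} [Fintype S]

lemma ipr_smul_right (φ ψ : S → ℂ) (z : ℂ) : ipr φ (z • ψ) = z * ipr φ ψ := by
  unfold ipr
  rw [Finset.mul_sum]
  refine Finset.sum_congr rfl fun s _ => ?_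
  rw [Pi.smul_apply, smul_eq_mul]; ring

lemma ipr_smul_left (φ ψ : S → ℂ) (z : ℂ) : ipr (z • φ) ψ = conj z * ipr φ ψ := by
  unfold ipr
  rw [Finset.mul_sum]
  refine Finset.sum_congr rfl fun s _ => ?_
  rw [Pi.smul_apply, smul_eq_mul, map_mul]; ring

lemma ipr_self_ne (φ : S → ℂ) (h : φ ≠ 0) : ipr φ φ ≠ 0 := by
  have h1 : ipr φ φ = ((∑ s, ‖φ s‖ ^ 2 : ℝ) : ℂ) := by
    unfold ipr
    push_cast
    refine Finset.sum_congr rfl fun s _ => ?_
    rw [mul_comm, Complex.mul_conj, Complex.normSq_eq_norm_sq]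
    push_cast; rfl
  rw [h1]
  intro h2
  have h3 : (∑ s, ‖φ s‖ ^ 2 : ℝ) = 0 := by exact_mod_cast h2
  rw [Finset.sum_eq_zero_iff_of_nonneg (fun s _ => by positivity)] at h3
  apply h
  funext s
  have := h3 s (Finset.mem_univ s)
  simpa using this

lemma ipr_unitary (M : Matrix S S ℂ) [DecidableEq S] (hM : M.conjTranspose * M = 1) (φ ψ : S → ℂ) :
    ipr (M.mulVec φ) (M.mulVec ψ) = ipr φ ψ := by
  have h1 : ∀ a b : S → ℂ, ipr a b = dotProduct (star a) b := fun a b => rfl
  rw [h1, h1, Matrix.star_mulVec, ← Matrix.dotProduct_mulVec, Matrix.mulVec_mulVec, hM,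
    Matrix.one_mulVec]

end ipr

end EVNaux

open EVNaux

/-- EVN, first part. -/
theorem evn_one (hU : S_UNQ) (hL : S_LOC) (hA : S_LAT)
    (A : Type) [AddCommGroup A] [Fintype A] (d : ℕ) (e : Fin d ≃ A) (ι : Type) [Fintype ι]
    (w : ι → VV A) (lam : ι → ℂ) (ψ : ∀ L : ℕ, (Site L → Fin d) → ℂ) (L₀ : ℕ)
    (hc : ∀ (i j : ι) (v : ℤ × ℤ), bet (w i) (tr v (w j)) = bet (tr v (w j)) (w i))
    (hψ : ∀ (L : ℕ) [NeZero L], L₀ ≤ L → ψ L ≠ 0 ∧
      (∀ (i : ι) (y : Site L), (weyl e (fun x => pj L (w i) (x - y))).mulVec (ψ L) = lam i • ψ L) ∧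
      (∀ φ : (Site L → Fin d) → ℂ, (∀ (i : ι) (y : Site L),
        (weyl e (fun x => pj L (w i) (x - y))).mulVec φ = lam i • φ) → ∃ c : ℂ, φ = c • ψ L)) :
    PP w ≤ SS w := by
  classical
  obtain ⟨hL1, hL2, -, hL4⟩ := hL A
  refine hA (Lb A) (SS w) (PP w) (fun v u hu => SS_tr w v u hu) (fun v u hu => PP_tr w v u hu) ?_
  intro u hu
  have h1 : ∀ i : ι, ∃ L₁ : ℕ, ∀ (L : ℕ) [NeZero L], L₁ ≤ L → ∀ y : Site L,
        betX (pj L u) (fun x => pj L (w i) (x - y)) = betX (fun x => pj L (w i) (x - y)) (pj L u) :=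
    fun i => hL4 u (w i) (fun v => hu i v)
  have h2 : ∀ i j : ι, ∃ L₁ : ℕ, ∀ (L : ℕ) [NeZero L], L₁ ≤ L → ∀ y : Site L,
        betX (pj L (w i)) (fun x => pj L (w j) (x - y)) =
          betX (fun x => pj L (w j) (x - y)) (pj L (w i)) :=
    fun i j => hL4 (w i) (w j) (fun v => hc i j v)
  choose N1 hN1 using h1
  choose N2 hN2 using h2
  obtain ⟨M1, hM1⟩ := Finite.exists_le N1
  obtain ⟨M2, hM2⟩ := Finite.exists_le (fun ij : ι × ι => N2 ij.1 ij.2)
  refine ⟨max (max M1 M2) (max L₀ 1), fun L hLL => ?_⟩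
  have hM1L : M1 ≤ L := le_trans (le_trans (le_max_left _ _) (le_max_left _ _)) hLL
  have hM2L : M2 ≤ L := le_trans (le_trans (le_max_right _ _) (le_max_left _ _)) hLL
  have hL0L : L₀ ≤ L := le_trans (le_trans (le_max_left _ _) (le_max_right _ _)) hLL
  have hL1L : 1 ≤ L := le_trans (le_trans (le_max_right _ _) (le_max_right _ _)) hLL
  have : NeZero L := ⟨by omega⟩
  obtain ⟨hψ0, hψ1, hψ2⟩ := hψ L hL0L
  set T : Set (Site L → Lb A) := {g | ∃ (i : ι) (y : Site L), g = fun x => pj L (w i) (x - y)}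
    with hT
  set lam' : (Site L → Lb A) → ℂ := fun g =>
    if h : ∃ c : ℂ, (weyl e g).mulVec (ψ L) = c • ψ L then h.choose else 0 with hlam'
  have hlam : ∀ (i : ι) (y : Site L), lam' (fun x => pj L (w i) (x - y)) = lam i := by
    intro i y
    have hex : ∃ c : ℂ, (weyl e (fun x => pj L (w i) (x - y))).mulVec (ψ L) = c • ψ L :=
      ⟨lam i, hψ1 i y⟩
    have h3 : lam' (fun x => pj L (w i) (x - y)) = hex.choose := by
      rw [hlam']; exact dif_pos hex
    rw [h3]
    have h4 := hex.choose_spec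
    exact smul_left_injective ℂ hψ0 (h4.symm.trans (hψ1 i y))
  have hcl : pj L u ∈ AddSubgroup.closure T := by
    refine hU A (Site L) d e T (ψ L) lam' ?_ hψ0 ?_ ?_ (pj L u) ?_
    · rintro g ⟨i, y, rfl⟩ g' ⟨j, y', rfl⟩
      have h5 := betX_shift L (pj L (w i)) (fun x => pj L (w j) (x - (y' - y))) y
      have h6 := betX_shift L (fun x => pj L (w j) (x - (y' - y))) (pj L (w i)) y
      have h7 : (fun x : Site L => (fun x => pj L (w j) (x - (y' - y))) (x - y)) =
          fun x => pj L (w j) (x - y') := by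
        funext x; simp only; congr 1; ring
      rw [h7] at h5 h6
      rw [h5, h6]
      exact hN2 i j L ((hM2 (i, j)).trans hM2L) (y' - y)
    · rintro g ⟨i, y, rfl⟩
      rw [hlam]; exact hψ1 i y
    · intro φ hφ
      refine hψ2 φ fun i y => ?_
      have := hφ _ ⟨i, y, rfl⟩
      rwa [hlam] at this
    · rintro g ⟨i, y, rfl⟩
      exact hN1 i L ((hM1 i).trans hM1L) y
  have key : ∀ h ∈ AddSubgroup.closure T, ∃ g ∈ SS w, h = pj L g := by
    intro h hh
    induction hh using AddSubgroup.closure_induction with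
    | mem x hx =>
      obtain ⟨i, y, rfl⟩ := hx
      obtain ⟨v, rfl⟩ := toT_surj L y
      exact ⟨tr v (w i), AddSubgroup.subset_closure ⟨i, v, rfl⟩, (hL2 L v (w i)).symm⟩
    | zero =>
      exact ⟨0, zero_mem _, (pj_zero L).symm⟩
    | add x y _ _ hx hy =>
      obtain ⟨g, hg, rfl⟩ := hx
      obtain ⟨g', hg', rfl⟩ := hy
      exact ⟨g + g', add_mem hg hg', (hL1 L g g').symm⟩
    | neg x _ hx =>
      obtain ⟨g, hg, rfl⟩ := hx
      refine ⟨-g, neg_mem hg, ?_⟩
      have h8 := hL1 L g (-g)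
      have h9 : g + -g = 0 := add_neg_cancel g
      rw [h9, pj_zero] at h8
      exact neg_eq_of_add_eq_zero_right h8.symm
  obtain ⟨g, hg, hgu⟩ := key _ hcl
  exact ⟨g, hg, DFunLike.coe_injective hgu⟩

/-- EVN -/
theorem t_EVN (hW : S_WEY) (hU : S_UNQ) (hL : S_LOC) (hA : S_LAT) : S_EVN := by
  classical
  intro A _ _ d e ι _ w lam ψ L₀ hc hψ
  have hone : PP w ≤ SS w := evn_one hU hL hA A d e ι w lam ψ L₀ hc hψ
  refine ⟨fun u hu => hone hu, ?_⟩
  obtain ⟨hL1, hL2, hL3, hL4⟩ := hL A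
  intro u
  by_cases hu : u ∈ PP w
  · have huS := hone hu
    have key : ∀ g ∈ SS w, ∃ (z : ℂ) (L₁ : ℕ), ∀ (L : ℕ) [NeZero L], L₁ ≤ L →
        (weyl e (pj L g)).mulVec (ψ L) = z • ψ L := by
      intro g hg
      unfold SS at hg
      induction hg using AddSubgroup.closure_induction with
      | mem x hx =>
        obtain ⟨i, v, rfl⟩ := hx
        refine ⟨lam i, L₀, fun L _ hLL => ?_⟩
        rw [hL2 L v (w i)]
        exact (hψ L hLL).2.1 i (toT L v)
      | zero =>
        refine ⟨1, 0, fun L _ _ => ?_⟩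
        rw [pj_zero, (hW A (Site L) d e).2.1, Matrix.one_mulVec, one_smul]
      | add x y _ _ hx hy =>
        obtain ⟨z, N, hz⟩ := hx
        obtain ⟨z', N', hz'⟩ := hy
        obtain ⟨N3, h3⟩ := hL3 x y
        refine ⟨(bet x y)⁻¹ * (z' * z), max (max N N') N3, fun L _ hLL => ?_⟩
        have hm := (hW A (Site L) d e).1 (pj L x) (pj L y)
        rw [(h3 L ((le_max_right _ _).trans hLL)).1, ← hL1] at hm
        have h4 := congrArg (fun M => M.mulVec (ψ L)) hm
        rw [← Matrix.mulVec_mulVec, hz' L ((le_trans (le_max_right _ _) (le_max_left _ _)).trans hLL),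
          Matrix.mulVec_smul, hz L ((le_trans (le_max_left _ _) (le_max_left _ _)).trans hLL),
          Matrix.smul_mulVec] at h4
        rw [mul_smul, mul_smul, h4, smul_smul, inv_mul_cancel₀ (bet_ne_zero x y), one_smul]
      | neg x _ hx =>
        obtain ⟨z, N, hz⟩ := hx
        obtain ⟨N3, h3⟩ := hL3 (-x) x
        refine ⟨z⁻¹ * bet (-x) x, max (max N L₀) N3, fun L _ hLL => ?_⟩
        have hm := (hW A (Site L) d e).1 (pj L (-x)) (pj L x)
        have h9 : -x + x = 0 := neg_add_cancel x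
        rw [(h3 L ((le_max_right _ _).trans hLL)).1, ← hL1, h9, pj_zero,
          (hW A (Site L) d e).2.1] at hm
        have h4 := congrArg (fun M => M.mulVec (ψ L)) hm
        rw [← Matrix.mulVec_mulVec, hz L ((le_trans (le_max_left _ _) (le_max_left _ _)).trans hLL),
          Matrix.mulVec_smul, Matrix.smul_mulVec, Matrix.one_mulVec] at h4
        have hψ0 := (hψ L ((le_trans (le_max_right _ _) (le_max_left _ _)).trans hLL)).1
        have hz0 : z ≠ 0 := by
          rintro rfl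
          rw [zero_smul] at h4
          exact (smul_ne_zero (bet_ne_zero _ _) hψ0) h4.symm
        rw [mul_smul, ← h4, smul_smul, inv_mul_cancel₀ hz0, one_smul]
    obtain ⟨z, N, hz⟩ := key u huS
    refine ⟨z, N, fun L _ hLL => ?_⟩
    rw [hz L hLL, ipr_smul_right]
  · rw [mem_PP] at hu
    push Not at hu
    obtain ⟨i, v, hiv⟩ := hu
    obtain ⟨N3, h3⟩ := hL3 u (tr v (w i))
    refine ⟨0, max L₀ N3, fun L _ hLL => ?_⟩
    rw [zero_mul]
    obtain ⟨hψ0, hψ1, -⟩ := hψ L ((le_max_left _ _).trans hLL)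
    obtain ⟨hW1, -, -, hW4, -⟩ := hW A (Site L) d e
    have e1 := hψ1 i (toT L v)
    rw [← hL2 L v (w i)] at e1
    have hm1 := hW1 (pj L u) (pj L (tr v (w i)))
    have hm2 := hW1 (pj L (tr v (w i))) (pj L u)
    rw [(h3 L ((le_max_right _ _).trans hLL)).1] at hm1
    rw [(h3 L ((le_max_right _ _).trans hLL)).2, add_comm] at hm2
    have hun := hW4 (pj L (tr v (w i)))
    -- the commutation relation
    have hcomm : bet (tr v (w i)) u • (weyl e (pj L u)).mulVec
          ((weyl e (pj L (tr v (w i)))).mulVec (ψ L)) =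
        bet u (tr v (w i)) • (weyl e (pj L (tr v (w i)))).mulVec
          ((weyl e (pj L u)).mulVec (ψ L)) := by
      rw [Matrix.mulVec_mulVec, Matrix.mulVec_mulVec, hm1, hm2, Matrix.smul_mulVec,
        Matrix.smul_mulVec, smul_smul, smul_smul, mul_comm]
    rw [e1, Matrix.mulVec_smul] at hcomm
    have h5 := congrArg (fun φ => ipr ((weyl e (pj L (tr v (w i)))).mulVec (ψ L)) φ) hcomm
    rw [ipr_smul_right, ipr_smul_right, ipr_smul_right, ipr_unitary _ hun, e1, ipr_smul_left] at h5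
    have h6 := ipr_unitary _ hun (ψ L) (ψ L)
    rw [e1, ipr_smul_left, ipr_smul_right, ← mul_assoc] at h6
    have h7 : conj (lam i) * lam i = 1 := by
      have := ipr_self_ne (ψ L) hψ0
      exact mul_right_cancel₀ this (h6.trans (one_mul _).symm)
    have h8 : (bet (tr v (w i)) u - bet u (tr v (w i))) *
        ipr (ψ L) ((weyl e (pj L u)).mulVec (ψ L)) = 0 := by
      linear_combination h5 - bet (tr v (w i)) u *
        ipr (ψ L) ((weyl e (pj L u)).mulVec (ψ L)) * h7
    rcases mul_eq_zero.mp h8 with h | h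
    · exact absurd (sub_eq_zero.mp h).symm hiv
    · exact h

end SH947
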