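import Pool.Agent.R947.SH.Stm3
import Pool.Agent.R947.SH.EVN

/-! # Piece EVA of project SH (MP_0f69bf_mp): labels commuting with the generators -/

set_option autoImplicit false

open scoped BigOperators ComplexConjugate
open Finset Pool.Agent.TH235.PP

namespace SH947

open EVNaux

/-- EVA, the torus part. -/
theorem eva_torus (hU : S_UNQ) (hL : S_LOC)
    (A : Type) [AddCommGroup A] [Fintype A] (d : ℕ) (e : Fin d ≃ A) (ι : Type) [Fintype ι]
    (w : ι → VV A) (lam : ℕ → ι → ℂ) (ψ : ∀ L : ℕ, (Site L → Fin d) → ℂ) (L₀ : ℕ)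
    (hH : Hyp e w lam ψ L₀) :
    ∃ L₁ : ℕ, ∀ (L : ℕ) [NeZero L], L₁ ≤ L → ∀ u : Site L → Lb A,
      (∀ (i : ι) (y : Site L), betX u (fun x => pj L (w i) (x - y)) =
        betX (fun x => pj L (w i) (x - y)) u) → ∃ g ∈ SS w, u = pj L g := by
  classical
  obtain ⟨hc, hψ⟩ := hH
  obtain ⟨hL1, hL2, -, hL4⟩ := hL A
  have h2 : ∀ i j : ι, ∃ L₁ : ℕ, ∀ (L : ℕ) [NeZero L], L₁ ≤ L → ∀ y : Site L,
        betX (pj L (w i)) (fun x => pj L (w j) (x - y)) =
          betX (fun x => pj L (w j) (x - y)) (pj L (w i)) :=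
    fun i j => hL4 (w i) (w j) (fun v => hc i j v)
  choose N2 hN2 using h2
  obtain ⟨M2, hM2⟩ := Finite.exists_le (fun ij : ι × ι => N2 ij.1 ij.2)
  refine ⟨max M2 L₀, fun L _ hLL u hu => ?_⟩
  have hM2L : M2 ≤ L := le_trans (le_max_left _ _) hLL
  have hL0L : L₀ ≤ L := le_trans (le_max_right _ _) hLL
  obtain ⟨hψ0, hψ1, hψ2⟩ := hψ L hL0L
  set T : Set (Site L → Lb A) := {g | ∃ (i : ι) (y : Site L), g = fun x => pj L (w i) (x - y)}
    with hT
  set lam' : (Site L → Lb A) → ℂ := fun g =>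
    if h : ∃ c : ℂ, (weyl e g).mulVec (ψ L) = c • ψ L then h.choose else 0 with hlam'
  have hlam : ∀ (i : ι) (y : Site L), lam' (fun x => pj L (w i) (x - y)) = lam L i := by
    intro i y
    have hex : ∃ c : ℂ, (weyl e (fun x => pj L (w i) (x - y))).mulVec (ψ L) = c • ψ L :=
      ⟨lam L i, hψ1 i y⟩
    have h3 : lam' (fun x => pj L (w i) (x - y)) = hex.choose := by
      rw [hlam']; exact dif_pos hex
    rw [h3]
    have h4 := hex.choose_spec
    exact smul_left_injective ℂ hψ0 (h4.symm.trans (hψ1 i y))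
  have hcl : u ∈ AddSubgroup.closure T := by
    refine hU A (Site L) d e T (ψ L) lam' ?_ hψ0 ?_ ?_ u ?_
    · rintro g ⟨i, y, rfl⟩ g' ⟨j, y', rfl⟩
      have h5 := betX_shift L (pj L (w i)) (fun x => pj L (w j) (x - (y' - y))) y
      have h6 := betX_shift L (fun x => pj L (w j) (x - (y' - y))) (pj L (w i)) y
      have h7 : (fun x : Site L => (fun x => pj L (w j) (x - (y' - y))) (x - y)) =
          fun x => pj L (w j) (x - y') := by
        funext x; simp only; congr 1; ring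
      rw [h7] at h5 h6
      rw [h5, h6]
      exact hN2 i j L ((hM2 (i, j)).trans hM2L) (y' - y)
    · rintro g ⟨i, y, rfl⟩
      rw [hlam]; exact hψ1 i y
    · intro φ hφ
      refine hψ2 φ fun i y => ?_
      have := hφ _ ⟨i, y, rfl⟩
      rwa [hlam] at this
    · rintro g ⟨i, y, rfl⟩
      exact hu i y
  have key : ∀ h ∈ AddSubgroup.closure T, ∃ g ∈ SS w, h = pj L g := by
    intro h hh
    induction hh using AddSubgroup.closure_induction with
    | mem x hx =>
      obtain ⟨i, y, rfl⟩ := hx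
      obtain ⟨v, rfl⟩ := toT_surj L y
      exact ⟨tr v (w i), AddSubgroup.subset_closure ⟨i, v, rfl⟩, (hL2 L v (w i)).symm⟩
    | zero =>
      exact ⟨0, zero_mem _, (pj_zero L).symm⟩
    | add x y _ _ hx hy =>
      obtain ⟨g, hg, rfl⟩ := hx
      obtain ⟨g', hg', rfl⟩ := hy
      exact ⟨g + g', add_mem hg hg', (hL1 L g g').symm⟩
    | neg x _ hx =>
      obtain ⟨g, hg, rfl⟩ := hx
      refine ⟨-g, neg_mem hg, ?_⟩
      have h8 := hL1 L g (-g)
      have h9 : g + -g = 0 := add_neg_cancel g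
      rw [h9, pj_zero] at h8
      exact neg_eq_of_add_eq_zero_right h8.symm
  exact key u hcl

/-- EVA -/
theorem t_EVA (hU : S_UNQ) (hL : S_LOC) (hA : S_LAT) : S_EVA := by
  classical
  intro A _ _ d e ι _ w lam ψ L₀ hH
  obtain ⟨M, hM⟩ := eva_torus hU hL A d e ι w lam ψ L₀ hH
  refine ⟨fun u hu => ?_, M, fun L _ hLL u hu => hM L hLL u hu⟩
  obtain ⟨-, -, -, hL4⟩ := hL A
  have hle : PP w ≤ SS w := by
    refine hA (Lb A) (SS w) (PP w) (fun v u hu => SS_tr w v u hu) (fun v u hu => PP_tr w v u hu) ?_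
    intro u hu
    have h1 : ∀ i : ι, ∃ L₁ : ℕ, ∀ (L : ℕ) [NeZero L], L₁ ≤ L → ∀ y : Site L,
          betX (pj L u) (fun x => pj L (w i) (x - y)) =
            betX (fun x => pj L (w i) (x - y)) (pj L u) :=
      fun i => hL4 u (w i) (fun v => hu i v)
    choose N1 hN1 using h1
    obtain ⟨M1, hM1⟩ := Finite.exists_le N1
    refine ⟨max M1 (max M 1), fun L hLL => ?_⟩
    have hM1L : M1 ≤ L := le_trans (le_max_left _ _) hLL
    have hML : M ≤ L := le_trans (le_trans (le_max_left _ _) (le_max_right _ _)) hLL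
    have hL1L : 1 ≤ L := le_trans (le_trans (le_max_right _ _) (le_max_right _ _)) hLL
    have : NeZero L := ⟨by omega⟩
    obtain ⟨g, hg, hgu⟩ := hM L hML (pj L u) (fun i y => hN1 i L ((hM1 i).trans hM1L) y)
    exact ⟨g, hg, DFunLike.coe_injective hgu⟩
  exact hle hu

end SH947
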