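import Pool.Agent.R947.SH.Stm3

/-! # EXA: exactness on the torus (helper452) -/

set_option autoImplicit false

open scoped BigOperators ComplexConjugate
open Finset Pool.Agent.TH235.PP

namespace SH947

namespace EXAPf

/-- the group ring -/
abbrev RZ : Type := AddMonoidAlgebra ℤ (ℤ × ℤ)

section Mod

variable (K : Type) [AddCommGroup K]

/-- shifts -/
noncomputable def shf : Multiplicative (ℤ × ℤ) →* Module.End ℤ ((ℤ × ℤ) →₀ K) where
  toFun v := Finsupp.lmapDomain K ℤ (fun p => p + v.toAdd)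
  map_one' := by
    apply LinearMap.ext
    intro u
    rw [Finsupp.lmapDomain_apply]
    have : (fun p : ℤ × ℤ => p + (1 : Multiplicative (ℤ × ℤ)).toAdd) = id := by
      funext p; simp
    rw [this, Finsupp.mapDomain_id]
    rfl
  map_mul' v w := by
    apply LinearMap.ext
    intro u
    show Finsupp.mapDomain _ u = Finsupp.mapDomain _ (Finsupp.mapDomain _ u)
    rw [← Finsupp.mapDomain_comp]
    congr 1
    funext p
    simp only [toAdd_mul, Function.comp_apply]
    rw [add_assoc, add_comm w.toAdd]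

/-- the action -/
noncomputable def Ph : RZ →ₐ[ℤ] Module.End ℤ ((ℤ × ℤ) →₀ K) :=
  AddMonoidAlgebra.lift ℤ _ (ℤ × ℤ) (shf K)

/-- the module structure -/
@[reducible] noncomputable def modV : Module RZ ((ℤ × ℤ) →₀ K) :=
  Module.compHom _ (Ph K).toRingHom

attribute [local instance] modV

theorem smul_def' (r : RZ) (u : (ℤ × ℤ) →₀ K) : r • u = Ph K r u := rfl

theorem single_smul (v : ℤ × ℤ) (c : ℤ) (u : (ℤ × ℤ) →₀ K) :
    (AddMonoidAlgebra.single v c : RZ) • u = c • u.mapDomain (fun p => p + v) := by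
  rw [smul_def']
  unfold Ph
  rw [AddMonoidAlgebra.lift_single]
  rfl

/-- the shift by `v` minus one -/
noncomputable def sm (v : ℤ × ℤ) : RZ := AddMonoidAlgebra.single v 1 - 1

theorem sm_smul (v : ℤ × ℤ) (u : (ℤ × ℤ) →₀ K) :
    sm v • u = u.mapDomain (fun p => p + v) - u := by
  unfold sm
  rw [sub_smul, one_smul, single_smul, one_smul]

theorem fin [Finite K] : Module.Finite RZ ((ℤ × ℤ) →₀ K) := by
  classical
  have := Fintype.ofFinite K
  refine ⟨⟨(univ : Finset K).image (fun κ => Finsupp.single (0 : ℤ × ℤ) κ), ?_⟩⟩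
  rw [eq_top_iff]
  intro u _
  induction u using Finsupp.induction_linear with
  | zero => exact Submodule.zero_mem _
  | add f g hf hg => exact Submodule.add_mem _ (hf trivial) (hg trivial)
  | single p κ =>
    have h1 : Finsupp.single p κ = (AddMonoidAlgebra.single p 1 : RZ) •
        (Finsupp.single (0 : ℤ × ℤ) κ : (ℤ × ℤ) →₀ K) := by
      rw [single_smul, Finsupp.mapDomain_single, zero_add, one_smul]
    rw [h1]
    apply Submodule.smul_mem
    apply Submodule.subset_span
    rw [Finset.coe_image]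
    exact ⟨κ, by simp, rfl⟩

/-- the image of the two shifts minus one -/
noncomputable def WW (L : ℕ) : AddSubgroup ((ℤ × ℤ) →₀ K) where
  carrier := {w | ∃ a b : (ℤ × ℤ) →₀ K, w = sm ((L : ℤ), 0) • a + sm (0, (L : ℤ)) • b}
  zero_mem' := ⟨0, 0, by rw [smul_zero, smul_zero, add_zero]⟩
  add_mem' := by
    rintro _ _ ⟨a, b, rfl⟩ ⟨a', b', rfl⟩
    exact ⟨a + a', b + b', by rw [smul_add, smul_add]; abel⟩
  neg_mem' := by
    rintro _ ⟨a, b, rfl⟩
    exact ⟨-a, -b, by rw [smul_neg, smul_neg]; abel⟩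

/-- periods -/
noncomputable def DD (L : ℕ) : AddSubgroup (ℤ × ℤ) where
  carrier := {v | ∀ (q : ℤ × ℤ) (κ : K), (Finsupp.single (q + v) κ - Finsupp.single q κ :
    (ℤ × ℤ) →₀ K) ∈ WW K L}
  zero_mem' := by
    intro q κ
    rw [add_zero, sub_self]
    exact (WW K L).zero_mem
  add_mem' := by
    intro v w hv hw q κ
    have h1 := (WW K L).add_mem (hw (q + v) κ) (hv q κ)
    rw [sub_add_sub_cancel, add_assoc] at h1
    exact h1
  neg_mem' := by
    intro v hv q κ
    have h1 := (WW K L).neg_mem (hv (q + -v) κ)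
    rw [neg_add_cancel_right, neg_sub] at h1
    exact h1

theorem ker (L : ℕ) [NeZero L] (w : (ℤ × ℤ) →₀ K) (hw : w.mapDomain (toT L) = 0) :
    w ∈ WW K L := by
  classical
  let rep : Site L → ℤ × ℤ := fun t => ((t.1.val : ℤ), (t.2.val : ℤ))
  have hX : (((L : ℤ), 0) : ℤ × ℤ) ∈ DD K L := by
    intro q κ
    refine ⟨Finsupp.single q κ, 0, ?_⟩
    rw [smul_zero, add_zero, sm_smul, Finsupp.mapDomain_single]
  have hY : ((0, (L : ℤ)) : ℤ × ℤ) ∈ DD K L := by
    intro q κ
    refine ⟨0, Finsupp.single q κ, ?_⟩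
    rw [smul_zero, zero_add, sm_smul, Finsupp.mapDomain_single]
  have hrep : ∀ p : ℤ × ℤ, p - rep (toT L p) ∈ DD K L := by
    intro p
    have hd : ∀ z : ℤ, (L : ℤ) ∣ z - (((z : ZMod L).val : ℕ) : ℤ) := by
      intro z
      rw [← ZMod.intCast_eq_intCast_iff_dvd_sub]
      simp
    obtain ⟨i, hi⟩ := hd p.1
    obtain ⟨j, hj⟩ := hd p.2
    have h1 : p - rep (toT L p) = i • (((L : ℤ), 0) : ℤ × ℤ) +
        j • ((0, (L : ℤ)) : ℤ × ℤ) := by
      apply Prod.ext
      · show p.1 - (((p.1 : ZMod L).val : ℕ) : ℤ) = _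
        rw [hi]
        simp
        ring
      · show p.2 - (((p.2 : ZMod L).val : ℕ) : ℤ) = _
        rw [hj]
        simp
        ring
    rw [h1]
    exact add_mem (zsmul_mem hX i) (zsmul_mem hY j)
  have hall : ∀ u : (ℤ × ℤ) →₀ K, u - (u.mapDomain (toT L)).mapDomain rep ∈ WW K L := by
    intro u
    induction u using Finsupp.induction_linear with
    | zero => simp
    | add f g hf hg =>
      have h1 := (WW K L).add_mem hf hg
      rw [Finsupp.mapDomain_add, Finsupp.mapDomain_add]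
      convert h1 using 1
      abel
    | single p κ =>
      rw [Finsupp.mapDomain_single, Finsupp.mapDomain_single]
      have h1 := hrep p (rep (toT L p)) κ
      rw [add_sub_cancel] at h1
      exact h1
  have h1 := hall w
  rw [hw, Finsupp.mapDomain_zero, sub_zero] at h1
  exact h1

theorem toT_sm (L : ℕ) (v : ℤ × ℤ) (hv : toT L v = 0) (u : (ℤ × ℤ) →₀ K) :
    (sm v • u).mapDomain (toT L) = 0 := by
  have h1 : (toT L) ∘ (fun p : ℤ × ℤ => p + v) = toT L := by
    funext p
    have h2 : toT L (p + v) = toT L p + toT L v := by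
      unfold toT
      simp
    rw [Function.comp_apply, h2, hv, add_zero]
  rw [sm_smul]
  have h3 : (u.mapDomain (fun p => p + v) - u).mapDomain (toT L) =
      (u.mapDomain (fun p => p + v)).mapDomain (toT L) - u.mapDomain (toT L) :=
    map_sub (Finsupp.mapDomain.addMonoidHom (toT L)) _ _
  rw [h3, ← Finsupp.mapDomain_comp, h1, sub_self]

end Mod

end EXAPf

open EXAPf in
attribute [local instance] modV in
theorem t_EXA (hK : S_KOS) (hR : S_REG) : S_EXA := by
  intro K M _ _ _ _ T _ F hF L hL hex u hu0 huT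
  have : NeZero L := ⟨hL.ne'⟩
  have := EXAPf.fin K
  have := EXAPf.fin M
  have : AddMonoid.FG (ℤ × ℤ) := by
    rw [← AddGroup.fg_iff_addMonoid_fg, ← Module.Finite.iff_addGroup_fg]
    infer_instance
  have : IsNoetherianRing RZ := Algebra.FiniteType.isNoetherianRing ℤ RZ
  have hlin : ∀ (t : T) (r : RZ) (w : (ℤ × ℤ) →₀ K), F t (r • w) = r • F t w := by
    intro t r w
    induction r using AddMonoidAlgebra.induction_linear with
    | zero => rw [zero_smul, zero_smul, map_zero]
    | add f g hf hg => rw [add_smul, add_smul, map_add, hf, hg]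
    | single v c => rw [single_smul, single_smul, map_zsmul, hF]
  let Fl : ((ℤ × ℤ) →₀ K) →ₗ[RZ] (T → ((ℤ × ℤ) →₀ M)) :=
    { toFun := fun w t => F t w
      map_add' := fun a b => funext fun t => map_add (F t) a b
      map_smul' := fun r a => funext fun t => hlin t r a }
  have hFl : ∀ w t, Fl w t = F t w := fun w t => rfl
  have hz1 : toT L ((L : ℤ), 0) = 0 := by
    unfold toT
    simp
  have hz2 : toT L (0, (L : ℤ)) = 0 := by
    unfold toT
    simp
  have key := hK RZ (T → ((ℤ × ℤ) →₀ M)) (sm ((L : ℤ), 0)) (sm (0, (L : ℤ))) (LinearMap.range Fl)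
    (by
      intro α β hαβ
      have h1 : ∀ t, ∃ γ : (ℤ × ℤ) →₀ M, α t = sm (0, (L : ℤ)) • γ ∧
          β t = -(sm ((L : ℤ), 0) • γ) := by
        intro t
        have h2 := congrFun hαβ t
        rw [Pi.add_apply, Pi.smul_apply, Pi.smul_apply, sm_smul, sm_smul] at h2
        obtain ⟨γ, h3, h4⟩ := hR M L hL (α t) (β t) h2
        exact ⟨γ, by rw [sm_smul]; exact h3, by rw [sm_smul]; exact h4⟩
      choose γ h3 h4 using h1
      exact ⟨γ, funext h3, funext h4⟩)
    (by
      rintro _ ⟨v, rfl⟩ ⟨α, β, hαβ⟩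
      have h1 : ∀ t, (F t v).mapDomain (toT L) = 0 := by
        intro t
        have h2 := congrFun hαβ t
        rw [hFl, Pi.add_apply, Pi.smul_apply, Pi.smul_apply] at h2
        rw [h2, Finsupp.mapDomain_add, toT_sm M L _ hz1, toT_sm M L _ hz2, add_zero]
      obtain ⟨s, hs0, hs1⟩ := hex v h1
      have h3 : (v - s).mapDomain (toT L) = 0 := by
        have h4 : (v - s).mapDomain (toT L) = v.mapDomain (toT L) - s.mapDomain (toT L) :=
          map_sub (Finsupp.mapDomain.addMonoidHom (toT L)) _ _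
        rw [h4, hs1, sub_self]
      obtain ⟨a, b, hab⟩ := ker K L (v - s) h3
      refine ⟨Fl a, ⟨a, rfl⟩, Fl b, ⟨b, rfl⟩, ?_⟩
      have h5 : Fl s = 0 := funext fun t => hs0 t
      have h6 : Fl v = Fl (v - s) := by rw [map_sub, h5, sub_zero]
      rw [h6, hab, map_add, map_smul, map_smul])
  obtain ⟨a, b, hab⟩ := ker K L u huT
  have hFu : Fl u = 0 := funext fun t => hu0 t
  rw [hab, map_add, map_smul, map_smul] at hFu
  obtain ⟨_, ⟨c, rfl⟩, h7, h8⟩ := key (Fl a) ⟨a, rfl⟩ (Fl b) ⟨b, rfl⟩ hFu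
  have h9 : Fl (a - sm (0, (L : ℤ)) • c) = 0 := by rw [map_sub, map_smul, h7, sub_self]
  have h10 : Fl (b + sm ((L : ℤ), 0) • c) = 0 := by rw [map_add, map_smul, h8, neg_add_cancel]
  refine ⟨a - sm (0, (L : ℤ)) • c, b + sm ((L : ℤ), 0) • c, fun t => congrFun h9 t,
    fun t => congrFun h10 t, ?_⟩
  rw [← sm_smul, ← sm_smul, hab, smul_sub, smul_add, smul_smul, smul_smul,
    mul_comm (sm (0, (L : ℤ))) (sm ((L : ℤ), 0))]
  abel

end SH947
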