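import Pool.Agent.R947.SH.Stm3

/-! # Project SH: rigidity of Koszul homology for two elements (KOS) -/

set_option autoImplicit false

namespace SH947

theorem t_KOS : S_KOS := by
  intro R D _ _ _ _ _ f g N h1 h2 a ha b hb hab
  have L : ∀ α β : D, f • α + g • β ∈ N → ∃ δ : D, α - g • δ ∈ N ∧ β + f • δ ∈ N := by
    intro α β h
    obtain ⟨a', ha', b', hb', h3⟩ := h2 _ h ⟨α, β, rfl⟩
    obtain ⟨δ, hδ1, hδ2⟩ := h1 (α - a') (β - b') (by
      rw [smul_sub, smul_sub]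
      have : f • α - f • a' + (g • β - g • b') = (f • α + g • β) - (f • a' + g • b') := by abel
      rw [this, h3, sub_self])
    refine ⟨δ, ?_, ?_⟩
    · rw [← hδ1]
      simpa using ha'
    · have : f • δ = -(β - b') := by rw [hδ2, neg_neg]
      rw [this]
      simpa using hb'
  obtain ⟨γ, hγ1, hγ2⟩ := h1 a b hab
  have hfγ : f • γ ∈ N := by
    have : f • γ = -b := by rw [hγ2, neg_neg]
    rw [this]
    exact N.neg_mem hb
  have hgγ : g • γ ∈ N := by rw [← hγ1]; exact ha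
  have step : ∀ k : ℕ, ∃ δ : D, γ - g ^ k • δ ∈ N ∧ f • δ ∈ N := by
    intro k
    induction k with
    | zero => exact ⟨γ, by simp, hfγ⟩
    | succ k ih =>
      obtain ⟨δ, hδ1, hδ2⟩ := ih
      obtain ⟨δ', hδ3, hδ4⟩ := L δ 0 (by simpa using hδ2)
      refine ⟨δ', ?_, by simpa using hδ4⟩
      have : γ - g ^ (k + 1) • δ' = (γ - g ^ k • δ) + g ^ k • (δ - g • δ') := by
        rw [pow_succ, mul_smul, smul_sub]
        abel
      rw [this]
      exact N.add_mem hδ1 (N.smul_mem _ hδ3)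
  refine ⟨γ, ?_, hγ1, hγ2⟩
  have hmem : (N.mkQ γ) ∈ (⨅ i : ℕ, (Ideal.span {g}) ^ i • ⊤ : Submodule R (D ⧸ N)) := by
    rw [Submodule.mem_iInf]
    intro k
    obtain ⟨δ, hδ, -⟩ := step k
    have h3 : N.mkQ γ = g ^ k • N.mkQ δ := by
      rw [← map_smul, ← sub_eq_zero, ← map_sub]
      exact (Submodule.Quotient.mk_eq_zero N).2 hδ
    rw [h3]
    exact Submodule.smul_mem_smul (Ideal.pow_mem_pow (Ideal.mem_span_singleton_self g) k)
      Submodule.mem_top
  rw [Ideal.mem_iInf_smul_pow_eq_bot_iff] at hmem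
  obtain ⟨⟨r, hr⟩, hr2⟩ := hmem
  obtain ⟨s, rfl⟩ := Ideal.mem_span_singleton.1 hr
  have h4 : N.mkQ γ = 0 := by
    rw [← hr2]
    show (g * s) • N.mkQ γ = 0
    rw [mul_comm, mul_smul, ← map_smul]
    have : N.mkQ (g • γ) = 0 := (Submodule.Quotient.mk_eq_zero N).2 hgγ
    rw [this, smul_zero]
  simpa using h4

end SH947
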