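import Pool.Agent.R947.SH.Stm3

set_option autoImplicit false

open scoped BigOperators ComplexConjugate
open Finset Pool.Agent.TH235.PP

namespace SH947

namespace LFTaux

section
variable (A : Type) [AddCommGroup A] [Fintype A]

instance neZ : NeZero (Fintype.card A) := ⟨Fintype.card_ne_zero⟩

/-- the values -/
abbrev Mu : Type := Additive (rootsOfUnity (Fintype.card A) ℂ)

end

variable {A : Type} [AddCommGroup A] [Fintype A]

theorem pow_card (χ : AddChar A ℂ) (a : A) : χ a ^ Fintype.card A = 1 := by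
  rw [← AddChar.map_nsmul_eq_pow, card_nsmul_eq_zero, AddChar.map_zero_eq_one]

/-- a value of a character as a root of unity -/
noncomputable def r (χ : AddChar A ℂ) (a : A) : rootsOfUnity (Fintype.card A) ℂ :=
  rootsOfUnity.mkOfPowEq (χ a) (pow_card χ a)

theorem r_coe (χ : AddChar A ℂ) (a : A) : ((r χ a : ℂˣ) : ℂ) = χ a := rfl

theorem coe_inj {x y : rootsOfUnity (Fintype.card A) ℂ} (h : ((x : ℂˣ) : ℂ) = ((y : ℂˣ) : ℂ)) :
    x = y := Subtype.ext (Units.ext h)

theorem r_add_left (χ χ' : AddChar A ℂ) (a : A) : r (χ + χ') a = r χ a * r χ' a := by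
  apply coe_inj
  rw [r_coe, AddChar.add_apply]
  rfl

theorem r_add_right (χ : AddChar A ℂ) (a a' : A) : r χ (a + a') = r χ a * r χ a' := by
  apply coe_inj
  rw [r_coe, AddChar.map_add_eq_mul]
  rfl

/-- the commutation factor of two labels -/
noncomputable def kp (k k' : Lb A) : Mu A := Additive.ofMul (r k'.2 k.1) - Additive.ofMul (r k.2 k'.1)

theorem kp_add_left (k l k' : Lb A) : kp (k + l) k' = kp k k' + kp l k' := by
  unfold kp
  rw [Prod.fst_add, Prod.snd_add, r_add_right, r_add_left, ofMul_mul, ofMul_mul]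
  abel

theorem kp_add_right (k k' l : Lb A) : kp k (k' + l) = kp k k' + kp k l := by
  unfold kp
  rw [Prod.fst_add, Prod.snd_add, r_add_right, r_add_left, ofMul_mul, ofMul_mul]
  abel

/-- the commutation factor as a bilinear map -/
noncomputable def kk : Lb A →+ Lb A →+ Mu A :=
  AddMonoidHom.mk' (fun k => AddMonoidHom.mk' (kp k) (kp_add_right k))
    (fun k l => AddMonoidHom.ext fun k' => kp_add_left k l k')

theorem kk_apply (k k' : Lb A) :
    kk k k' = Additive.ofMul (r k'.2 k.1) - Additive.ofMul (r k.2 k'.1) := rfl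

theorem sum_kk {X : Type} (s : Finset X) (a b : X → Lb A) :
    (∑ p ∈ s, kk (a p) (b p) = 0) ↔
      ∏ p ∈ s, (b p).2 (a p).1 = ∏ p ∈ s, (a p).2 (b p).1 := by
  have e : ∑ p ∈ s, kk (a p) (b p) = Additive.ofMul (∏ p ∈ s, r (b p).2 (a p).1) -
      Additive.ofMul (∏ p ∈ s, r (a p).2 (b p).1) := by
    rw [ofMul_prod, ofMul_prod, ← Finset.sum_sub_distrib]
    rfl
  rw [e, sub_eq_zero]
  have h1 : ∀ (f : X → rootsOfUnity (Fintype.card A) ℂ),
      (((∏ p ∈ s, f p : rootsOfUnity (Fintype.card A) ℂ) : ℂˣ) : ℂ) = ∏ p ∈ s, (((f p) : ℂˣ) : ℂ) := by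
    intro f
    rw [Subgroup.val_finsetProd, Units.coe_prod]
  constructor
  · intro h
    have h2 := congrArg (fun x : rootsOfUnity (Fintype.card A) ℂ => ((x : ℂˣ) : ℂ))
      (Additive.ofMul.injective h)
    simp only [h1] at h2
    exact h2
  · intro h
    congr 1
    apply coe_inj
    rw [h1, h1]
    exact h

section
variable {G : Type} [AddCommGroup G] [DecidableEq G]

/-- correlation -/
noncomputable def Ct (t : G →₀ Lb A) : (G →₀ Lb A) →+ (G →₀ Mu A) :=
  Finsupp.liftAddHom (fun p => AddMonoidHom.mk'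
    (fun k => t.sum (fun q k' => Finsupp.single (p - q) (kk k k')))
    (fun k l => by
      rw [← Finsupp.sum_add]
      refine Finsupp.sum_congr fun q _ => ?_
      rw [map_add, AddMonoidHom.add_apply, Finsupp.single_add]))

theorem Ct_apply (t u : G →₀ Lb A) :
    Ct t u = u.sum (fun p k => t.sum (fun q k' => Finsupp.single (p - q) (kk k k'))) := rfl

theorem Ct_val (t u : G →₀ Lb A) (y : G) :
    Ct t u y = ∑ p ∈ u.support, kk (u p) (t (p - y)) := by
  rw [Ct_apply]
  unfold Finsupp.sum
  rw [Finsupp.finsetSum_apply]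
  refine Finset.sum_congr rfl fun p _ => ?_
  rw [Finsupp.finsetSum_apply]
  rw [Finset.sum_eq_single (p - y)]
  · rw [Finsupp.single_apply, if_pos (by abel)]
  · intro q _ hq
    rw [Finsupp.single_apply, if_neg]
    intro h
    apply hq
    rw [← h]
    abel
  · intro h
    show (Finsupp.single (p - (p - y)) (kk (u p) (t (p - y)))) y = 0
    rw [Finsupp.notMem_support_iff.1 h, map_zero, Finsupp.single_zero]
    rfl

end

theorem Ct_map {G H : Type} [AddCommGroup G] [DecidableEq G] [AddCommGroup H] [DecidableEq H]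
    (φ : G → H) (hφ : ∀ p q, φ (p - q) = φ p - φ q) (t u : G →₀ Lb A) :
    Ct (t.mapDomain φ) (u.mapDomain φ) = (Ct t u).mapDomain φ := by
  rw [Ct_apply, Ct_apply, Finsupp.sum_mapDomain_index]
  · unfold Finsupp.sum
    rw [Finsupp.mapDomain_finsetSum]
    refine Finset.sum_congr rfl fun p _ => ?_
    rw [Finsupp.mapDomain_finsetSum]
    have h := Finsupp.sum_mapDomain_index (f := φ) (s := t)
      (h := fun q k' => Finsupp.single (φ p - q) (kk (u p) k')) (by
        intro b
        rw [map_zero, Finsupp.single_zero]) (by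
        intro b m m'
        rw [map_add, Finsupp.single_add])
    unfold Finsupp.sum at h
    refine h.trans ?_
    refine Finset.sum_congr rfl fun q _ => ?_
    beta_reduce
    rw [Finsupp.mapDomain_single, hφ]
  · intro b
    simp
  · intro b m m'
    rw [← Finsupp.sum_add]
    refine Finsupp.sum_congr fun q _ => ?_
    rw [map_add, AddMonoidHom.add_apply, Finsupp.single_add]

theorem Ct_tr {G : Type} [AddCommGroup G] [DecidableEq G] (v : G) (t u : G →₀ Lb A) :
    Ct t (u.mapDomain (fun p => p + v)) = (Ct t u).mapDomain (fun p => p + v) := by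
  rw [Ct_apply, Ct_apply, Finsupp.sum_mapDomain_index]
  · unfold Finsupp.sum
    rw [Finsupp.mapDomain_finsetSum]
    refine Finset.sum_congr rfl fun p _ => ?_
    rw [Finsupp.mapDomain_finsetSum]
    refine Finset.sum_congr rfl fun q _ => ?_
    rw [Finsupp.mapDomain_single]
    show Finsupp.single (p + v - q) (kk (u p) (t q)) = Finsupp.single (p - q + v) (kk (u p) (t q))
    rw [show p + v - q = p - q + v by abel]
  · intro b
    simp
  · intro b m m'
    rw [← Finsupp.sum_add]
    refine Finsupp.sum_congr fun q _ => ?_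
    rw [map_add, AddMonoidHom.add_apply, Finsupp.single_add]

theorem tr_val (v : ℤ × ℤ) (t : VV A) (p : ℤ × ℤ) : tr v t p = t (p - v) := by
  unfold tr
  have h := Finsupp.mapDomain_apply (f := fun p : ℤ × ℤ => p + v) (add_left_injective v) t (p - v)
  rwa [sub_add_cancel] at h

theorem bet_swap (u w : VV A) : bet w u = ∏ p ∈ u.support, (u p).2 (w p).1 := by
  unfold bet
  have h1 : ∏ p ∈ w.support, (u p).2 (w p).1 = ∏ p ∈ w.support ∪ u.support, (u p).2 (w p).1 := by
    refine Finset.prod_subset Finset.subset_union_left fun p _ hp => ?_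
    rw [Finsupp.notMem_support_iff.1 hp, Prod.fst_zero, AddChar.map_zero_eq_one]
  have h2 : ∏ p ∈ u.support, (u p).2 (w p).1 = ∏ p ∈ w.support ∪ u.support, (u p).2 (w p).1 := by
    refine Finset.prod_subset Finset.subset_union_right fun p _ hp => ?_
    rw [Finsupp.notMem_support_iff.1 hp, Prod.snd_zero, AddChar.zero_apply]
  rw [h1, h2]

end LFTaux

open LFTaux in
theorem t_LFT : S_LFT := by
  intro A _ _
  refine ⟨Mu A, inferInstance, inferInstance, ?_⟩
  intro t
  refine ⟨Ct t, fun v u => Ct_tr v t u, ?_, ?_⟩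
  · intro u
    rw [Finsupp.ext_iff]
    refine forall_congr' fun v => ?_
    rw [Ct_val, Finsupp.zero_apply, sum_kk, bet_swap u (tr v t)]
    unfold bet
    simp only [tr_val]
  · intro L _ u
    have hφ : ∀ p q : ℤ × ℤ, toT L (p - q) = toT L p - toT L q := by
      intro p q
      unfold toT
      ext
      · show ((p.1 - q.1 : ℤ) : ZMod L) = (p.1 : ZMod L) - (q.1 : ZMod L)
        push_cast
        rfl
      · show ((p.2 - q.2 : ℤ) : ZMod L) = (p.2 : ZMod L) - (q.2 : ZMod L)
        push_cast
        rfl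
    rw [← Ct_map (toT L) hφ, Finsupp.ext_iff]
    refine forall_congr' fun y => ?_
    have h1 : Ct (t.mapDomain (toT L)) (u.mapDomain (toT L)) y =
        ∑ x, kk (pj L u x) (pj L t (x - y)) := by
      rw [Ct_val]
      refine Finset.sum_subset (Finset.subset_univ _) fun x _ hx => ?_
      rw [Finsupp.notMem_support_iff.1 hx, map_zero, AddMonoidHom.zero_apply]
    rw [h1, Finsupp.zero_apply]
    exact sum_kk Finset.univ (fun x => pj L u x) (fun x => pj L t (x - y))

end SH947
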