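import Pool.Agent.R947.SH.Stm3

/-! # NOE: subgroups closed under shifts are generated by the shifts of finitely many elements -/

set_option autoImplicit false

open scoped BigOperators
open Finset

namespace SH947

namespace NOEPf

variable (M : Type) [AddCommGroup M]

/-- the group ring -/
abbrev RR : Type := AddMonoidAlgebra ℤ (ℤ × ℤ)

/-- shifts -/
noncomputable def shf : Multiplicative (ℤ × ℤ) →*
    Module.End ℤ ((ℤ × ℤ) →₀ M) where
  toFun v := Finsupp.lmapDomain M ℤ (fun p => p + v.toAdd)
  map_one' := by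
    apply LinearMap.ext
    intro u
    rw [Finsupp.lmapDomain_apply]
    have : (fun p : ℤ × ℤ => p + (1 : Multiplicative (ℤ × ℤ)).toAdd) = id := by
      funext p; simp
    rw [this, Finsupp.mapDomain_id]
    rfl
  map_mul' v w := by
    apply LinearMap.ext
    intro u
    show Finsupp.mapDomain _ u = Finsupp.mapDomain _ (Finsupp.mapDomain _ u)
    rw [← Finsupp.mapDomain_comp]
    congr 1
    funext p
    simp only [toAdd_mul, Function.comp_apply]
    rw [add_assoc, add_comm w.toAdd]

/-- the action -/
noncomputable def Ph : RR →ₐ[ℤ] Module.End ℤ ((ℤ × ℤ) →₀ M) :=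
  AddMonoidAlgebra.lift ℤ _ (ℤ × ℤ) (shf M)

/-- the module structure -/
@[reducible] noncomputable def modV : Module RR ((ℤ × ℤ) →₀ M) :=
  Module.compHom _ (Ph M).toRingHom

attribute [local instance] modV

theorem smul_def' (r : RR) (u : (ℤ × ℤ) →₀ M) : r • u = Ph M r u := rfl

theorem single_smul (v : ℤ × ℤ) (c : ℤ) (u : (ℤ × ℤ) →₀ M) :
    (AddMonoidAlgebra.single v c : RR) • u = c • u.mapDomain (fun p => p + v) := by
  rw [smul_def']
  unfold Ph
  rw [AddMonoidAlgebra.lift_single]
  rfl

/-- submodules from groups closed under shifts -/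
noncomputable def sub (S : AddSubgroup ((ℤ × ℤ) →₀ M))
    (hS : ∀ v : ℤ × ℤ, ∀ u ∈ S, u.mapDomain (fun p => p + v) ∈ S) :
    Submodule RR ((ℤ × ℤ) →₀ M) where
  carrier := S
  add_mem' := S.add_mem
  zero_mem' := S.zero_mem
  smul_mem' := by
    intro r u hu
    induction r using AddMonoidAlgebra.induction_linear with
    | zero => rw [zero_smul]; exact S.zero_mem
    | add f g hf hg => rw [add_smul]; exact S.add_mem hf hg
    | single v c =>
      rw [single_smul]
      exact S.zsmul_mem (hS v u hu) c

theorem fin [AddGroup.FG M] : Module.Finite RR ((ℤ × ℤ) →₀ M) := by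
  classical
  obtain ⟨S, hS⟩ := (AddGroup.fg_def (H := M)).1 inferInstance
  refine ⟨⟨S.image (fun κ => Finsupp.single (0 : ℤ × ℤ) κ), ?_⟩⟩
  have key : ∀ κ ∈ AddSubgroup.closure (S : Set M),
      (Finsupp.single (0 : ℤ × ℤ) κ : (ℤ × ℤ) →₀ M) ∈ Submodule.span RR
        (↑(S.image (fun κ => Finsupp.single (0 : ℤ × ℤ) κ)) : Set ((ℤ × ℤ) →₀ M)) := by
    intro κ hκ
    induction hκ using AddSubgroup.closure_induction with
    | mem x hx =>
      apply Submodule.subset_span
      rw [Finset.coe_image]
      exact ⟨x, hx, rfl⟩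
    | zero =>
      rw [Finsupp.single_zero]
      exact Submodule.zero_mem _
    | add x y _ _ hx hy =>
      rw [Finsupp.single_add]
      exact Submodule.add_mem _ hx hy
    | neg x _ hx =>
      rw [Finsupp.single_neg]
      exact Submodule.neg_mem _ hx
  rw [eq_top_iff]
  intro u _
  induction u using Finsupp.induction_linear with
  | zero => exact Submodule.zero_mem _
  | add f g hf hg => exact Submodule.add_mem _ (hf trivial) (hg trivial)
  | single p κ =>
    have h1 : Finsupp.single p κ = (AddMonoidAlgebra.single p 1 : RR) •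
        (Finsupp.single (0 : ℤ × ℤ) κ : (ℤ × ℤ) →₀ M) := by
      rw [single_smul, Finsupp.mapDomain_single, zero_add, one_smul]
    rw [h1]
    apply Submodule.smul_mem
    refine key κ ?_
    rw [hS]
    trivial

end NOEPf

open NOEPf in
attribute [local instance] modV in
theorem t_NOE : S_NOE := by
  intro M _ _ Q hQ
  have := NOEPf.fin M
  have : AddMonoid.FG (ℤ × ℤ) := by
    rw [← AddGroup.fg_iff_addMonoid_fg, ← Module.Finite.iff_addGroup_fg]
    infer_instance
  have : IsNoetherianRing RR := Algebra.FiniteType.isNoetherianRing ℤ RR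
  have : IsNoetherian RR ((ℤ × ℤ) →₀ M) := isNoetherian_of_isNoetherianRing_of_finite _ _
  obtain ⟨G, hG⟩ := IsNoetherian.noetherian (sub M Q hQ)
  have hGQ : ∀ g ∈ G, g ∈ Q := by
    intro g hg
    have h1 : g ∈ sub M Q hQ := by
      rw [← hG]
      exact Submodule.subset_span hg
    exact h1
  refine ⟨G, hGQ, le_antisymm ?_ ?_⟩
  · intro u hu
    have h1 : u ∈ Submodule.span RR (G : Set ((ℤ × ℤ) →₀ M)) := by
      rw [hG]
      exact hu
    set C := AddSubgroup.closure {u | ∃ g ∈ G, ∃ v : ℤ × ℤ, u = g.mapDomain (fun p => p + v)}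
      with hC
    have hCs : ∀ v : ℤ × ℤ, ∀ u ∈ C, u.mapDomain (fun p => p + v) ∈ C := by
      intro v u hu
      have h2 : C ≤ C.comap (Finsupp.mapDomain.addMonoidHom (M := M) (fun p : ℤ × ℤ => p + v)) := by
        rw [hC, AddSubgroup.closure_le]
        rintro _ ⟨g, hg, w, rfl⟩
        refine AddSubgroup.subset_closure ⟨g, hg, w + v, ?_⟩
        change Finsupp.mapDomain _ (Finsupp.mapDomain _ g) = _
        rw [← Finsupp.mapDomain_comp]
        congr 1
        funext p
        simp only [Function.comp_apply]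
        rw [add_assoc]
      exact h2 hu
    have h3 : Submodule.span RR (G : Set ((ℤ × ℤ) →₀ M)) ≤ sub M C hCs := by
      rw [Submodule.span_le]
      intro g hg
      refine AddSubgroup.subset_closure ⟨g, hg, 0, ?_⟩
      have h4 : (fun p : ℤ × ℤ => p + 0) = id := by
        funext p
        simp
      rw [h4, Finsupp.mapDomain_id]
    exact h3 h1
  · rw [AddSubgroup.closure_le]
    rintro _ ⟨g, hg, v, rfl⟩
    exact hQ v g (hGQ g hg)

end SH947
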