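import Pool.Agent.R947.SH.Stm3

/-! # PER: every character of a group of labels is given by commutation with a label -/

set_option autoImplicit false

open scoped BigOperators ComplexConjugate
open Finset Pool.Agent.TH235.PP

namespace SH947

theorem per_extend {G : Type} [AddCommGroup G] [Finite G] (S : AddSubgroup G) (χ : G → ℂ)
    (h0 : χ 0 = 1) (hm : ∀ g ∈ S, ∀ g' ∈ S, χ (g + g') = χ g * χ g') :
    ∃ η : AddChar G ℂ, ∀ g ∈ S, η g = χ g := by
  have : Finite (Multiplicative G) := inferInstance
  have : NeZero (Monoid.exponent (Multiplicative G)) :=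
    ⟨Monoid.exponent_ne_zero_of_finite⟩
  let H : Subgroup (Multiplicative G) := AddSubgroup.toSubgroup S
  have hH : ∀ g : G, g ∈ S → Multiplicative.ofAdd g ∈ H := fun g hg => hg
  have hH' : ∀ g : Multiplicative G, g ∈ H → Multiplicative.toAdd g ∈ S := fun g hg => hg
  let f : H →* ℂ :=
    { toFun := fun h => χ (Multiplicative.toAdd h.1)
      map_one' := by simpa using h0
      map_mul' := by
        intro a b
        exact hm _ (hH' _ a.2) _ (hH' _ b.2) }
  obtain ⟨Φ, hΦ⟩ := MonoidHom.domRestrict_surjective (M := ℂ) H f.toHomUnits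
  refine ⟨AddChar.toMonoidHomEquiv.symm ((Units.coeHom ℂ).comp Φ), fun g hg => ?_⟩
  have h1 := congrArg (fun F : H →* ℂˣ => ((F ⟨Multiplicative.ofAdd g, hH g hg⟩ : ℂˣ) : ℂ)) hΦ
  simpa [f] using h1

theorem t_PER : S_PER := by
  intro A _ _ X _ _ S χ h0 hm
  obtain ⟨η, hη⟩ := per_extend S χ h0 hm
  let α : X → AddChar A ℂ := fun x => η.compAddMonoidHom
    ((AddMonoidHom.single (fun _ : X => Lb A) x).comp (AddMonoidHom.inl A (AddChar A ℂ)))
  let β : X → AddChar (AddChar A ℂ) ℂ := fun x => η.compAddMonoidHom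
    ((AddMonoidHom.single (fun _ : X => Lb A) x).comp (AddMonoidHom.inr A (AddChar A ℂ)))
  let a : X → A := fun x => AddChar.doubleDualEquiv.symm (β x)
  have ha : ∀ (x : X) (c : AddChar A ℂ), c (a x) = β x c := by
    intro x c
    have h1 : (AddChar.doubleDualEmb (a x) : AddChar (AddChar A ℂ) ℂ) = β x :=
      AddChar.doubleDualEmb_doubleDualEquiv_symm_apply (β x)
    have h2 := congrArg (fun F : AddChar (AddChar A ℂ) ℂ => F c) h1
    simpa using h2
  have hsplit : ∀ (x : X) (k : Lb A), η (Pi.single x k) = α x k.1 * k.2 (a x) := by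
    intro x k
    rw [ha]
    have e : (Pi.single x k : X → Lb A) = Pi.single x ((k.1, 0) : Lb A) +
        Pi.single x ((0, k.2) : Lb A) := by
      rw [← Pi.single_add]
      simp
    rw [e, AddChar.map_add_eq_mul]
    rfl
  have hsum : ∀ (s : Finset X) (f : X → (X → Lb A)), η (∑ i ∈ s, f i) = ∏ i ∈ s, η (f i) := by
    intro s f
    induction s using Finset.induction_on with
    | empty => simp
    | insert i s hi ih =>
      rw [Finset.sum_insert hi, Finset.prod_insert hi, AddChar.map_add_eq_mul, ih]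
  refine ⟨fun x => (-(a x), α x), fun g hg => ?_⟩
  rw [← hη g hg]
  have h1 : η g = ∏ x, (α x (g x).1 * (g x).2 (a x)) := by
    conv_lhs => rw [← Finset.univ_sum_single g]
    rw [hsum]
    exact Finset.prod_congr rfl fun x _ => hsplit x (g x)
  unfold betX
  rw [h1, ← Finset.prod_mul_distrib]
  refine Finset.prod_congr rfl fun x _ => ?_
  simp only
  rw [mul_assoc, ← AddChar.map_add_eq_mul, add_neg_cancel, AddChar.map_zero_eq_one, mul_one]

end SH947
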