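import Pool.Agent.R947.SH.Stm3

/-! Piece REG: the shifts minus one form a regular sequence on finitely supported functions. -/

set_option autoImplicit false

open scoped BigOperators
open Finset

namespace SH947

namespace REGaux

variable {M : Type} [AddCommGroup M]

lemma per_zero (h : ℤ → M) (L : ℕ) (hL : 0 < L) (N : ℤ) (h1 : ∀ x, h (x - L) = h x)
    (h2 : ∀ x, x < -N → h x = 0) : ∀ x, h x = 0 := by
  intro x
  have h3 : ∀ n : ℕ, h (x - n * L) = h x := by
    intro n
    induction n with
    | zero => simp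
    | succ n ih =>
      rw [← ih, ← h1 (x - n * L)]
      congr 1
      push_cast
      ring
  rw [← h3 (x + N + 1).toNat]
  apply h2
  have e1 : (x + N + 1) ≤ ((x + N + 1).toNat : ℤ) := Int.self_le_toNat _
  have e2 : (1 : ℤ) ≤ L := by exact_mod_cast hL
  have e3 : (0 : ℤ) ≤ ((x + N + 1).toNat : ℤ) := Int.natCast_nonneg _
  nlinarith

/-- the partial sums -/
def S (L : ℕ) (a : ℤ → M) (n : ℕ) (y : ℤ) : M := ∑ k ∈ range n, a (y - k * L)

lemma S_succ (L : ℕ) (a : ℤ → M) (n : ℕ) (y : ℤ) : S L a (n + 1) y = a y + S L a n (y - L) := by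
  unfold S
  rw [Finset.sum_range_succ', add_comm]
  congr 1
  · simp
  · apply Finset.sum_congr rfl
    intro k _
    congr 1
    push_cast
    ring

lemma S_stab {L : ℕ} (hL : 0 < L) {a : ℤ → M} {N : ℤ} (ha : ∀ y, y < -N → a y = 0) (y : ℤ)
    (n : ℕ) (hn : (y + N + 1).toNat ≤ n) : S L a n y = S L a (y + N + 1).toNat y := by
  induction n, hn using Nat.le_induction with
  | base => rfl
  | succ n hn ih =>
    rw [← ih]
    unfold S
    rw [Finset.sum_range_succ, ha, add_zero]
    have e1 : (y + N + 1) ≤ ((y + N + 1).toNat : ℤ) := Int.self_le_toNat _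
    have e2 : (1 : ℤ) ≤ L := by exact_mod_cast hL
    have e3 : ((y + N + 1).toNat : ℤ) ≤ (n : ℤ) := by exact_mod_cast hn
    have e4 : (0 : ℤ) ≤ (n : ℤ) := Int.natCast_nonneg _
    nlinarith

/-- the solution of the difference equation -/
def g (L : ℕ) (N : ℤ) (a : ℤ → M) (y : ℤ) : M := - S L a (y + N + 1).toNat y

lemma g_eq {L : ℕ} (hL : 0 < L) {a : ℤ → M} {N : ℤ} (ha : ∀ y, y < -N → a y = 0) (y : ℤ) :
    g L N a (y - L) - g L N a y = a y := by
  have hle : (y - L + N + 1).toNat ≤ (y + N + 1).toNat := by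
    apply Int.toNat_le_toNat
    have : (0 : ℤ) ≤ L := Int.natCast_nonneg _
    linarith
  unfold g
  rw [← S_stab hL ha (y - L) _ hle, ← S_stab hL ha y ((y + N + 1).toNat + 1) (by omega), S_succ]
  abel

lemma g_low {L : ℕ} {a : ℤ → M} {N : ℤ} (ha : ∀ y, y < -N → a y = 0) (y : ℤ) (hy : y < -N) :
    g L N a y = 0 := by
  unfold g S
  rw [neg_eq_zero]
  apply Finset.sum_eq_zero
  intro k _
  apply ha
  have e1 : (0 : ℤ) ≤ (k : ℤ) * L := by positivity
  linarith

end REGaux

open REGaux in
/-- Piece REG. -/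
theorem t_REG : S_REG := by
  intro M _ L hL α β hαβ
  -- pointwise form of the shift
  have hsh : ∀ (v : ℤ × ℤ) (ξ : (ℤ × ℤ) →₀ M) (p : ℤ × ℤ),
      (ξ.mapDomain (fun p => p + v)) p = ξ (p - v) := by
    intro v ξ p
    have h1 := Finsupp.mapDomain_apply (f := fun p : ℤ × ℤ => p + v)
      (fun a b h => add_right_cancel h) ξ (p - v)
    simpa using h1
  have hpt : ∀ i j : ℤ, α (i - L, j) - α (i, j) + (β (i, j - L) - β (i, j)) = 0 := by
    intro i j
    have h1 := DFunLike.congr_fun hαβ (i, j)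
    simp only [Finsupp.add_apply, Finsupp.sub_apply, hsh, Finsupp.zero_apply, Prod.mk_sub_mk,
      sub_zero] at h1
    exact h1
  -- a box
  obtain ⟨N, hN⟩ : ∃ N : ℤ, ∀ p ∈ α.support ∪ β.support, |p.1| ≤ N ∧ |p.2| ≤ N := by
    refine ⟨∑ p ∈ α.support ∪ β.support, (|p.1| + |p.2|), ?_⟩
    intro p hp
    have h1 := Finset.single_le_sum (f := fun p : ℤ × ℤ => |p.1| + |p.2|)
      (fun q _ => by positivity) hp
    constructor
    · have := abs_nonneg p.2; linarith
    · have := abs_nonneg p.1; linarith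
  have hα0 : ∀ p : ℤ × ℤ, (N < |p.1| ∨ N < |p.2|) → α p = 0 := by
    intro p hp
    by_contra h
    have h1 := hN p (Finset.mem_union_left _ (Finsupp.mem_support_iff.2 h))
    rcases hp with h2 | h2 <;> linarith [h1.1, h1.2]
  have hβ0 : ∀ p : ℤ × ℤ, (N < |p.1| ∨ N < |p.2|) → β p = 0 := by
    intro p hp
    by_contra h
    have h1 := hN p (Finset.mem_union_right _ (Finsupp.mem_support_iff.2 h))
    rcases hp with h2 | h2 <;> linarith [h1.1, h1.2]
  have habs : ∀ x : ℤ, x < -N → N < |x| := fun x hx => by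
    have := neg_abs_le x
    linarith
  have habs' : ∀ x : ℤ, N < x → N < |x| := fun x hx => by
    have := le_abs_self x
    linarith
  have ha : ∀ i : ℤ, ∀ y, y < -N → (fun y => α (i, y)) y = 0 := fun i y hy =>
    hα0 (i, y) (Or.inr (habs y hy))
  set G : ℤ × ℤ → M := fun p => g L N (fun y => α (p.1, y)) p.2 with hG
  -- the support of `G`
  have hG1 : ∀ p : ℤ × ℤ, N < |p.1| → G p = 0 := by
    intro p hp
    simp only [hG]
    unfold g S
    rw [neg_eq_zero]
    apply Finset.sum_eq_zero
    intro k _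
    exact hα0 _ (Or.inl hp)
  have hG2 : ∀ p : ℤ × ℤ, p.2 < -N → G p = 0 := fun p hp => g_low (ha p.1) p.2 hp
  have hG3 : ∀ p : ℤ × ℤ, N < p.2 → G p = 0 := by
    rintro ⟨i, y⟩ hy
    simp only at hy
    have h1 : ∀ i, S L (fun y => α (i, y)) (y + N + 1).toNat y = 0 := by
      apply per_zero (fun i => S L (fun y => α (i, y)) (y + N + 1).toNat y) L hL N
      · intro x
        have h2 : S L (fun y => α (x - L, y)) (y + N + 1).toNat y -
            S L (fun y => α (x, y)) (y + N + 1).toNat y =
            ∑ k ∈ range (y + N + 1).toNat,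
              (β (x, y - (k : ℤ) * L) - β (x, y - ((k + 1 : ℕ) : ℤ) * L)) := by
          unfold S
          rw [← Finset.sum_sub_distrib]
          apply Finset.sum_congr rfl
          intro k _
          have h3 := hpt x (y - k * L)
          have h4 : y - ((k + 1 : ℕ) : ℤ) * L = y - k * L - L := by push_cast; ring
          rw [h4]
          have h5 := eq_neg_of_add_eq_zero_left h3
          rw [h5]
          abel
        rw [Finset.sum_range_sub' (fun k : ℕ => β (x, y - (k : ℤ) * L))] at h2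
        have h6 : β (x, y - ((0 : ℕ) : ℤ) * L) = 0 := by
          apply hβ0
          right
          simpa using habs' y hy
        have h7 : β (x, y - (((y + N + 1).toNat : ℕ) : ℤ) * L) = 0 := by
          apply hβ0
          right
          apply habs
          have e1 : (y + N + 1) ≤ ((y + N + 1).toNat : ℤ) := Int.self_le_toNat _
          have e2 : (1 : ℤ) ≤ L := by exact_mod_cast hL
          have e3 : (0 : ℤ) ≤ ((y + N + 1).toNat : ℤ) := Int.natCast_nonneg _
          nlinarith
        rw [h6, h7, sub_zero] at h2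
        exact sub_eq_zero.1 h2
      · intro x hx
        show S L (fun y => α (x, y)) (y + N + 1).toNat y = 0
        unfold S
        apply Finset.sum_eq_zero
        intro k _
        exact hα0 _ (Or.inl (habs x hx))
    show g L N (fun y => α (i, y)) y = 0
    unfold g
    rw [h1 i, neg_zero]
  set γ : (ℤ × ℤ) →₀ M := Finsupp.onFinset (Finset.Icc (-N) N ×ˢ Finset.Icc (-N) N) G (by
    intro p hp
    rw [Finset.mem_product, Finset.mem_Icc, Finset.mem_Icc]
    have h1 : |p.1| ≤ N := by
      by_contra h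
      exact hp (hG1 p (not_le.1 h))
    refine ⟨abs_le.1 h1, ?_, ?_⟩
    · by_contra h
      exact hp (hG2 p (not_le.1 h))
    · by_contra h
      exact hp (hG3 p (not_le.1 h))) with hγ
  have hγa : ∀ p, γ p = G p := fun p => by rw [hγ, Finsupp.onFinset_apply]
  have hγ1 : ∀ i j : ℤ, γ (i, j - L) - γ (i, j) = α (i, j) := by
    intro i j
    rw [hγa, hγa]
    exact g_eq hL (ha i) j
  refine ⟨γ, ?_, ?_⟩
  · ext ⟨i, j⟩
    rw [Finsupp.sub_apply, hsh, Prod.mk_sub_mk, sub_zero]
    exact (hγ1 i j).symm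
  · ext ⟨i, j⟩
    rw [Finsupp.neg_apply, Finsupp.sub_apply, hsh, Prod.mk_sub_mk, sub_zero]
    have h1 : ∀ j, γ (i - L, j) - γ (i, j) + β (i, j) = 0 := by
      apply per_zero (fun j => γ (i - L, j) - γ (i, j) + β (i, j)) L hL N
      · intro x
        have h2 := hpt i x
        rw [← hγ1 (i - L) x, ← hγ1 i x] at h2
        show γ (i - L, x - L) - γ (i, x - L) + β (i, x - L) = γ (i - L, x) - γ (i, x) + β (i, x)
        rw [← sub_eq_zero, ← h2]
        abel
      · intro x hx
        show γ (i - L, x) - γ (i, x) + β (i, x) = 0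
        rw [hγa, hγa, hG2 _ hx, hG2 _ hx, hβ0 _ (Or.inr (habs x hx))]
        simp
    exact eq_neg_of_add_eq_zero_right (h1 j)

end SH947
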