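import Pool.Agent.R947.SH.Stm3

/-! # Exactness on all large tori -/

set_option autoImplicit false

open scoped BigOperators ComplexConjugate
open Finset Pool.Agent.TH235.PP

namespace SH947

theorem t_TEX (hE : S_EXA) (hF : S_LFT) (hV : S_EVA) : S_TEX := by
  intro A _ _ d e ι _ w lam ψ L₀ hH
  obtain ⟨M, _, _, hM⟩ := hF A
  choose F0 hFsh hF0 hFt using hM
  obtain ⟨hcl, L₁, hL₁⟩ := hV A d e ι w lam ψ L₀ hH
  have hcomm := hH.1
  -- the generated group is the kernel of all the `F i`
  have hGen : ∀ u : VV A, u ∈ Gen w ↔ ∀ i : ι, F0 (w i) u = 0 := by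
    intro u
    constructor
    · intro hu i
      unfold Gen at hu
      induction hu using AddSubgroup.closure_induction with
      | mem x hx =>
        obtain ⟨j, v, rfl⟩ := hx
        have h1 : F0 (w i) (w j) = 0 := (hF0 (w i) (w j)).2 (fun v' => hcomm j i v')
        show F0 (w i) ((w j).mapDomain (fun p => p + v)) = 0
        rw [hFsh, h1, Finsupp.mapDomain_zero]
      | zero => exact map_zero _
      | add x y _ _ hx hy => rw [map_add, hx, hy, add_zero]
      | neg x _ hx => rw [map_neg, hx, neg_zero]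
    · intro hu
      exact hcl u (fun i v => (hF0 (w i) u).1 (hu i) v)
  refine ⟨L₁, fun L _ hL u hu hpu => ?_⟩
  have hL0 : 0 < L := Nat.pos_of_ne_zero (NeZero.ne L)
  have hex := hE (Lb A) M ι (fun i => F0 (w i)) (fun i v u => hFsh (w i) v u) L hL0
    (by
      intro u hu
      obtain ⟨g, hg, hgu⟩ := hL₁ L hL (pj L u) (fun i y => (hFt (w i) L u).1 (hu i) y)
      exact ⟨g, (hGen g).1 hg, DFunLike.coe_injective hgu⟩)
    u ((hGen u).1 hu) (DFunLike.coe_injective hpu)
  obtain ⟨g, g', hg, hg', hue⟩ := hex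
  exact ⟨g, (hGen g).2 hg, g', (hGen g').2 hg', hue⟩

end SH947
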