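import Pool.Agent.R947.SH.All1
import Pool.Agent.R947.SH.KOS
import Pool.Agent.R947.SH.REG
import Pool.Agent.R947.SH.EXA
import Pool.Agent.R947.SH.NOE
import Pool.Agent.R947.SH.PER
import Pool.Agent.R947.SH.LFT
import Pool.Agent.R947.SH.EVA
import Pool.Agent.R947.SH.TEX
import Pool.Agent.R947.SH.CHR
import Pool.Agent.R947.SH.CST

/-! # All pieces -/

set_option autoImplicit false

namespace SH947

theorem T_EVA : S_EVA := t_EVA T_UNQ t_LOC T_LAT
theorem T_TEX : S_TEX := t_TEX (t_EXA t_KOS t_REG) t_LFT T_EVA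
theorem T_CHR : S_CHR := t_CHR t_WEY t_LOC t_NOE
theorem T_CST : S_CST := t_CST t_WEY t_PER T_TEX T_CHR

end SH947
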