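import Pool.Agent.R947.SH.Stm

/-! Project SH (helper947), piece CPE by helper780: a simple eigenvector of a commuting Hamiltonian is a
PEPS of bounded bond dimension. -/

set_option autoImplicit false

open scoped BigOperators ComplexConjugate
open Finset Pool.Agent.TH235.PP

namespace SH947

namespace CPE

lemma mul_op {S : Type} [Fintype S] [DecidableEq S] (a : Matrix S S ℂ) (μ : ℂ) {n : ℕ}
    (z : Fin n → Matrix S S ℂ) (hc : ∀ b, a * z b = z b * a) (i : Fin n) (hi : a * z i = μ • z i) :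
    a * op z = μ • op z := by
  induction n with
  | zero => exact i.elim0
  | succ n ih =>
    rw [op_succ]
    rcases Fin.eq_zero_or_eq_succ i with rfl | ⟨j, rfl⟩
    · rw [← mul_assoc, hi, smul_mul_assoc]
    · rw [← mul_assoc, hc 0, mul_assoc, ih (fun b => z b.succ) (fun b => hc b.succ) j hi,
        mul_smul_comm]

lemma vecMul_op {S : Type} [Fintype S] [DecidableEq S] (v : S → ℂ) {n : ℕ}
    (z : Fin n → Matrix S S ℂ) (hz : ∀ b, Matrix.vecMul v (z b) = v) :
    Matrix.vecMul v (op z) = v := by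
  induction n with
  | zero => rw [op_zero, Matrix.vecMul_one]
  | succ n ih =>
    rw [op_succ, ← Matrix.vecMul_vecMul, hz 0]
    exact ih (fun b => z b.succ) (fun b => hz b.succ)

lemma ham_mulVec {d R L : ℕ} [NeZero L] (h : BoxOp d R) (φ : (Site L → Fin d) → ℂ) (μ : ℂ)
    (hφ : ∀ u : Site L, (term h u : TorOp d L).mulVec φ = μ • φ) :
    (ham h L).mulVec φ = ((Fintype.card (Site L) : ℂ) * μ) • φ := by
  unfold ham
  rw [Matrix.sum_mulVec]
  rw [Finset.sum_congr rfl fun u _ => hφ u]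
  rw [Finset.sum_const, Finset.card_univ, ← Nat.cast_smul_eq_nsmul ℂ, smul_smul]

end CPE

open CPE in
theorem t_CPE (hP : S_PRD) (hT : S_TRI) (hS : S_SPC) : S_CPE := by
  classical
  intro d R' h hh
  obtain ⟨f, hf⟩ := hP d R'
  refine ⟨f, ?_⟩
  intro L _ hL hcomm ψ E hψ hE hsimple
  obtain ⟨μ, hμ⟩ := hT d (R' + 1) L h hcomm ψ E hψ hE hsimple
  obtain ⟨p, hp⟩ := hS d R' h hh μ
  obtain ⟨hp1, hp2, hp3, hp4⟩ := hp L hL
  have hp4 := hp4 hcomm
  obtain ⟨s₀, hs₀⟩ := Function.ne_iff.mp hψ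
  let en : Fin (Fintype.card (Site L)) ≃ Site L := (Fintype.equivFin (Site L)).symm
  set z : Fin (Fintype.card (Site L)) → TorOp d L := fun b => term p (en b) with hz
  set Φ : (Site L → Fin d) → ℂ := (op z).mulVec (Pi.single s₀ 1) with hΦ
  have hPEPS : IsPEPS f Φ := hf p L _ en s₀
  have h1 : ∀ u : Site L, (term h u : TorOp d L).mulVec Φ = μ • Φ := by
    intro u
    have h2 : (term h u : TorOp d L) * op z = μ • op z := by
      apply mul_op _ μ z (fun b => hp4 u (en b)) (en.symm u)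
      rw [hz]
      simp only [Equiv.apply_symm_apply]
      exact hp2 u
    rw [hΦ, Matrix.mulVec_mulVec, h2, Matrix.smul_mulVec]
  have h3 := ham_mulVec h Φ μ h1
  have h4 := ham_mulVec h ψ μ hμ
  have h5 : E = (Fintype.card (Site L) : ℂ) * μ := by
    rw [hE] at h4
    have h6 := congrFun h4 s₀
    simp only [Pi.smul_apply, smul_eq_mul] at h6
    exact mul_right_cancel₀ hs₀ h6
  rw [← h5] at h3
  obtain ⟨c, hc⟩ := hsimple Φ h3
  have h7 : star ψ ⬝ᵥ Φ = star (ψ s₀) := by
    rw [hΦ, Matrix.dotProduct_mulVec, vecMul_op]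
    · rw [dotProduct_single, mul_one, Pi.star_apply]
    · intro b
      have h8 : (z b).conjTranspose = z b := hp1 (en b)
      rw [← h8, ← Matrix.star_mulVec, hp3 (en b) ψ (hμ (en b))]
  have hc0 : c ≠ 0 := by
    rintro rfl
    rw [hc, zero_smul, dotProduct_zero] at h7
    exact hs₀ (star_eq_zero.mp h7.symm)
  have h9 : ψ = c⁻¹ • Φ := by
    rw [hc, smul_smul, inv_mul_cancel₀ hc0, one_smul]
  rw [h9]
  exact hPEPS.smul _

end SH947
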