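import Pool.Agent.R947.SH.Stm2

/-! # EXP: expectations of operators on a finite region in terms of Weyl operators -/

set_option autoImplicit false

open scoped BigOperators ComplexConjugate
open Finset

namespace SH947

namespace EXPaux

variable {A : Type} [AddCommGroup A] [Fintype A] {d : ℕ}

open Classical in
/-- coefficients for one site -/
noncomputable def c1 (e : Fin d ≃ A) (a b : Fin d) (k : Lb A) : ℂ :=
  if k.1 = e b - e a then (Fintype.card A : ℂ)⁻¹ * k.2 (-(e a)) else 0

theorem one_site (e : Fin d ≃ A) (a b a' b' : Fin d) :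
    ∑ k : Lb A, c1 e a b k * w1 e k a' b' = if a = a' ∧ b = b' then 1 else 0 := by
  classical
  rw [Fintype.sum_prod_type]
  rw [Finset.sum_eq_single (e b - e a)]
  · unfold c1 w1
    simp only [if_true]
    by_cases hb : e b' = e a' + (e b - e a)
    · simp only [if_pos hb]
      have h1 : ∀ χ : AddChar A ℂ, (Fintype.card A : ℂ)⁻¹ * χ (-(e a)) * χ (e a') =
          (Fintype.card A : ℂ)⁻¹ * χ (e a' - e a) := by
        intro χ
        rw [mul_assoc, ← AddChar.map_add_eq_mul]
        congr 2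
        abel
      simp only [h1]
      rw [← Finset.mul_sum, AddChar.sum_apply_eq_ite]
      have hcard : (Fintype.card A : ℂ) ≠ 0 := by
        have : 0 < Fintype.card A := Fintype.card_pos_iff.2 ⟨0⟩
        exact_mod_cast this.ne'
      by_cases ha : a = a'
      · subst ha
        have hb2 : b = b' := by
          apply e.injective
          rw [hb]
          abel
        rw [if_pos (sub_self _), if_pos ⟨rfl, hb2⟩, inv_mul_cancel₀ hcard]
      · rw [if_neg, if_neg, mul_zero]
        · exact fun h => ha h.1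
        · intro h
          exact ha (e.injective (sub_eq_zero.1 h)).symm
    · simp only [if_neg hb, mul_zero, Finset.sum_const_zero]
      rw [if_neg]
      rintro ⟨rfl, rfl⟩
      apply hb
      abel
  · intro x _ hx
    apply Finset.sum_eq_zero
    intro χ _
    unfold c1
    rw [if_neg hx, zero_mul]
  · intro h
    exact absurd (Finset.mem_univ _) h

/-- the coefficients -/
noncomputable def coef (e : Fin d ≃ A) {X : Type} [Fintype X] [DecidableEq X]
    (B : (X → Fin d) → (X → Fin d) → ℂ) (w : X → Lb A) : ℂ :=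
  ∑ s : X → Fin d, ∑ t : X → Fin d, B s t * ∏ p, c1 e (s p) (t p) (w p)

theorem expand (e : Fin d ≃ A) {X : Type} [Fintype X] [DecidableEq X]
    (B : (X → Fin d) → (X → Fin d) → ℂ) (s' t' : X → Fin d) :
    ∑ w : X → Lb A, coef e B w * ∏ p, w1 e (w p) (s' p) (t' p) = B s' t' := by
  unfold coef
  simp only [Finset.sum_mul]
  rw [Finset.sum_comm]
  rw [Finset.sum_congr rfl (fun s _ => Finset.sum_comm)]
  have h : ∀ s t : X → Fin d, ∑ w : X → Lb A,
      B s t * (∏ p, c1 e (s p) (t p) (w p)) * ∏ p, w1 e (w p) (s' p) (t' p) =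
      if s = s' ∧ t = t' then B s t else 0 := by
    intro s t
    have h1 : ∀ w : X → Lb A, B s t * (∏ p, c1 e (s p) (t p) (w p)) * ∏ p, w1 e (w p) (s' p) (t' p) =
        B s t * ∏ p, (c1 e (s p) (t p) (w p) * w1 e (w p) (s' p) (t' p)) := by
      intro w
      rw [mul_assoc, ← Finset.prod_mul_distrib]
    simp only [h1]
    rw [← Finset.mul_sum]
    have h2 : ∑ w : X → Lb A, ∏ p, (c1 e (s p) (t p) (w p) * w1 e (w p) (s' p) (t' p)) =
        ∏ p, ∑ k : Lb A, (c1 e (s p) (t p) k * w1 e k (s' p) (t' p)) := by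
      rw [Finset.prod_univ_sum, Fintype.piFinset_univ]
    rw [h2]
    simp only [one_site]
    by_cases hc : s = s' ∧ t = t'
    · obtain ⟨rfl, rfl⟩ := hc
      simp
    · rw [if_neg hc]
      have : ∃ p, ¬ (s p = s' p ∧ t p = t' p) := by
        by_contra hall
        push Not at hall
        exact hc ⟨funext fun p => (hall p).1, funext fun p => (hall p).2⟩
      obtain ⟨p, hp⟩ := this
      rw [Finset.prod_eq_zero (Finset.mem_univ p) (if_neg hp), mul_zero]
  rw [Finset.sum_congr rfl (fun s _ => Finset.sum_congr rfl (fun t _ => h s t))]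
  rw [Finset.sum_eq_single s']
  · rw [Finset.sum_eq_single t']
    · simp
    · intro t _ ht
      rw [if_neg]
      exact fun h => ht h.2
    · intro h
      exact absurd (Finset.mem_univ _) h
  · intro s _ hs
    apply Finset.sum_eq_zero
    intro t _
    rw [if_neg]
    exact fun h => hs h.1
  · intro h
    exact absurd (Finset.mem_univ _) h

theorem pj_lax {R : Finset (ℤ × ℤ)} (L : ℕ) (w : R → Lb A) (y : Pool.Agent.TH235.PP.Site L) :
    pj L (lax w) y = ∑ p : R, if toT L (p : ℤ × ℤ) = y then w p else 0 := by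
  classical
  unfold pj lax
  rw [Finsupp.mapDomain_finsetSum]
  rw [Finsupp.finsetSum_apply]
  apply Finset.sum_congr rfl
  intro p _
  rw [Finsupp.mapDomain_single, Finsupp.single_apply]

theorem w1_zero (e : Fin d ≃ A) (a b : Fin d) : w1 e (0 : Lb A) a b = if a = b then 1 else 0 := by
  classical
  unfold w1
  have h : (e b = e a + (0 : Lb A).1) ↔ a = b := by
    rw [Prod.fst_zero, add_zero]
    exact ⟨fun h => (e.injective h).symm, fun h => by rw [h]⟩
  by_cases hab : a = b
  · rw [if_pos (h.2 hab), if_pos hab]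
    rw [Prod.snd_zero, AddChar.zero_apply]
  · rw [if_neg (fun h' => hab (h.1 h')), if_neg hab]

open Classical in
theorem weyl_entry (e : Fin d ≃ A) {R : Finset (ℤ × ℤ)} (L : ℕ) [NeZero L]
    (v : Pool.Agent.TH235.PP.Site L)
    (hinj : ∀ p q : R, toT L (p : ℤ × ℤ) = toT L (q : ℤ × ℤ) → p = q) (w : R → Lb A)
    (s s' : Pool.Agent.TH235.PP.Site L → Fin d) :
    weyl e (fun y => pj L (lax w) (y - v)) s s' =
      if (∀ y : Pool.Agent.TH235.PP.Site L,
        (∀ p ∈ R, y ≠ (v.1 + (p.1 : ZMod L), v.2 + (p.2 : ZMod L))) → s y = s' y)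
      then ∏ p : R, w1 e (w p) (Pool.Agent.Y738.PE.res R s v p) (Pool.Agent.Y738.PE.res R s' v p)
      else 0 := by
  let φ : R → Pool.Agent.TH235.PP.Site L := fun p => v + toT L (p : ℤ × ℤ)
  have hφ : Function.Injective φ := by
    intro p q h
    exact hinj p q (add_left_cancel h)
  have hφ' : ∀ p : R, φ p = (v.1 + ((p : ℤ × ℤ).1 : ZMod L), v.2 + ((p : ℤ × ℤ).2 : ZMod L)) :=
    fun p => rfl
  have hoff : ∀ y, (∀ p ∈ R, y ≠ (v.1 + (p.1 : ZMod L), v.2 + (p.2 : ZMod L))) ↔
      y ∉ Finset.univ.image φ := by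
    intro y
    rw [Finset.mem_image]
    constructor
    · rintro h ⟨p, -, hp⟩
      exact h p p.2 (hp.symm.trans (hφ' p))
    · intro h p hp hy
      exact h ⟨⟨p, hp⟩, Finset.mem_univ _, hy.symm⟩
  have hlab1 : ∀ p : R, pj L (lax w) (φ p - v) = w p := by
    intro p
    rw [pj_lax, Finset.sum_eq_single p]
    · rw [if_pos]
      simp [φ]
    · intro q _ hq
      rw [if_neg]
      intro h
      apply hq
      apply hinj
      rw [h]
      simp [φ]
    · intro h
      exact absurd (Finset.mem_univ _) h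
  have hlab2 : ∀ y, y ∉ Finset.univ.image φ → pj L (lax w) (y - v) = 0 := by
    intro y hy
    rw [pj_lax]
    apply Finset.sum_eq_zero
    intro q _
    rw [if_neg]
    intro h
    apply hy
    rw [Finset.mem_image]
    refine ⟨q, Finset.mem_univ _, ?_⟩
    simp only [φ, h]
    abel
  unfold weyl Pool.Agent.TH235.PP.tp
  have hsplit : ∏ y : Pool.Agent.TH235.PP.Site L, w1 e (pj L (lax w) (y - v)) (s y) (s' y) =
      (∏ y ∈ Finset.univ.image φ, w1 e (pj L (lax w) (y - v)) (s y) (s' y)) *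
      ∏ y ∈ (Finset.univ.image φ)ᶜ, w1 e (pj L (lax w) (y - v)) (s y) (s' y) :=
    (Finset.prod_mul_prod_compl _ _).symm
  rw [hsplit, Finset.prod_image (fun p _ q _ h => hφ h)]
  by_cases hc : ∀ y : Pool.Agent.TH235.PP.Site L,
        (∀ p ∈ R, y ≠ (v.1 + (p.1 : ZMod L), v.2 + (p.2 : ZMod L))) → s y = s' y
  · rw [if_pos hc]
    have h2 : ∏ y ∈ (Finset.univ.image φ)ᶜ, w1 e (pj L (lax w) (y - v)) (s y) (s' y) = 1 := by
      apply Finset.prod_eq_one
      intro y hy
      rw [Finset.mem_compl] at hy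
      rw [hlab2 y hy, w1_zero, if_pos (hc y ((hoff y).2 hy))]
    rw [h2, mul_one]
    apply Finset.prod_congr rfl
    intro p _
    rw [hlab1]
    rfl
  · rw [if_neg hc]
    push Not at hc
    obtain ⟨y, hy, hne⟩ := hc
    have hy' := (hoff y).1 hy
    have h2 : ∏ y ∈ (Finset.univ.image φ)ᶜ, w1 e (pj L (lax w) (y - v)) (s y) (s' y) = 0 := by
      apply Finset.prod_eq_zero (Finset.mem_compl.2 hy')
      rw [hlab2 y hy', w1_zero, if_neg hne]
    rw [h2, mul_zero]

theorem toT_inj (R : Finset (ℤ × ℤ)) : ∃ r : ℕ, ∀ L : ℕ, r ≤ L → ∀ p q : R,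
    toT L (p : ℤ × ℤ) = toT L (q : ℤ × ℤ) → p = q := by
  let S : ℕ := ∑ p ∈ R, (p.1.natAbs + p.2.natAbs)
  have hS : ∀ p ∈ R, p.1.natAbs + p.2.natAbs ≤ S := fun p hp =>
    Finset.single_le_sum (f := fun p : ℤ × ℤ => p.1.natAbs + p.2.natAbs)
      (fun _ _ => Nat.zero_le _) hp
  refine ⟨2 * S + 1, ?_⟩
  intro L hL p q h
  unfold toT at h
  rw [Prod.mk.injEq] at h
  obtain ⟨h1, h2⟩ := h
  rw [ZMod.intCast_eq_intCast_iff_dvd_sub] at h1 h2
  have hp := hS p p.2
  have hq := hS q q.2
  have e1 := Int.eq_zero_of_abs_lt_dvd h1 (by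
    rw [abs_lt]
    constructor <;> omega)
  have e2 := Int.eq_zero_of_abs_lt_dvd h2 (by
    rw [abs_lt]
    constructor <;> omega)
  apply Subtype.ext
  apply Prod.ext
  · omega
  · omega

end EXPaux

theorem t_EXP (_hW : S_WEY) : S_EXP := by
  classical
  intro A _ _ d e R
  obtain ⟨r, hr⟩ := EXPaux.toT_inj R
  refine ⟨r, EXPaux.coef e, ?_⟩
  intro L _ hL Ψ v B
  have hinj := hr L hL
  unfold Pool.Agent.Y738.PE.expecR ipr
  have h1 : ∀ w : R → Lb A, (∑ s, conj (Ψ s) *
      (weyl e (fun y => pj L (lax w) (y - v))).mulVec Ψ s) =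
      ∑ s, ∑ s', conj (Ψ s) * (weyl e (fun y => pj L (lax w) (y - v)) s s' * Ψ s') := by
    intro w
    apply Finset.sum_congr rfl
    intro s _
    rw [Matrix.mulVec, dotProduct, Finset.mul_sum]
  have h2 : ∀ w : R → Lb A, EXPaux.coef e B w * (∑ s, conj (Ψ s) *
      (weyl e (fun y => pj L (lax w) (y - v))).mulVec Ψ s) =
      ∑ s, ∑ s', EXPaux.coef e B w *
        (conj (Ψ s) * (weyl e (fun y => pj L (lax w) (y - v)) s s' * Ψ s')) := by
    intro w
    rw [h1, Finset.mul_sum]
    apply Finset.sum_congr rfl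
    intro s _
    rw [Finset.mul_sum]
  rw [Finset.sum_congr rfl (fun w _ => h2 w)]
  refine Eq.trans ?_ Finset.sum_comm
  apply Finset.sum_congr rfl
  intro s _
  refine Eq.trans ?_ Finset.sum_comm
  apply Finset.sum_congr rfl
  intro s' _
  by_cases hc : ∀ y : Pool.Agent.TH235.PP.Site L,
        (∀ p ∈ R, y ≠ (v.1 + (p.1 : ZMod L), v.2 + (p.2 : ZMod L))) → s y = s' y
  · rw [if_pos hc]
    have h3 : ∀ w : R → Lb A, EXPaux.coef e B w *
        (conj (Ψ s) * (weyl e (fun y => pj L (lax w) (y - v)) s s' * Ψ s')) =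
        conj (Ψ s) * (EXPaux.coef e B w * ∏ p : R, w1 e (w p)
          (Pool.Agent.Y738.PE.res R s v p) (Pool.Agent.Y738.PE.res R s' v p)) * Ψ s' := by
      intro w
      rw [EXPaux.weyl_entry e L v hinj, if_pos hc]
      ring
    rw [Finset.sum_congr rfl (fun w _ => h3 w), ← Finset.sum_mul, ← Finset.mul_sum,
      EXPaux.expand]
  · rw [if_neg hc]
    symm
    apply Finset.sum_eq_zero
    intro w _
    rw [EXPaux.weyl_entry e L v hinj, if_neg hc]
    ring

end SH947
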