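import Pool.Agent.R947.SH.Stm

set_option autoImplicit false

open scoped BigOperators ComplexConjugate
open Finset Pool.Agent.TH235.PP

namespace SH947

namespace LATPf

variable (K : Type) [AddCommGroup K] [Finite K]

instance nz : NeZero (Nat.card K) := ⟨Nat.card_pos.ne'⟩

/-- `K` as a module -/
@[reducible] noncomputable def modK : Module (ZMod (Nat.card K)) K :=
  AddCommGroup.zmodModule (by intro x; exact card_nsmul_eq_zero')

attribute [local instance] modK

/-- the group ring -/
abbrev RR : Type := AddMonoidAlgebra (ZMod (Nat.card K)) (ℤ × ℤ)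

/-- shifts -/
noncomputable def shf : Multiplicative (ℤ × ℤ) →*
    Module.End (ZMod (Nat.card K)) ((ℤ × ℤ) →₀ K) where
  toFun v := Finsupp.lmapDomain K (ZMod (Nat.card K)) (fun p => p + v.toAdd)
  map_one' := by
    apply LinearMap.ext
    intro u
    rw [Finsupp.lmapDomain_apply]
    have : (fun p : ℤ × ℤ => p + (1 : Multiplicative (ℤ × ℤ)).toAdd) = id := by
      funext p; simp
    rw [this, Finsupp.mapDomain_id]
    rfl
  map_mul' v w := by
    apply LinearMap.ext
    intro u
    show Finsupp.mapDomain _ u = Finsupp.mapDomain _ (Finsupp.mapDomain _ u)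
    rw [← Finsupp.mapDomain_comp]
    congr 1
    funext p
    simp only [toAdd_mul, Function.comp_apply]
    rw [add_assoc, add_comm w.toAdd]

/-- the action -/
noncomputable def Ph : RR K →ₐ[ZMod (Nat.card K)]
    Module.End (ZMod (Nat.card K)) ((ℤ × ℤ) →₀ K) :=
  AddMonoidAlgebra.lift (ZMod (Nat.card K)) _ (ℤ × ℤ) (shf K)

/-- the module structure -/
@[reducible] noncomputable def modV : Module (RR K) ((ℤ × ℤ) →₀ K) :=
  Module.compHom _ (Ph K).toRingHom

attribute [local instance] modV

theorem smul_def' (r : RR K) (u : (ℤ × ℤ) →₀ K) : r • u = Ph K r u := rfl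

theorem single_smul (v : ℤ × ℤ) (c : ZMod (Nat.card K)) (u : (ℤ × ℤ) →₀ K) :
    (AddMonoidAlgebra.single v c : RR K) • u = c • u.mapDomain (fun p => p + v) := by
  rw [smul_def']
  unfold Ph
  rw [AddMonoidAlgebra.lift_single]
  rfl

/-- submodules from groups closed under shifts -/
noncomputable def sub (S : AddSubgroup ((ℤ × ℤ) →₀ K))
    (hS : ∀ v : ℤ × ℤ, ∀ u ∈ S, u.mapDomain (fun p => p + v) ∈ S) :
    Submodule (RR K) ((ℤ × ℤ) →₀ K) where
  carrier := S
  add_mem' := S.add_mem
  zero_mem' := S.zero_mem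
  smul_mem' := by
    intro r u hu
    induction r using AddMonoidAlgebra.induction_linear with
    | zero => rw [zero_smul]; exact S.zero_mem
    | add f g hf hg => rw [add_smul]; exact S.add_mem hf hg
    | single v c =>
      rw [single_smul]
      have h1 : c • (u.mapDomain (fun p => p + v)) = c.val • (u.mapDomain (fun p => p + v)) := by
        conv_lhs => rw [← ZMod.natCast_zmod_val c]
        rw [Nat.cast_smul_eq_nsmul]
      rw [h1]
      exact S.nsmul_mem (hS v u hu) _

theorem fin : Module.Finite (RR K) ((ℤ × ℤ) →₀ K) := by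
  classical
  haveI := Fintype.ofFinite K
  refine ⟨⟨(univ : Finset K).image (fun κ => Finsupp.single (0 : ℤ × ℤ) κ), ?_⟩⟩
  rw [eq_top_iff]
  intro u _
  induction u using Finsupp.induction_linear with
  | zero => exact Submodule.zero_mem _
  | add f g hf hg => exact Submodule.add_mem _ (hf trivial) (hg trivial)
  | single p κ =>
    have h1 : Finsupp.single p κ = (AddMonoidAlgebra.single p 1 : RR K) •
        (Finsupp.single (0 : ℤ × ℤ) κ : (ℤ × ℤ) →₀ K) := by
      rw [single_smul, Finsupp.mapDomain_single, zero_add, one_smul]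
    rw [h1]
    apply Submodule.smul_mem
    apply Submodule.subset_span
    rw [Finset.coe_image]
    exact ⟨κ, by simp, rfl⟩

/-- the units -/
noncomputable def un (v : ℤ × ℤ) : (RR K)ˣ where
  val := AddMonoidAlgebra.single v 1
  inv := AddMonoidAlgebra.single (-v) 1
  val_inv := by
    rw [AddMonoidAlgebra.single_mul_single, add_neg_cancel, one_mul]; rfl
  inv_val := by
    rw [AddMonoidAlgebra.single_mul_single, neg_add_cancel, one_mul]; rfl

theorem un_pow (v : ℤ × ℤ) (L : ℕ) :
    ((un K v : (RR K)ˣ) : RR K) ^ L = AddMonoidAlgebra.single ((L : ℤ) • v) 1 := by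
  show (AddMonoidAlgebra.single v 1 : RR K) ^ L = _
  rw [AddMonoidAlgebra.single_pow, one_pow]
  simp

/-- the ideal -/
noncomputable def II (L : ℕ) : Ideal (RR K) :=
  Ideal.span {((un K (1, 0) : (RR K)ˣ) : RR K) ^ L - 1, ((un K (0, 1) : (RR K)ˣ) : RR K) ^ L - 1}

/-- periods -/
noncomputable def DD (L : ℕ) : AddSubgroup (ℤ × ℤ) where
  carrier := {v | ∀ (q : ℤ × ℤ) (κ : K), (Finsupp.single (q + v) κ - Finsupp.single q κ :
    (ℤ × ℤ) →₀ K) ∈ (II K L • (⊤ : Submodule (RR K) ((ℤ × ℤ) →₀ K)))}
  zero_mem' := by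
    intro q κ
    rw [add_zero, sub_self]
    exact Submodule.zero_mem _
  add_mem' := by
    intro v w hv hw q κ
    have h1 := Submodule.add_mem _ (hw (q + v) κ) (hv q κ)
    rw [sub_add_sub_cancel, add_assoc] at h1
    exact h1
  neg_mem' := by
    intro v hv q κ
    have h1 := Submodule.neg_mem _ (hv (q + -v) κ)
    rw [neg_add_cancel_right, neg_sub] at h1
    exact h1

theorem mem_DD (L : ℕ) (v : ℤ × ℤ)
    (hv : ((un K v : (RR K)ˣ) : RR K) ^ L - 1 ∈ II K L) : (L : ℤ) • v ∈ DD K L := by
  intro q κ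
  have h1 := Submodule.smul_mem_smul hv
    (Submodule.mem_top : (Finsupp.single q κ : (ℤ × ℤ) →₀ K) ∈
      (⊤ : Submodule (RR K) ((ℤ × ℤ) →₀ K)))
  rw [sub_smul, one_smul, un_pow, single_smul, one_smul, Finsupp.mapDomain_single] at h1
  exact h1

theorem ker (L : ℕ) [NeZero L] (w : (ℤ × ℤ) →₀ K) (hw : w.mapDomain (toT L) = 0) :
    w ∈ (II K L • (⊤ : Submodule (RR K) ((ℤ × ℤ) →₀ K))) := by
  classical
  let rep : Site L → ℤ × ℤ := fun t => ((t.1.val : ℤ), (t.2.val : ℤ))
  have hrep : ∀ p : ℤ × ℤ, p - rep (toT L p) ∈ DD K L := by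
    intro p
    have hX : (L : ℤ) • ((1, 0) : ℤ × ℤ) ∈ DD K L := mem_DD K L (1, 0)
      (Ideal.subset_span (Set.mem_insert _ _))
    have hY : (L : ℤ) • ((0, 1) : ℤ × ℤ) ∈ DD K L := mem_DD K L (0, 1)
      (Ideal.subset_span (Set.mem_insert_of_mem _ rfl))
    have hd : ∀ z : ℤ, (L : ℤ) ∣ z - (((z : ZMod L).val : ℕ) : ℤ) := by
      intro z
      rw [← ZMod.intCast_eq_intCast_iff_dvd_sub]
      simp
    obtain ⟨i, hi⟩ := hd p.1
    obtain ⟨j, hj⟩ := hd p.2
    have h1 : p - rep (toT L p) = i • ((L : ℤ) • ((1, 0) : ℤ × ℤ)) +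
        j • ((L : ℤ) • ((0, 1) : ℤ × ℤ)) := by
      apply Prod.ext
      · show p.1 - (((p.1 : ZMod L).val : ℕ) : ℤ) = _
        rw [hi]
        simp
        ring
      · show p.2 - (((p.2 : ZMod L).val : ℕ) : ℤ) = _
        rw [hj]
        simp
        ring
    rw [h1]
    exact add_mem (zsmul_mem hX i) (zsmul_mem hY j)
  have hall : ∀ u : (ℤ × ℤ) →₀ K, u - (u.mapDomain (toT L)).mapDomain rep ∈
      (II K L • (⊤ : Submodule (RR K) ((ℤ × ℤ) →₀ K))) := by
    intro u
    induction u using Finsupp.induction_linear with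
    | zero => simp
    | add f g hf hg =>
      have h1 := Submodule.add_mem _ hf hg
      rw [Finsupp.mapDomain_add, Finsupp.mapDomain_add]
      convert h1 using 1
      abel
    | single p κ =>
      rw [Finsupp.mapDomain_single, Finsupp.mapDomain_single]
      have h1 := hrep p (rep (toT L p)) κ
      rw [add_sub_cancel] at h1
      exact h1
  have h1 := hall w
  rw [hw, Finsupp.mapDomain_zero, sub_zero] at h1
  exact h1

end LATPf

open LATPf in
attribute [local instance] modV in
theorem t_LAT (hA : S_ALG) : S_LAT := by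
  intro K _ _ S P hS hP h
  letI := LATPf.modK K
  haveI := LATPf.fin K
  haveI : AddMonoid.FG (ℤ × ℤ) := by
    rw [← AddGroup.fg_iff_addMonoid_fg, ← Module.Finite.iff_addGroup_fg]
    infer_instance
  have key := hA (ZMod (Nat.card K)) (RR K) ((ℤ × ℤ) →₀ K) (un K (1, 0)) (un K (0, 1))
    (sub K S hS) (sub K P hP) (by
      intro u hu
      obtain ⟨L₁, hL₁⟩ := h u hu
      refine ⟨L₁ + 1, fun L hL => ?_⟩
      haveI : NeZero L := ⟨by omega⟩
      obtain ⟨g, hg, hug⟩ := hL₁ L (by omega)
      have h1 : (u - g).mapDomain (toT L) = 0 := by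
        have h2 : u.mapDomain (toT L) = ((u - g) + g).mapDomain (toT L) := by rw [sub_add_cancel]
        rw [Finsupp.mapDomain_add, hug] at h2
        exact (right_eq_add.1 h2)
      have h3 := LATPf.ker K L (u - g) h1
      have h4 : u = g + (u - g) := by abel
      rw [h4]
      exact Submodule.add_mem_sup hg h3)
  intro u hu
  exact key hu

end SH947
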