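import Pool.Agent.R947.SH.Stm

/-! # SH-PRD: an ordered product of local operators applied to a basis vector is a PEPS -/

set_option autoImplicit false

open scoped BigOperators ComplexConjugate
open Finset Pool.Agent.TH235.PP

namespace SH947

namespace PRDp

variable {d R' L : ℕ} [NeZero L]

lemma term_sub_one (p : BoxOp d (R' + 1)) (u : Site L) :
    (term (p - 1) u : TorOp d L) = term p u - 1 := by
  classical
  ext s t
  rw [Matrix.sub_apply]
  unfold term
  by_cases hc : ∀ v, (∀ x : Fin (R' + 1) × Fin (R' + 1), sh u x ≠ v) → s v = t v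
  · rw [if_pos hc, if_pos hc, Matrix.sub_apply]
    congr 1
    rw [Matrix.one_apply, Matrix.one_apply]
    by_cases hst : s = t
    · subst hst
      rw [if_pos rfl, if_pos rfl]
    · rw [if_neg hst, if_neg]
      intro h
      apply hst
      funext v
      by_cases hv : ∃ x : Fin (R' + 1) × Fin (R' + 1), sh u x = v
      · obtain ⟨x, rfl⟩ := hv
        exact congrFun h x
      · push Not at hv
        exact hc v hv
  · rw [if_neg hc, if_neg hc, Matrix.one_apply, if_neg, sub_zero]
    intro hst
    apply hc
    intro v _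
    rw [hst]

lemma KT_one {N : ℕ} (y : Fin N → TorOp d L) : KT 1 y 1 = op fun b => 1 + y b := by
  have h1 : KT 1 y 1 = ES 1 y 1 ∅ := by
    unfold KT ES
    refine Finset.sum_congr rfl fun F _ => ?_
    rw [if_pos, if_pos]
    · intro b hb
      exact absurd hb (Finset.notMem_empty b)
    · intro b
      unfold cnt
      refine (Finset.card_le_univ _).trans ?_
      simp
  rw [h1, ES_empty, pow_one]

lemma basis_contract (t : Site L → Fin d) :
    contract (K := Fin 1) (fun x i _ _ _ _ => if i = t x then (1 : ℂ) else 0) = Pi.single t 1 := by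
  funext s
  unfold contract
  rw [Finset.sum_const, Finset.sum_const, Finset.card_univ]
  simp only [Fintype.card_fun, Fintype.card_fin, one_pow, one_smul]
  rw [Pi.single_apply]
  split_ifs with h
  · apply Finset.prod_eq_one
    intro x _
    rw [if_pos (by rw [h])]
  · obtain ⟨x, hx⟩ := Function.ne_iff.1 h
    apply Finset.prod_eq_zero (mem_univ x)
    rw [if_neg hx]

end PRDp

open PRDp in
theorem t_PRD : S_PRD := by
  intro d R'
  refine ⟨Fintype.card (Fin 1 × (Fin (R' + 1) × Fin (R' + 1) → Lab d (R' + 1) 1 1)), ?_⟩
  intro p L _ N en s₀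
  obtain ⟨A, hA⟩ := peps_apply (K := Fin 1)
    (fun (x : Site L) i _ _ _ _ => if i = s₀ x then (1 : ℂ) else 0) 1 (p - 1) en 1 1
  rw [basis_contract, KT_one] at hA
  have h1 : (fun b => 1 + (1 : ℂ) • (term (p - 1) (en b) : TorOp d L)) =
      fun b => (term p (en b) : TorOp d L) := by
    funext b
    rw [one_smul, term_sub_one]
    abel
  rw [h1] at hA
  rw [hA]
  exact isPEPS_contract A

end SH947
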