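import Pool.Agent.R947.SH.Stm

/-! # SPC: spectral projection of the interaction -/

set_option autoImplicit false

open scoped BigOperators ComplexConjugate
open Finset Pool.Agent.TH235.PP

namespace SH947

namespace SpcAux

lemma sh_inj {R L : ℕ} [NeZero L] (hR : R ≤ L) (u : Site L) :
    Function.Injective (fun x : Fin R × Fin R => sh u x) := by
  have key : ∀ a b : Fin R, (((a : ℕ) : ZMod L) = ((b : ℕ) : ZMod L)) → a = b := by
    intro a b hab
    rw [ZMod.natCast_eq_natCast_iff', Nat.mod_eq_of_lt (lt_of_lt_of_le a.2 hR),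
      Nat.mod_eq_of_lt (lt_of_lt_of_le b.2 hR)] at hab
    exact Fin.ext hab
  intro x y hxy
  simp only [sh, Prod.mk.injEq, add_right_inj] at hxy
  exact Prod.ext (key _ _ hxy.1) (key _ _ hxy.2)

open Classical in
/-- extension of a configuration on the box -/
noncomputable def ex {d R L : ℕ} (u : Site L) (s : Site L → Fin d) (ρ : Fin R × Fin R → Fin d) :
    Site L → Fin d := fun v => if h : ∃ x : Fin R × Fin R, sh u x = v then ρ h.choose else s v

lemma ex_in {d R L : ℕ} [NeZero L] (hR : R ≤ L) (u : Site L) (s : Site L → Fin d)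
    (ρ : Fin R × Fin R → Fin d) (x : Fin R × Fin R) : ex u s ρ (sh u x) = ρ x := by
  have h : ∃ y : Fin R × Fin R, sh u y = sh u x := ⟨x, rfl⟩
  unfold ex
  rw [dif_pos h]
  congr 1
  exact sh_inj hR u h.choose_spec

lemma ex_out {d R L : ℕ} (u : Site L) (s : Site L → Fin d)
    (ρ : Fin R × Fin R → Fin d) (v : Site L) (hv : ∀ x : Fin R × Fin R, sh u x ≠ v) :
    ex u s ρ v = s v := by
  unfold ex
  rw [dif_neg]
  rintro ⟨x, hx⟩
  exact hv x hx

lemma ex_inj {d R L : ℕ} [NeZero L] (hR : R ≤ L) (u : Site L) (s : Site L → Fin d) :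
    Function.Injective (ex (R := R) u s) := by
  intro ρ ρ' h
  funext x
  rw [← ex_in hR u s ρ x, ← ex_in hR u s ρ' x, h]

lemma term_mul {d R L : ℕ} [NeZero L] (hR : R ≤ L) (a b : BoxOp d R) (u : Site L) :
    (term (a * b) u : TorOp d L) = term a u * term b u := by
  classical
  ext s t
  rw [Matrix.mul_apply]
  rw [← Fintype.sum_of_injective (ex (R := R) u s) (ex_inj hR u s)
    (fun ρ => (term a u : TorOp d L) s (ex u s ρ) * (term b u : TorOp d L) (ex u s ρ) t) _ ?_
    (fun _ => rfl)]
  · have e1 : ∀ ρ : Fin R × Fin R → Fin d,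
        (term a u : TorOp d L) s (ex u s ρ) = a (fun x => s (sh u x)) ρ := by
      intro ρ
      unfold term
      rw [if_pos]
      · congr 1
        funext x
        exact ex_in hR u s ρ x
      · intro v hv
        exact (ex_out u s ρ v hv).symm
    by_cases hc : ∀ v, (∀ x : Fin R × Fin R, sh u x ≠ v) → s v = t v
    · have e2 : ∀ ρ : Fin R × Fin R → Fin d,
          (term b u : TorOp d L) (ex u s ρ) t = b ρ (fun x => t (sh u x)) := by
        intro ρ
        unfold term
        rw [if_pos]
        · congr 1
          funext x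
          exact ex_in hR u s ρ x
        · intro v hv
          rw [ex_out u s ρ v hv]
          exact hc v hv
      simp only [e1, e2]
      unfold term
      rw [if_pos hc, Matrix.mul_apply]
    · have e2 : ∀ ρ : Fin R × Fin R → Fin d, (term b u : TorOp d L) (ex u s ρ) t = 0 := by
        intro ρ
        unfold term
        rw [if_neg]
        intro H
        apply hc
        intro v hv
        rw [← H v hv, ex_out u s ρ v hv]
      simp only [e2, mul_zero, Finset.sum_const_zero]
      unfold term
      rw [if_neg hc]
  · intro r hr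
    have : ¬ ∀ v, (∀ x : Fin R × Fin R, sh u x ≠ v) → s v = r v := by
      intro H
      apply hr
      refine ⟨fun x => r (sh u x), ?_⟩
      funext v
      by_cases hv : ∃ x : Fin R × Fin R, sh u x = v
      · obtain ⟨x, rfl⟩ := hv
        rw [ex_in hR]
      · push Not at hv
        rw [ex_out u s _ v hv]
        exact H v hv
    have e3 : (term a u : TorOp d L) s r = 0 := by
      unfold term
      rw [if_neg this]
    simp only [e3, zero_mul]

lemma term_one {d R L : ℕ} [NeZero L] (u : Site L) :
    (term (1 : BoxOp d R) u : TorOp d L) = 1 := by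
  classical
  ext s t
  unfold term
  rw [Matrix.one_apply, Matrix.one_apply]
  by_cases h : s = t
  · subst h
    simp
  · rw [if_neg h]
    by_cases hc : ∀ v, (∀ x : Fin R × Fin R, sh u x ≠ v) → s v = t v
    · rw [if_pos hc, if_neg]
      intro H
      apply h
      funext v
      by_cases hv : ∃ x : Fin R × Fin R, sh u x = v
      · obtain ⟨x, rfl⟩ := hv
        exact congrFun H x
      · push Not at hv
        exact hc v hv
    · rw [if_neg hc]

lemma term_add {d R L : ℕ} (a b : BoxOp d R) (u : Site L) :
    (term (a + b) u : TorOp d L) = term a u + term b u := by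
  ext s t
  rw [Matrix.add_apply]
  unfold term
  split_ifs <;> simp

lemma term_smul {d R L : ℕ} (c : ℂ) (a : BoxOp d R) (u : Site L) :
    (term (c • a) u : TorOp d L) = c • term a u := by
  ext s t
  rw [Matrix.smul_apply]
  unfold term
  split_ifs <;> simp

lemma term_ct {d R L : ℕ} (a : BoxOp d R) (u : Site L) :
    (term a.conjTranspose u : TorOp d L) = (term a u : TorOp d L).conjTranspose := by
  ext s t
  rw [Matrix.conjTranspose_apply]
  unfold term
  by_cases hc : ∀ v, (∀ x : Fin R × Fin R, sh u x ≠ v) → s v = t v
  · rw [if_pos hc, if_pos (fun v hv => (hc v hv).symm), Matrix.conjTranspose_apply]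
  · rw [if_neg hc, if_neg (fun H => hc fun v hv => (H v hv).symm), star_zero]

/-- `term` as an algebra homomorphism -/
noncomputable def termHom {d R L : ℕ} [NeZero L] (hR : R ≤ L) (u : Site L) :
    BoxOp d R →ₐ[ℂ] TorOp d L :=
  AlgHom.ofLinearMap
    { toFun := fun a => term a u
      map_add' := fun a b => term_add a b u
      map_smul' := fun c a => term_smul c a u }
    (term_one u) (fun a b => term_mul hR a b u)

lemma termHom_apply {d R L : ℕ} [NeZero L] (hR : R ≤ L) (u : Site L) (a : BoxOp d R) :
    termHom hR u a = term a u := rfl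

lemma term_aeval {d R L : ℕ} [NeZero L] (hR : R ≤ L) (u : Site L) (a : BoxOp d R)
    (q : Polynomial ℂ) :
    (term (Polynomial.aeval a q) u : TorOp d L) = Polynomial.aeval (term a u : TorOp d L) q := by
  have := Polynomial.aeval_algHom_apply (termHom hR u) a q
  rw [termHom_apply, termHom_apply] at this
  exact this.symm

lemma aeval_mulVec {X : Type} [Fintype X] [DecidableEq X] (A : Matrix X X ℂ) (ψ : X → ℂ) (μ : ℂ)
    (h : A.mulVec ψ = μ • ψ) (q : Polynomial ℂ) :
    (Polynomial.aeval A q).mulVec ψ = q.eval μ • ψ := by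
  induction q using Polynomial.induction_on' with
  | add p q hp hq => rw [map_add, Matrix.add_mulVec, hp, hq, Polynomial.eval_add, add_smul]
  | monomial n a =>
    rw [Polynomial.aeval_monomial, Polynomial.eval_monomial]
    have hp : ∀ n : ℕ, (A ^ n).mulVec ψ = μ ^ n • ψ := by
      intro n
      induction n with
      | zero => simp
      | succ n ih =>
        rw [pow_succ, ← Matrix.mulVec_mulVec, h, Matrix.mulVec_smul, ih, smul_smul, pow_succ,
          mul_comm]
    rw [← Matrix.mulVec_mulVec, hp, Algebra.algebraMap_eq_smul_one, Matrix.smul_mulVec,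
      Matrix.one_mulVec, smul_smul]

lemma aeval_comm {X : Type} [Fintype X] [DecidableEq X] (A B : Matrix X X ℂ)
    (h : A * B = B * A) (q : Polynomial ℂ) :
    A * Polynomial.aeval B q = Polynomial.aeval B q * A := by
  induction q using Polynomial.induction_on' with
  | add p q hp hq => rw [map_add, mul_add, add_mul, hp, hq]
  | monomial n a =>
    rw [Polynomial.aeval_monomial]
    have h1 : Commute A (B ^ n) := Commute.pow_right h n
    have h2 : Commute A (algebraMap ℂ (Matrix X X ℂ) a) := (Algebra.commutes a A).symm
    exact h2.mul_right h1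

end SpcAux

open SpcAux in
theorem t_SPC : S_SPC := by
  classical
  intro d R' h hh μ
  -- interpolation polynomial
  let S : Finset ℂ := insert μ (Finset.univ.image fun i => ((hh.eigenvalues i : ℝ) : ℂ))
  let q : Polynomial ℂ := Lagrange.interpolate S id (fun ν => if ν = μ then 1 else 0)
  have hq : ∀ ν ∈ S, q.eval ν = if ν = μ then 1 else 0 := by
    intro ν hν
    have := Lagrange.eval_interpolate_at_node (s := S) (v := id)
      (fun ν => if ν = μ then (1 : ℂ) else 0) (Set.injOn_id _) hν
    exact this
  have hqμ : q.eval μ = 1 := by rw [hq μ (Finset.mem_insert_self _ _), if_pos rfl]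
  let φ := Unitary.conjStarAlgAut ℂ _ hh.eigenvectorUnitary
  let v : (Fin (R' + 1) × Fin (R' + 1) → Fin d) → ℂ := fun i => ((hh.eigenvalues i : ℝ) : ℂ)
  let w : (Fin (R' + 1) × Fin (R' + 1) → Fin d) → ℂ := fun i => if v i = μ then 1 else 0
  have hsp : h = φ (Matrix.diagonal v) := hh.spectral_theorem
  have hp : Polynomial.aeval h q = φ (Matrix.diagonal w) := by
    have e1 : Polynomial.aeval (φ (Matrix.diagonal v)) q =
        φ (Polynomial.aeval (Matrix.diagonal v) q) :=
      Polynomial.aeval_algHom_apply φ (Matrix.diagonal v) q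
    have e2 : Polynomial.aeval (Matrix.diagonal v) q = Matrix.diagonal w := by
      have e3 := Polynomial.aeval_algHom_apply
        (Matrix.diagonalAlgHom (n := Fin (R' + 1) × Fin (R' + 1) → Fin d) (α := ℂ) ℂ) v q
      have e4 : Polynomial.aeval v q = w := by
        funext i
        have e5 := Polynomial.aeval_algHom_apply (Pi.evalAlgHom ℂ
          (fun _ : (Fin (R' + 1) × Fin (R' + 1) → Fin d) => ℂ) i) v q
        have e6 : Polynomial.aeval (v i) q = w i := by
          rw [Polynomial.coe_aeval_eq_eval, hq (v i) (Finset.mem_insert_of_mem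
            (Finset.mem_image_of_mem _ (Finset.mem_univ i)))]
        rw [← e6]
        exact e5.symm
      rw [e4] at e3
      exact e3
    rw [hsp, e1, e2]
  refine ⟨Polynomial.aeval h q, fun L _ hL => ⟨fun u => ?_, fun u => ?_, fun u ψ hψ => ?_,
    fun hc u v => ?_⟩⟩
  · have h1 : (Polynomial.aeval h q).conjTranspose = Polynomial.aeval h q := by
      rw [hp, ← Matrix.star_eq_conjTranspose, ← map_star]
      congr 1
      rw [Matrix.star_eq_conjTranspose, Matrix.diagonal_conjTranspose]
      congr 1
      funext i
      simp only [Pi.star_apply, w]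
      split_ifs <;> simp
    unfold Matrix.IsHermitian
    rw [← term_ct, h1]
  · have h1 : h * Polynomial.aeval h q = μ • Polynomial.aeval h q := by
      rw [hp]
      conv_lhs => rw [hsp]
      rw [← map_mul, ← map_smul]
      congr 1
      rw [Matrix.diagonal_mul_diagonal, ← Matrix.diagonal_smul]
      congr 1
      funext i
      simp only [Pi.smul_apply, w, smul_eq_mul]
      split_ifs with hi
      · rw [hi]
      · simp
    rw [← term_mul hL, h1, term_smul]
  · rw [term_aeval hL, aeval_mulVec _ _ _ hψ, hqμ, one_smul]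
  · rw [term_aeval hL]
    exact aeval_comm _ _ (hc u v) q

end SH947
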