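import Pool.Agent.R947.SH.Stm

/-!
TRM (helper718): the translates of a Weyl operator on the box are Weyl operators on the torus.
-/

set_option autoImplicit false

open scoped BigOperators ComplexConjugate
open Finset Pool.Agent.TH235.PP

namespace SH947

namespace TRMp

/-- the torus point of a box point -/
def cx {R : ℕ} (L : ℕ) (x : Fin R × Fin R) : Site L :=
  toT L (((x.1 : ℕ) : ℤ), ((x.2 : ℕ) : ℤ))

theorem sh_eq {R L : ℕ} (v : Site L) (x : Fin R × Fin R) : sh v x - v = cx L x := by
  unfold sh cx toT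
  ext
  · simp
  · simp

theorem cx_inj {R L : ℕ} [NeZero L] (h : R ≤ L) : Function.Injective (cx (R := R) L) := by
  intro x y hxy
  unfold cx toT at hxy
  have h1 := congrArg Prod.fst hxy
  have h2 := congrArg Prod.snd hxy
  simp only [Int.cast_natCast] at h1 h2
  rw [ZMod.natCast_eq_natCast_iff', Nat.mod_eq_of_lt (lt_of_lt_of_le x.1.2 h),
    Nat.mod_eq_of_lt (lt_of_lt_of_le y.1.2 h)] at h1
  rw [ZMod.natCast_eq_natCast_iff', Nat.mod_eq_of_lt (lt_of_lt_of_le x.2.2 h),
    Nat.mod_eq_of_lt (lt_of_lt_of_le y.2.2 h)] at h2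
  exact Prod.ext (Fin.ext h1) (Fin.ext h2)

theorem pj_lat {A : Type} [AddCommGroup A] {R : ℕ} (L : ℕ) (b : Fin R × Fin R → Lb A)
    (y : Site L) : pj L (lat b) y = ∑ x : Fin R × Fin R, (Finsupp.single (cx L x) (b x)) y := by
  unfold pj lat
  rw [Finsupp.mapDomain_finsetSum, Finsupp.finsetSum_apply]
  refine Finset.sum_congr rfl fun x _ => ?_
  rw [Finsupp.mapDomain_single]
  rfl

theorem pj_in {A : Type} [AddCommGroup A] {R L : ℕ} [NeZero L] (h : R ≤ L)
    (b : Fin R × Fin R → Lb A) (x : Fin R × Fin R) : pj L (lat b) (cx L x) = b x := by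
  classical
  rw [pj_lat, Finset.sum_eq_single x]
  · rw [Finsupp.single_eq_same]
  · intro y _ hy
    rw [Finsupp.single_apply, if_neg (fun h' => hy (cx_inj h h'))]
  · intro hx
    exact absurd (mem_univ _) hx

theorem pj_out {A : Type} [AddCommGroup A] {R L : ℕ}
    (b : Fin R × Fin R → Lb A) (y : Site L) (hy : ∀ x : Fin R × Fin R, cx L x ≠ y) :
    pj L (lat b) y = 0 := by
  classical
  rw [pj_lat]
  refine Finset.sum_eq_zero fun x _ => ?_
  rw [Finsupp.single_apply, if_neg (hy x)]

theorem w1_zero {A : Type} [AddCommGroup A] {d : ℕ} (e : Fin d ≃ A) (a b : Fin d) :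
    w1 e (0 : Lb A) a b = if a = b then 1 else 0 := by
  unfold w1
  by_cases h : a = b
  · subst h
    rw [if_pos rfl, if_pos (by simp)]
    simp
  · rw [if_neg h, if_neg]
    intro h'
    apply h
    have : e b = e a := by simpa using h'
    exact (e.injective this).symm

end TRMp

open TRMp in
theorem t_TRM : S_TRM := by
  intro A _ _ d e R' L _ hRL b v
  have hinj : Function.Injective (sh (R := R' + 1) v) := by
    intro x y hxy
    apply cx_inj hRL
    rw [← sh_eq v x, ← sh_eq v y, hxy]
  ext s t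
  unfold term weyl
  by_cases hc : ∀ y, (∀ x : Fin (R' + 1) × Fin (R' + 1), sh v x ≠ y) → s y = t y
  · rw [if_pos hc]
    unfold tp
    refine Fintype.prod_of_injective (sh (R := R' + 1) v) hinj _ _ ?_ ?_
    · intro y hy
      have hy' : ∀ x : Fin (R' + 1) × Fin (R' + 1), sh v x ≠ y := fun x hx => hy ⟨x, hx⟩
      show w1 e (pj L (lat b) (y - v)) (s y) (t y) = 1
      rw [pj_out b (y - v) (fun x hx => hy' x (by rw [← sub_left_inj (a := v), sh_eq, hx])),
        w1_zero, if_pos (hc y hy')]
    · intro x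
      show w1 e (b x) (s (sh v x)) (t (sh v x)) =
        w1 e (pj L (lat b) (sh v x - v)) (s (sh v x)) (t (sh v x))
      rw [sh_eq, pj_in hRL]
  · rw [if_neg hc]
    push Not at hc
    obtain ⟨y, hy, hst⟩ := hc
    unfold tp
    symm
    apply Finset.prod_eq_zero (mem_univ y)
    show w1 e (pj L (lat b) (y - v)) (s y) (t y) = 0
    rw [pj_out b (y - v) (fun x hx => hy x (by rw [← sub_left_inj (a := v), sh_eq, hx])),
      w1_zero, if_neg hst]

end SH947
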