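import Pool.Agent.R947.SH.Stm

set_option autoImplicit false

open scoped BigOperators ComplexConjugate
open Finset Pool.Agent.TH235.PP

namespace SH947

theorem t_UNQ (hW : S_WEY) : S_UNQ := by
  intro A _ _ X _ _ d e T ψ lam hT hψ hlam huniq u hu
  classical
  obtain ⟨hmul, hone, htr, hunit, hnorm, hl, hr⟩ := hW A X d e
  have hb0 : ∀ a b : X → Lb A, betX a b ≠ 0 := by
    intro a b h
    have := hnorm a b
    rw [h, norm_zero] at this
    norm_num at this
  have hz1 : ∀ w : X → Lb A, betX 0 w = 1 := by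
    intro w
    have h := hl 0 0 w
    rw [add_zero] at h
    exact (mul_right_eq_self₀.1 h.symm).resolve_right (hb0 _ _)
  have hz2 : ∀ w : X → Lb A, betX w 0 = 1 := by
    intro w
    have h := hr w 0 0
    rw [add_zero] at h
    exact (mul_right_eq_self₀.1 h.symm).resolve_right (hb0 _ _)
  -- commuting with T implies commuting with the closure
  have hcl : ∀ v : X → Lb A, (∀ g ∈ T, betX v g = betX g v) →
      ∀ g ∈ AddSubgroup.closure T, betX v g = betX g v := by
    intro v hv g hg
    induction hg using AddSubgroup.closure_induction with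
    | mem x hx => exact hv x hx
    | zero => rw [hz1, hz2]
    | add x y _ _ hx hy => rw [hr, hl, hx, hy]
    | neg x _ hx =>
      have h1 := hr v x (-x)
      have h2 := hl x (-x) v
      rw [add_neg_cancel, hz2] at h1
      rw [add_neg_cancel, hz1] at h2
      have h3 : betX v x * betX v (-x) = betX v x * betX (-x) v := by
        rw [← h1, hx, ← h2]
      exact mul_left_cancel₀ (hb0 _ _) h3
  have hS : ∀ a ∈ AddSubgroup.closure T, ∀ b ∈ AddSubgroup.closure T, betX a b = betX b a := by
    intro a ha b hb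
    apply hcl a _ b hb
    intro g hg
    exact (hcl g (fun g' hg' => hT g hg g' hg') a ha).symm
  -- injectivity
  have hinj : ∀ (v : X → Lb A) (φ : (X → Fin d) → ℂ), (weyl e v).mulVec φ = 0 → φ = 0 := by
    intro v φ h
    have h1 : ((weyl e v).conjTranspose * weyl e v).mulVec φ = 0 := by
      rw [← Matrix.mulVec_mulVec, h, Matrix.mulVec_zero]
    rwa [hunit, Matrix.one_mulVec] at h1
  have hev : ∀ g ∈ AddSubgroup.closure T, ∃ z : ℂ, (weyl e g).mulVec ψ = z • ψ := by
    intro g hg
    induction hg using AddSubgroup.closure_induction with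
    | mem x hx => exact ⟨_, hlam x hx⟩
    | zero => exact ⟨1, by rw [hone, Matrix.one_mulVec, one_smul]⟩
    | add x y _ _ hx hy =>
      obtain ⟨z, hz⟩ := hx
      obtain ⟨z', hz'⟩ := hy
      refine ⟨(betX x y)⁻¹ * (z' * z), ?_⟩
      have h1 : weyl e (x + y) = (betX x y)⁻¹ • (weyl e x * weyl e y) := by
        rw [hmul, smul_smul, inv_mul_cancel₀ (hb0 _ _), one_smul]
      rw [h1, Matrix.smul_mulVec, ← Matrix.mulVec_mulVec, hz', Matrix.mulVec_smul, hz,
        smul_smul, smul_smul, mul_assoc]
    | neg x _ hx =>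
      obtain ⟨z, hz⟩ := hx
      have hz0 : z ≠ 0 := by
        intro h
        rw [h, zero_smul] at hz
        exact hψ (hinj _ _ hz)
      refine ⟨z⁻¹ * betX (-x) x, ?_⟩
      have h1 := hmul (-x) x
      rw [neg_add_cancel, hone] at h1
      have h2 : (weyl e (-x)).mulVec ((weyl e x).mulVec ψ) = betX (-x) x • ψ := by
        rw [Matrix.mulVec_mulVec, h1, Matrix.smul_mulVec, Matrix.one_mulVec]
      rw [hz, Matrix.mulVec_smul] at h2
      rw [mul_smul, ← h2, smul_smul, inv_mul_cancel₀ hz0, one_smul]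
  choose! s hs using hev
  have hs0 : ∀ g ∈ AddSubgroup.closure T, s g ≠ 0 := by
    intro g hg h
    have := hs g hg
    rw [h, zero_smul] at this
    exact hψ (hinj _ _ this)
  have hcan : ∀ a b : ℂ, a • ψ = b • ψ → a = b := by
    intro a b h
    by_contra hne
    have h1 : (a - b) • ψ = 0 := by rw [sub_smul, h, sub_self]
    rcases smul_eq_zero.1 h1 with h2 | h2
    · exact hne (sub_eq_zero.1 h2)
    · exact hψ h2
  have hsadd : ∀ t ∈ AddSubgroup.closure T, ∀ g ∈ AddSubgroup.closure T,
      s t * s g = betX t g * s (t + g) := by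
    intro t ht g hg
    apply hcan
    have h1 : (weyl e t * weyl e g).mulVec ψ = (s t * s g) • ψ := by
      rw [← Matrix.mulVec_mulVec, hs g hg, Matrix.mulVec_smul, hs t ht, smul_smul, mul_comm]
    rw [← h1, hmul, Matrix.smul_mulVec, hs _ (add_mem ht hg), smul_smul]
  let S := AddSubgroup.closure T
  haveI : Fintype S := Fintype.ofFinite S
  let P : Matrix (X → Fin d) (X → Fin d) ℂ := ∑ g : S, (s g)⁻¹ • weyl e (g : X → Lb A)
  have hUP : ∀ t ∈ S, weyl e t * P = s t • P := by
    intro t ht
    simp only [P]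
    rw [Finset.mul_sum, Finset.smul_sum]
    rw [← Equiv.sum_comp (Equiv.addLeft (⟨t, ht⟩ : S))
      (fun g : S => s t • ((s g)⁻¹ • weyl e (g : X → Lb A)))]
    apply Finset.sum_congr rfl
    intro g _
    show weyl e t * ((s g)⁻¹ • weyl e (g : X → Lb A)) =
      s t • ((s (t + (g : X → Lb A)))⁻¹ • weyl e (t + (g : X → Lb A)))
    rw [Matrix.mul_smul, hmul, smul_smul, smul_smul]
    congr 1
    have h1 := hsadd t ht g g.2
    have h2 := hs0 g g.2
    have h3 := hs0 _ (add_mem ht g.2)
    field_simp
    linear_combination -h1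
  have hPφ : ∀ φ : (X → Fin d) → ℂ, ∃ c : ℂ, P.mulVec φ = c • ψ := by
    intro φ
    apply huniq
    intro g hg
    have hgS : g ∈ S := AddSubgroup.subset_closure hg
    rw [Matrix.mulVec_mulVec, hUP g hgS, Matrix.smul_mulVec]
    congr 1
    apply hcan
    rw [← hs g hgS, hlam g hg]
  obtain ⟨cu, hcu⟩ := huniq ((weyl e u).mulVec ψ) (by
    intro g hg
    rw [Matrix.mulVec_mulVec, hmul, ← hu g hg, add_comm, ← hmul, ← Matrix.mulVec_mulVec,
      hlam g hg, Matrix.mulVec_smul])
  have hcu0 : cu ≠ 0 := by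
    intro h
    rw [h, zero_smul] at hcu
    exact hψ (hinj _ _ hcu)
  have hmat : weyl e u * P = cu • P := by
    apply Matrix.toLin'.injective
    apply LinearMap.ext
    intro φ
    rw [Matrix.toLin'_apply, Matrix.toLin'_apply]
    obtain ⟨c, hc⟩ := hPφ φ
    rw [← Matrix.mulVec_mulVec, Matrix.smul_mulVec, hc, Matrix.mulVec_smul, hcu, smul_smul,
      smul_smul, mul_comm]
  by_contra hnot
  have htrace := congrArg Matrix.trace hmat
  have hL : (weyl e u * P).trace = 0 := by
    simp only [P]
    rw [Finset.mul_sum, Matrix.trace_sum]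
    apply Finset.sum_eq_zero
    intro g _
    rw [Matrix.mul_smul, hmul, Matrix.trace_smul, Matrix.trace_smul, htr, smul_zero, smul_zero]
    intro h
    apply hnot
    have : u = -(g : X → Lb A) := eq_neg_of_add_eq_zero_left h
    rw [this]
    exact neg_mem g.2
  have hR : P.trace = (s 0)⁻¹ * (Fintype.card (X → Fin d) : ℂ) := by
    simp only [P]
    rw [Matrix.trace_sum, Finset.sum_eq_single (0 : S)]
    · rw [Matrix.trace_smul]
      show (s 0)⁻¹ • (weyl e (0 : X → Lb A)).trace = _
      rw [hone, Matrix.trace_one, smul_eq_mul]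
    · intro g _ hg
      rw [Matrix.trace_smul, htr, smul_zero]
      intro h
      apply hg
      exact Subtype.ext h
    · intro h
      exact absurd (mem_univ _) h
  rw [hL, Matrix.trace_smul, hR, smul_eq_mul] at htrace
  have hne : Nonempty (X → Fin d) := by
    by_contra hno
    apply hψ
    funext x
    exact absurd ⟨x⟩ hno
  have h1 : (Fintype.card (X → Fin d) : ℂ) ≠ 0 := by
    exact_mod_cast Fintype.card_ne_zero
  have h2 : (s 0)⁻¹ ≠ 0 := inv_ne_zero (hs0 0 (zero_mem _))
  exact (mul_ne_zero hcu0 (mul_ne_zero h2 h1)) htrace.symm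

end SH947
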