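import Pool.Agent.R947.SH.Stm

set_option autoImplicit false

open scoped BigOperators ComplexConjugate
open Finset Pool.Agent.TH235.PP

namespace SH947

section
variable {A : Type} [AddCommGroup A] {d : ℕ} (e : Fin d ≃ A)

theorem w1_mul (k k' : Lb A) : w1 e k * w1 e k' = (k'.2 k.1) • w1 e (k + k') := by
  ext a b
  rw [Matrix.mul_apply, Matrix.smul_apply]
  unfold w1
  rw [Finset.sum_eq_single (e.symm (e a + k.1))]
  · have hc : e (e.symm (e a + k.1)) = e a + k.1 := e.apply_symm_apply _
    generalize e.symm (e a + k.1) = c at hc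
    rw [if_pos hc]
    by_cases h : e b = e c + k'.1
    · rw [if_pos h, if_pos (by rw [h, hc, Prod.fst_add, add_assoc]), hc, smul_eq_mul,
        Prod.snd_add, AddChar.add_apply, AddChar.map_add_eq_mul]
      ring
    · rw [if_neg h, if_neg (by rw [Prod.fst_add, ← add_assoc, ← hc]; exact h)]
      simp
  · intro c _ hc
    rw [if_neg, zero_mul]
    intro h
    apply hc
    rw [← h, Equiv.symm_apply_apply]
  · intro h
    exact absurd (mem_univ _) h

theorem w1_zero : w1 e (0 : Lb A) = 1 := by
  ext a b
  unfold w1
  rw [Matrix.one_apply]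
  by_cases h : a = b
  · subst h; simp
  · rw [if_neg h, if_neg]
    intro h'
    apply h
    apply e.injective
    rw [h']; simp

theorem w1_trace [Fintype A] (k : Lb A) (hk : k ≠ 0) : (w1 e k).trace = 0 := by
  classical
  show ∑ x, w1 e k x x = 0
  unfold w1
  by_cases h : k.1 = 0
  · have h2 : k.2 ≠ 0 := by
      intro h2
      apply hk
      exact Prod.ext h h2
    have h3 : ∑ x : Fin d, (if e x = e x + k.1 then k.2 (e x) else 0) = ∑ x : Fin d, k.2 (e x) := by
      apply Finset.sum_congr rfl
      intro x _
      rw [h, if_pos (by simp)]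
    rw [h3, Equiv.sum_comp e (fun s => k.2 s)]
    exact AddChar.sum_eq_zero_iff_ne_zero.2 h2
  · apply Finset.sum_eq_zero
    intro x _
    rw [if_neg]
    intro h'
    apply h
    exact (left_eq_add.1 h')

theorem w1_unit [Fintype A] (k : Lb A) : (w1 e k).conjTranspose * w1 e k = 1 := by
  ext a b
  rw [Matrix.mul_apply, Matrix.one_apply]
  simp only [Matrix.conjTranspose_apply]
  unfold w1
  rw [Finset.sum_eq_single (e.symm (e a - k.1))]
  · have hc : e (e.symm (e a - k.1)) = e a - k.1 := e.apply_symm_apply _
    generalize e.symm (e a - k.1) = c at hc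
    have hc' : e a = e c + k.1 := by rw [hc]; simp
    rw [if_pos hc']
    by_cases h : a = b
    · subst h
      rw [if_pos rfl, if_pos hc']
      have h1 : ‖k.2 (e c)‖ = 1 := AddChar.norm_apply _ _
      have h2 := Complex.conj_mul' (k.2 (e c))
      rw [h1] at h2
      simpa using h2
    · rw [if_neg h, if_neg, mul_zero]
      intro h'
      exact h (e.injective (hc'.trans h'.symm))
  · intro c _ hc
    rw [if_neg, star_zero, zero_mul]
    intro h
    apply hc
    rw [h]; simp
  · intro h
    exact absurd (mem_univ _) h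

end

theorem tp_smul {V : Type} [Fintype V] {d : ℕ} (c : V → ℂ) (a : V → Matrix (Fin d) (Fin d) ℂ) :
    tp (fun x => c x • a x) = (∏ x, c x) • tp a := by
  ext s t
  rw [Matrix.smul_apply]
  unfold tp
  simp only [Matrix.smul_apply, smul_eq_mul]
  rw [Finset.prod_mul_distrib]

theorem t_WEY : S_WEY := by
  intro A _ _ X _ _ d e
  refine ⟨?_, ?_, ?_, ?_, ?_, ?_, ?_⟩
  · intro u w
    unfold weyl betX
    rw [tp_mul, ← tp_smul]
    congr 1
    funext x
    exact w1_mul e (u x) (w x)
  · unfold weyl
    simp only [Pi.zero_apply, w1_zero]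
    exact tp_one
  · intro u hu
    obtain ⟨x, hx⟩ := Function.ne_iff.1 hu
    have h1 : (weyl e u).trace = ∏ x, (w1 e (u x)).trace := by
      show ∑ s : X → Fin d, ∏ x, w1 e (u x) (s x) (s x) = ∏ x, ∑ a, w1 e (u x) a a
      rw [Finset.prod_univ_sum, Fintype.piFinset_univ]
    rw [h1]
    exact Finset.prod_eq_zero (mem_univ x) (w1_trace e _ hx)
  · intro u
    have h1 : (weyl e u).conjTranspose = tp (fun x => (w1 e (u x)).conjTranspose) := by
      ext s t
      rw [Matrix.conjTranspose_apply]
      unfold weyl tp
      simp only [Matrix.conjTranspose_apply]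
      rw [star_prod]
    rw [h1]
    unfold weyl
    rw [tp_mul]
    simp only [w1_unit]
    exact tp_one
  · intro u w
    unfold betX
    rw [norm_prod]
    exact Finset.prod_eq_one fun x _ => AddChar.norm_apply _ _
  · intro u u' w
    unfold betX
    rw [← Finset.prod_mul_distrib]
    apply Finset.prod_congr rfl
    intro x _
    rw [Pi.add_apply, Prod.fst_add, AddChar.map_add_eq_mul]
  · intro u w w'
    unfold betX
    rw [← Finset.prod_mul_distrib]
    apply Finset.prod_congr rfl
    intro x _
    rw [Pi.add_apply, Prod.snd_add, AddChar.add_apply]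

end SH947
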