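import Pool.Agent.R947.SH.Main2
import Pool.Agent.R947.SH.ALG
import Pool.Agent.R947.SH.LAT
import Pool.Agent.R947.SH.WEY
import Pool.Agent.R947.SH.UNQ
import Pool.Agent.R947.SH.LOC
import Pool.Agent.R947.SH.TRM
import Pool.Agent.R947.SH.EXP
import Pool.Agent.R947.SH.EVN
import Pool.Agent.R947.SH.PRD
import Pool.Agent.R947.SH.TRI
import Pool.Agent.R947.SH.SPC
import Pool.Agent.R947.SH.CPE

/-! # The pieces of the first stage -/

set_option autoImplicit false

namespace SH947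

theorem T_WEY : S_WEY := t_WEY
theorem T_LAT : S_LAT := t_LAT t_ALG
theorem T_UNQ : S_UNQ := t_UNQ t_WEY
theorem T_LOC : S_LOC := t_LOC
theorem T_TRM : S_TRM := t_TRM
theorem T_EXP : S_EXP := t_EXP t_WEY
theorem T_EVN : S_EVN := t_EVN t_WEY T_UNQ t_LOC T_LAT
theorem T_CPE : S_CPE := t_CPE t_PRD t_TRI t_SPC

end SH947
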