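import Mathlib
import Pool.Agent.TH235.PP.Asm

/-!
# Weyl operators on lattices and tori, stabilizer Hamiltonians
-/

set_option autoImplicit false

open scoped BigOperators ComplexConjugate
open Finset Pool.Agent.TH235.PP

namespace SH947

/-- Labels of the one-site Weyl operators of the finite abelian group `A`: a shift and a
character. -/
abbrev Lb (A : Type) [AddCommGroup A] : Type := A × AddChar A ℂ

open Classical in
/-- The one-site Weyl operator `(a, χ)`: `f ↦ (s ↦ χ(s) f(s + a))`; the basis states are labelled by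
the elements of `A` through `e`. -/
noncomputable def w1 {A : Type} [AddCommGroup A] {d : ℕ} (e : Fin d ≃ A) (k : Lb A) :
    Matrix (Fin d) (Fin d) ℂ :=
  fun a b => if e b = e a + k.1 then k.2 (e a) else 0

/-- The Weyl operator with the label `u x` at the site `x`: the tensor product of the one-site
operators. -/
noncomputable def weyl {A : Type} [AddCommGroup A] {X : Type} [Fintype X] {d : ℕ} (e : Fin d ≃ A)
    (u : X → Lb A) : Matrix (X → Fin d) (X → Fin d) ℂ := tp fun x => w1 e (u x)

/-- Labels of the Weyl operators on `ℤ²` of finite support. -/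
abbrev VV (A : Type) [AddCommGroup A] : Type := (ℤ × ℤ) →₀ Lb A

/-- The point of the torus below a lattice point. -/
def toT (L : ℕ) (p : ℤ × ℤ) : Site L := ((p.1 : ZMod L), (p.2 : ZMod L))

/-- The translate by `v`. -/
noncomputable def tr {A : Type} [AddCommGroup A] (v : ℤ × ℤ) (u : VV A) : VV A :=
  u.mapDomain (fun p => p + v)

/-- The label on the torus below a label on `ℤ²`. -/
noncomputable def pj {A : Type} [AddCommGroup A] (L : ℕ) (u : VV A) : Site L → Lb A :=
  ⇑(u.mapDomain (toT L))

/-- The factor in `W(u) W(w) = bet u w • W(u + w)`, on `ℤ²`. -/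
noncomputable def bet {A : Type} [AddCommGroup A] (u w : VV A) : ℂ :=
  ∏ p ∈ u.support, (w p).2 (u p).1

/-- The factor in `W(u) W(w) = betX u w • W(u + w)`, on a finite set of sites. -/
noncomputable def betX {A : Type} [AddCommGroup A] {X : Type} [Fintype X] (u w : X → Lb A) : ℂ :=
  ∏ x, (w x).2 (u x).1

/-- The label on `ℤ²` of a label on the box. -/
noncomputable def lat {A : Type} [AddCommGroup A] {R : ℕ} (b : Fin R × Fin R → Lb A) : VV A :=
  ∑ x : Fin R × Fin R, Finsupp.single (((x.1 : ℕ) : ℤ), ((x.2 : ℕ) : ℤ)) (b x)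

/-- The label on `ℤ²` of a label on a finite region. -/
noncomputable def lax {A : Type} [AddCommGroup A] {R : Finset (ℤ × ℤ)} (b : R → Lb A) : VV A :=
  ∑ p : R, Finsupp.single (p : ℤ × ℤ) (b p)

/-- `⟨φ, ψ⟩` -/
noncomputable def ipr {S : Type} [Fintype S] (φ ψ : S → ℂ) : ℂ := ∑ s, conj (φ s) * ψ s

end SH947
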