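import Pool.Agent.R947.SH.Stm
import Pool.Agent.Y738.PE.Stm

/-! # Statement of the piece EXP of project SH (MP_0f69bf_mp) -/

set_option autoImplicit false

open scoped BigOperators ComplexConjugate
open Finset

namespace SH947

/-- EXP: expectations of operators on a finite region in terms of Weyl operators. -/
def S_EXP : Prop :=
  ∀ (A : Type) [AddCommGroup A] [Fintype A] (d : ℕ) (e : Fin d ≃ A) (R : Finset (ℤ × ℤ)),
    ∃ (r : ℕ) (coef : ((R → Fin d) → (R → Fin d) → ℂ) → (R → Lb A) → ℂ),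
      ∀ (L : ℕ) [NeZero L], r ≤ L → ∀ (Ψ : Pool.Agent.Y738.PE.Conf d L → ℂ)
        (v : Pool.Agent.TH235.PP.Site L) (B : (R → Fin d) → (R → Fin d) → ℂ),
        Pool.Agent.Y738.PE.expecR R Ψ v B =
          ∑ w : R → Lb A, coef B w *
            ipr Ψ ((weyl e (fun y => pj L (lax w) (y - v))).mulVec Ψ)

end SH947
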