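import Pool.Agent.R947.SH.TI
import Pool.Agent.R947.SH.Stm2
import Pool.Agent.Y738.PE.Glob3

/-! # Assembly of project SH -/

set_option autoImplicit false

open scoped BigOperators ComplexConjugate
open Finset Pool.Agent.TH235.PP

namespace SH947

section a

variable {A : Type} [AddCommGroup A]

lemma betX_shift {L : ℕ} [NeZero L] (u w : Site L → Lb A) (v : Site L) :
    betX (fun x => u (x - v)) (fun x => w (x - v)) = betX u w := by
  unfold betX
  exact Fintype.prod_equiv (Equiv.subRight v) _ _ fun x => rfl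

lemma term_lin {d R L : ℕ} {ι : Type} [Fintype ι] (c : ι → ℂ) (b : ι → BoxOp d R)
    (u : Site L) : (term (∑ i, c i • b i) u : TorOp d L) = ∑ i, c i • term (b i) u := by
  classical
  ext s t
  rw [Matrix.sum_apply]
  simp only [Matrix.smul_apply]
  unfold term
  by_cases hc : ∀ v, (∀ x : Fin R × Fin R, sh u x ≠ v) → s v = t v
  · simp only [if_pos hc]
    rw [Matrix.sum_apply]
    simp only [Matrix.smul_apply]
  · simp only [if_neg hc]
    simp

end a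

section comm

variable {A : Type} [AddCommGroup A] [Fintype A] {d R' : ℕ}

lemma comm_torus (hW : S_WEY) (hL : S_LOC) (hT : S_TRM) (e : Fin d ≃ A) {ι : Type} [Fintype ι]
    (b : ι → Fin (R' + 1) × Fin (R' + 1) → Lb A)
    (hc : ∀ (i j : ι) (v : ℤ × ℤ), bet (lat (b i)) (tr v (lat (b j))) =
      bet (tr v (lat (b j))) (lat (b i))) :
    ∃ L₁ : ℕ, ∀ (L : ℕ) [NeZero L], L₁ ≤ L → ∀ (i j : ι) (u v : Site L),
      (term (weyl e (b i)) u : TorOp d L) * term (weyl e (b j)) v =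
        term (weyl e (b j)) v * term (weyl e (b i)) u := by
  obtain ⟨_, _, _, h4⟩ := hL A
  have h5 : ∀ i j : ι, ∃ L₁ : ℕ, ∀ (L : ℕ) [NeZero L], L₁ ≤ L → ∀ y : Site L,
      betX (pj L (lat (b i))) (fun x => pj L (lat (b j)) (x - y)) =
        betX (fun x => pj L (lat (b j)) (x - y)) (pj L (lat (b i))) :=
    fun i j => h4 _ _ (hc i j)
  choose L₁ hL₁ using h5
  refine ⟨(∑ i, ∑ j, L₁ i j) + R' + 1, fun L _ hLL i j u v => ?_⟩
  have h6 : L₁ i j ≤ L := by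
    have k1 : L₁ i j ≤ ∑ j, L₁ i j := Finset.single_le_sum (fun _ _ => Nat.zero_le _) (mem_univ j)
    have k2 : ∑ j, L₁ i j ≤ ∑ i, ∑ j, L₁ i j :=
      Finset.single_le_sum (f := fun i => ∑ j, L₁ i j) (fun _ _ => Nat.zero_le _) (mem_univ i)
    omega
  have h7 := hL₁ i j L h6 (v - u)
  obtain ⟨hm, _⟩ := hW A (Site L) d e
  have k3 : (fun y : Site L => pj L (lat (b j)) (y - v)) =
      fun y => (fun x => pj L (lat (b j)) (x - (v - u))) (y - u) := by
    funext y; simp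
  have key : betX (fun y : Site L => pj L (lat (b i)) (y - u))
      (fun y : Site L => pj L (lat (b j)) (y - v)) =
      betX (fun y : Site L => pj L (lat (b j)) (y - v))
        (fun y : Site L => pj L (lat (b i)) (y - u)) := by
    rw [k3, betX_shift (pj L (lat (b i))) (fun x => pj L (lat (b j)) (x - (v - u))),
      betX_shift (fun x => pj L (lat (b j)) (x - (v - u))) (pj L (lat (b i))), h7]
  rw [hT A d e R' L (by omega) (b i) u, hT A d e R' L (by omega) (b j) v, hm, hm, key,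
    add_comm (fun y : Site L => pj L (lat (b i)) (y - u))
      (fun y : Site L => pj L (lat (b j)) (y - v))]

end comm

section eff

open Pool.Agent.Y738.PE in
lemma eff_of {d : ℕ} (hd : 2 ≤ d) (R : Finset (ℤ × ℤ)) (ψ : ∀ L : ℕ, Conf d L → ℂ)
    (hP : PolyConv R ψ) (f L₂ : ℕ)
    (hf : ∀ (L : ℕ) [NeZero L], L₂ ≤ L → ψ L ≠ 0 ∧ IsPEPS f (ψ L)) : EffAll R ψ := by
  obtain ⟨r, hr, _, h2⟩ := both d hd R
  refine (h2 ψ hP).1 ?_
  obtain ⟨c, k, hck⟩ := hP
  refine ⟨16 * r + c + f + L₂ + 3, k + 1, ?_⟩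
  intro ε hε hε1
  have hx1 : (1 : ℝ) ≤ 1 / ε := by rw [le_div_iff₀ hε]; linarith
  set x : ℝ := 1 / ε with hx
  have hxk : (1 : ℝ) ≤ x ^ k := one_le_pow₀ hx1
  have hxk1 : x ^ k ≤ x ^ (k + 1) := pow_le_pow_right₀ hx1 (Nat.le_succ k)
  have hxk2 : x ≤ x ^ (k + 1) := by
    calc x = x ^ 1 := (pow_one x).symm
      _ ≤ x ^ (k + 1) := pow_le_pow_right₀ hx1 (by omega)
  have hxk3 : (1 : ℝ) ≤ x ^ (k + 1) := one_le_pow₀ hx1
  set m : ℕ := ⌈((16 * r : ℕ) : ℝ) / ε⌉₊ + ⌈(c : ℝ) * x ^ k⌉₊ + L₂ + 1 with hm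
  have hi : NeZero m := ⟨by omega⟩
  obtain ⟨hne, C, hC⟩ := hf m (by omega)
  have hC' : pepsN C = ψ m := by rw [hC]; rfl
  refine ⟨m, hi, f, C, ?_, ?_, ?_, ?_, ?_⟩
  · have := Nat.le_ceil (((16 * r : ℕ) : ℝ) / ε)
    rw [hm]; push_cast at this ⊢
    have h0 : (0 : ℝ) ≤ ⌈(c : ℝ) * x ^ k⌉₊ := Nat.cast_nonneg _
    have h1 : (0 : ℝ) ≤ L₂ := Nat.cast_nonneg _
    linarith
  · have k1 := (Nat.ceil_lt_add_one (show (0 : ℝ) ≤ ((16 * r : ℕ) : ℝ) / ε by positivity)).le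
    have k2 := (Nat.ceil_lt_add_one (show (0 : ℝ) ≤ (c : ℝ) * x ^ k by positivity)).le
    have k3 : ((16 * r : ℕ) : ℝ) / ε = ((16 * r : ℕ) : ℝ) * x := by rw [hx]; ring
    rw [k3] at k1
    have k4 : ((16 * r : ℕ) : ℝ) * x ≤ ((16 * r : ℕ) : ℝ) * x ^ (k + 1) :=
      mul_le_mul_of_nonneg_left hxk2 (Nat.cast_nonneg _)
    have k5 : (c : ℝ) * x ^ k ≤ c * x ^ (k + 1) :=
      mul_le_mul_of_nonneg_left hxk1 (Nat.cast_nonneg _)
    have k6 : (L₂ : ℝ) ≤ L₂ * x ^ (k + 1) := by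
      have : (0 : ℝ) ≤ L₂ := Nat.cast_nonneg _
      nlinarith
    have k7 : (0 : ℝ) ≤ f * x ^ (k + 1) := by positivity
    rw [hm, k3]
    push_cast at k1 k2 k4 ⊢
    nlinarith
  · have k7 : (f : ℝ) ≤ f * x ^ (k + 1) := by
      have : (0 : ℝ) ≤ f := Nat.cast_nonneg _
      nlinarith
    have k8 : (0 : ℝ) ≤ (16 * r + c + L₂ + 3) * x ^ (k + 1) := by positivity
    push_cast
    nlinarith
  · rw [hC']
    obtain ⟨s, hs⟩ := Function.ne_iff.1 hne
    have : 0 < nrm (ψ m) := by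
      unfold nrm
      exact Finset.sum_pos' (fun _ _ => by positivity) ⟨s, mem_univ _, by
        have : 0 < ‖ψ m s‖ := norm_pos_iff.2 hs
        positivity⟩
    exact this.ne'
  · rw [hC']
    refine hck ε hε hε1 m m ?_ ?_ <;>
    · have := Nat.le_ceil ((c : ℝ) * x ^ k)
      rw [hm]; push_cast
      have h0 : (0 : ℝ) ≤ (⌈((16 * r : ℕ) : ℝ) / ε⌉₊ : ℝ) := Nat.cast_nonneg _
      have h1 : (0 : ℝ) ≤ L₂ := Nat.cast_nonneg _
      push_cast at h0
      linarith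

end eff

end SH947
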