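import Pool.Agent.R947.SH.Fin
import Pool.Agent.TH235.PP.Spec

/-! # Main theorem of project SH, from the pieces -/

set_option autoImplicit false

open scoped BigOperators ComplexConjugate
open Finset Pool.Agent.TH235.PP

namespace SH947

lemma ne_zero_of_normSq {S : Type} [Fintype S] {ψ : S → ℂ} (h : normSq ψ = 1) : ψ ≠ 0 := by
  rintro rfl
  simp [normSq] at h

lemma ipr_self {S : Type} [Fintype S] (ψ : S → ℂ) :
    ipr ψ ψ = ((Pool.Agent.Y738.PE.nrm ψ : ℝ) : ℂ) := by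
  unfold ipr Pool.Agent.Y738.PE.nrm
  push_cast
  refine Finset.sum_congr rfl fun s _ => ?_
  rw [Complex.conj_mul']

/-- commuting interactions: exact PEPS -/
lemma commuting_peps (hC : S_CPE) {d R' : ℕ} (h : BoxOp d (R' + 1)) (hh : h.IsHermitian)
    (ψ : ∀ L : ℕ, (Site L → Fin d) → ℂ) (Δ : ℝ) (L₀ : ℕ)
    (hcomm : ∀ (L : ℕ) [NeZero L], L₀ ≤ L → ∀ u v : Site L,
      (term h u : TorOp d L) * term h v = term h v * term h u)
    (hg : ∀ (L : ℕ) [NeZero L], L₀ ≤ L → normSq (ψ L) = 1 ∧ IsGappedGround (ham h L) Δ (ψ L)) :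
    ∃ f L₂ : ℕ, ∀ (L : ℕ) [NeZero L], L₂ ≤ L → ψ L ≠ 0 ∧ IsPEPS f (ψ L) := by
  obtain ⟨f, hf⟩ := hC d R' h hh
  refine ⟨f, max L₀ (R' + 1), fun L _ hL => ?_⟩
  obtain ⟨h1, E, h2, h3, _⟩ := hg L (le_trans (le_max_left _ _) hL)
  have h0 := ne_zero_of_normSq h1
  exact ⟨h0, hf L (le_trans (le_max_right _ _) hL) (hcomm L (le_trans (le_max_left _ _) hL))
    (ψ L) E h0 h2 h3⟩

section stab

variable {A : Type} [AddCommGroup A] [Fintype A] {d R' : ℕ}

lemma joint_ham (e : Fin d ≃ A) {ι : Type} [Fintype ι]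
    (b : ι → Fin (R' + 1) × Fin (R' + 1) → Lb A) (c lam : ι → ℂ) {L : ℕ} [NeZero L]
    (φ : (Site L → Fin d) → ℂ)
    (h : ∀ (i : ι) (u : Site L), (term (weyl e (b i)) u : TorOp d L).mulVec φ = lam i • φ) :
    (ham (∑ i, c i • weyl e (b i)) L).mulVec φ =
      (∑ _u : Site L, ∑ i, c i * lam i) • φ := by
  unfold ham
  rw [Matrix.sum_mulVec, Finset.sum_smul]
  refine Finset.sum_congr rfl fun u _ => ?_
  rw [term_lin, Matrix.sum_mulVec, Finset.sum_smul]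
  refine Finset.sum_congr rfl fun i _ => ?_
  rw [Matrix.smul_mulVec, h i u, smul_smul]

open Pool.Agent.Y738.PE in
theorem stab (hW : S_WEY) (hL : S_LOC) (hT : S_TRM) (hE : S_EVN) (hX : S_EXP) (hC : S_CPE)
    (hd : 2 ≤ d) (e : Fin d ≃ A) {ι : Type} [Fintype ι]
    (b : ι → Fin (R' + 1) × Fin (R' + 1) → Lb A) (c lam : ι → ℂ)
    (hh : (∑ i, c i • weyl e (b i) : BoxOp d (R' + 1)).IsHermitian)
    (hc : ∀ (i j : ι) (v : ℤ × ℤ), bet (lat (b i)) (tr v (lat (b j))) =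
      bet (tr v (lat (b j))) (lat (b i)))
    (ψ : ∀ L : ℕ, (ZMod L × ZMod L → Fin d) → ℂ) (Δ : ℝ) (L₀ : ℕ)
    (hg : ∀ (L : ℕ) [NeZero L], L₀ ≤ L → normSq (ψ L) = 1 ∧
      IsGappedGround (Pool.Agent.TH235.PP.ham (∑ i, c i • weyl e (b i)) L) Δ (ψ L))
    (hlam : ∀ (L : ℕ) [NeZero L], L₀ ≤ L → ∀ (i : ι) (u : ZMod L × ZMod L),
      (term (weyl e (b i)) u : TorOp d L).mulVec (ψ L) = lam i • ψ L) :
    (∀ u : VV A, (∀ (i : ι) (v : ℤ × ℤ), bet u (tr v (lat (b i))) = bet (tr v (lat (b i))) u) →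
      u ∈ AddSubgroup.closure {g : VV A | ∃ (i : ι) (v : ℤ × ℤ), g = tr v (lat (b i))}) ∧
    (∀ R : Finset (ℤ × ℤ), ∃ L₂ : ℕ, ∀ (L L' : ℕ) [NeZero L] [NeZero L'], L₂ ≤ L → L₂ ≤ L' →
      Close R (ψ L) (ψ L') 0) ∧
    (∀ R : Finset (ℤ × ℤ), EffAll R ψ) ∧
    (∃ f L₂ : ℕ, ∀ (L : ℕ) [NeZero L], L₂ ≤ L → ψ L ≠ 0 ∧ IsPEPS f (ψ L)) := by
  classical
  -- uniqueness among joint eigenvectors
  have huniq : ∀ (L : ℕ) [NeZero L], max L₀ (R' + 1) ≤ L → ψ L ≠ 0 ∧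
      (∀ (i : ι) (y : ZMod L × ZMod L),
        (weyl e (fun x => pj L (lat (b i)) (x - y))).mulVec (ψ L) = lam i • ψ L) ∧
      (∀ φ : (ZMod L × ZMod L → Fin d) → ℂ, (∀ (i : ι) (y : ZMod L × ZMod L),
        (weyl e (fun x => pj L (lat (b i)) (x - y))).mulVec φ = lam i • φ) →
          ∃ c : ℂ, φ = c • ψ L) := by
    intro L _ hLL
    have k1 : L₀ ≤ L := le_trans (le_max_left _ _) hLL
    have k2 : R' + 1 ≤ L := le_trans (le_max_right _ _) hLL
    obtain ⟨h1, E, h2, h3, _⟩ := hg L k1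
    have h0 := ne_zero_of_normSq h1
    have ht : ∀ (i : ι) (y : ZMod L × ZMod L), (term (weyl e (b i)) y : TorOp d L) =
        weyl e (fun x => pj L (lat (b i)) (x - y)) := fun i y => hT A d e R' L k2 (b i) y
    refine ⟨h0, fun i y => by rw [← ht]; exact hlam L k1 i y, fun φ hφ => ?_⟩
    apply h3
    have e1 := joint_ham e b c lam φ (fun i u => by rw [ht]; exact hφ i u)
    have e2 := joint_ham e b c lam (ψ L) (fun i u => hlam L k1 i u)
    rw [h2] at e2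
    have e3 : (E : ℂ) = ∑ _u : ZMod L × ZMod L, ∑ i, c i * lam i := by
      obtain ⟨s, hs⟩ := Function.ne_iff.1 h0
      have := congrFun e2 s
      simp only [Pi.smul_apply, smul_eq_mul] at this
      exact mul_right_cancel₀ hs this
    rw [e1, e3]
  obtain ⟨p1, p2⟩ := hE A d e ι (fun i => lat (b i)) lam ψ (max L₀ (R' + 1)) hc huniq
  -- equal reduced states
  have hclose : ∀ R : Finset (ℤ × ℤ), ∃ L₂ : ℕ, ∀ (L L' : ℕ) [NeZero L] [NeZero L'],
      L₂ ≤ L → L₂ ≤ L' → Close R (ψ L) (ψ L') 0 := by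
    intro R
    obtain ⟨r, coef, hcoef⟩ := hX A d e R
    choose z Lw hz using fun w : R → Lb A => p2 (lax w)
    have key : ∀ (L : ℕ) [NeZero L], r + max L₀ (R' + 1) + ∑ w, Lw w ≤ L →
        ∀ (v : ZMod L × ZMod L) (B : (R → Fin d) → (R → Fin d) → ℂ),
          expecR R (ψ L) v B / (nrm (ψ L) : ℂ) = ∑ w : R → Lb A, coef B w * z w := by
      intro L _ hLL v B
      have k1 : L₀ ≤ L := le_trans (le_max_left _ _) (by omega : max L₀ (R' + 1) ≤ L)
      obtain ⟨h1, E, h2, h3, _⟩ := hg L k1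
      have h0 := ne_zero_of_normSq h1
      have hsh := simple_shift _ (ψ L) E h0 h2 h3
      have hn : ((nrm (ψ L) : ℝ) : ℂ) ≠ 0 := by
        have : nrm (ψ L) = 1 := h1
        rw [this]; simp
      rw [hcoef L (by omega) (ψ L) v B, div_eq_iff hn, Finset.sum_mul]
      refine Finset.sum_congr rfl fun w _ => ?_
      rw [ipr_shift e (ψ L) hsh, hz w L ?_, ipr_self]
      · ring
      · have := Finset.single_le_sum (f := Lw) (fun _ _ => Nat.zero_le _) (mem_univ w)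
        omega
    refine ⟨r + max L₀ (R' + 1) + ∑ w, Lw w, fun L L' _ _ h1 h2 u v B _ => ?_⟩
    rw [key L h1 u B, key L' h2 v B]
    simp
  -- PEPS
  obtain ⟨L₁, hL₁⟩ := comm_torus hW hL hT e b hc
  have hpeps : ∃ f L₂ : ℕ, ∀ (L : ℕ) [NeZero L], L₂ ≤ L → ψ L ≠ 0 ∧ IsPEPS f (ψ L) := by
    refine commuting_peps hC _ hh ψ Δ (max L₀ L₁) ?_ ?_
    · intro L _ hLL u v
      rw [term_lin, term_lin]
      simp only [Finset.sum_mul, Finset.mul_sum]
      rw [Finset.sum_comm]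
      refine Finset.sum_congr rfl fun i _ => Finset.sum_congr rfl fun j _ => ?_
      rw [Matrix.smul_mul, Matrix.mul_smul, Matrix.smul_mul, Matrix.mul_smul,
        hL₁ L (le_trans (le_max_right _ _) hLL) i j u v, smul_comm]
    · intro L _ hLL
      exact hg L (le_trans (le_max_left _ _) hLL)
  refine ⟨p1, hclose, fun R => ?_, hpeps⟩
  obtain ⟨f, L₂, hf⟩ := hpeps
  refine eff_of hd R ψ ?_ f L₂ hf
  obtain ⟨L₃, hL₃⟩ := hclose R
  refine ⟨L₃, 0, fun ε hε _ L L' _ _ h1 h2 => ?_⟩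
  intro u v B hB
  have h1' : L₃ ≤ L := by
    simp only [pow_zero, mul_one] at h1
    exact_mod_cast h1
  have h2' : L₃ ≤ L' := by
    simp only [pow_zero, mul_one] at h2
    exact_mod_cast h2
  exact (hL₃ L L' h1' h2' u v B hB).trans hε.le

end stab

end SH947
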