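import Pool.Agent.R947.SH.Stm

/-! # Second stage of project SH (MP_0f69bf_mp): no assumption on the eigenvalues of the terms -/

set_option autoImplicit false

open scoped BigOperators ComplexConjugate
open Finset Pool.Agent.TH235.PP

namespace SH947

/-- KOS: rigidity of Koszul homology for two elements. -/
def S_KOS : Prop :=
  ∀ (R D : Type) [CommRing R] [IsNoetherianRing R] [AddCommGroup D] [Module R D]
    [Module.Finite R D] (f g : R) (N : Submodule R D),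
    (∀ α β : D, f • α + g • β = 0 → ∃ γ : D, α = g • γ ∧ β = -(f • γ)) →
    (∀ n ∈ N, (∃ α β : D, n = f • α + g • β) → ∃ a ∈ N, ∃ b ∈ N, n = f • a + g • b) →
    ∀ a ∈ N, ∀ b ∈ N, f • a + g • b = 0 → ∃ c ∈ N, a = g • c ∧ b = -(f • c)

/-- REG: the shifts by `(L, 0)` and `(0, L)` minus one form a regular sequence. -/
def S_REG : Prop :=
  ∀ (M : Type) [AddCommGroup M] (L : ℕ), 0 < L → ∀ α β : (ℤ × ℤ) →₀ M,
    (α.mapDomain (fun p => p + ((L : ℤ), 0)) - α) +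
      (β.mapDomain (fun p => p + (0, (L : ℤ))) - β) = 0 →
    ∃ γ : (ℤ × ℤ) →₀ M, α = γ.mapDomain (fun p => p + (0, (L : ℤ))) - γ ∧
      β = -(γ.mapDomain (fun p => p + ((L : ℤ), 0)) - γ)

/-- EXA: exactness on the torus of side `L`. -/
def S_EXA : Prop :=
  ∀ (K M : Type) [AddCommGroup K] [Finite K] [AddCommGroup M] [Finite M] (T : Type) [Fintype T]
    (F : T → ((ℤ × ℤ) →₀ K) →+ ((ℤ × ℤ) →₀ M)),
    (∀ (t : T) (v : ℤ × ℤ) (u : (ℤ × ℤ) →₀ K), F t (u.mapDomain (fun p => p + v)) =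
      (F t u).mapDomain (fun p => p + v)) →
    ∀ L : ℕ, 0 < L →
    (∀ u : (ℤ × ℤ) →₀ K, (∀ t, (F t u).mapDomain (toT L) = 0) →
      ∃ g : (ℤ × ℤ) →₀ K, (∀ t, F t g = 0) ∧ u.mapDomain (toT L) = g.mapDomain (toT L)) →
    ∀ u : (ℤ × ℤ) →₀ K, (∀ t, F t u = 0) → u.mapDomain (toT L) = 0 →
      ∃ g g' : (ℤ × ℤ) →₀ K, (∀ t, F t g = 0) ∧ (∀ t, F t g' = 0) ∧
        u = (g.mapDomain (fun p => p + ((L : ℤ), 0)) - g) +
          (g'.mapDomain (fun p => p + (0, (L : ℤ))) - g')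

/-- NOE: subgroups closed under shifts are generated by the shifts of finitely many elements. -/
def S_NOE : Prop :=
  ∀ (M : Type) [AddCommGroup M] [AddGroup.FG M] (Q : AddSubgroup ((ℤ × ℤ) →₀ M)),
    (∀ (v : ℤ × ℤ), ∀ u ∈ Q, u.mapDomain (fun p => p + v) ∈ Q) →
    ∃ G : Finset ((ℤ × ℤ) →₀ M), (∀ g ∈ G, g ∈ Q) ∧
      Q = AddSubgroup.closure {u | ∃ g ∈ G, ∃ v : ℤ × ℤ, u = g.mapDomain (fun p => p + v)}

/-- PER: every character of a group of labels is given by commutation with a label. -/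
def S_PER : Prop :=
  ∀ (A : Type) [AddCommGroup A] [Fintype A] (X : Type) [Fintype X] [DecidableEq X]
    (S : AddSubgroup (X → Lb A)) (χ : (X → Lb A) → ℂ), χ 0 = 1 →
    (∀ g ∈ S, ∀ g' ∈ S, χ (g + g') = χ g * χ g') →
    ∃ t : X → Lb A, ∀ g ∈ S, betX g t = χ g * betX t g

/-- LFT: the commutation factors with the translates of one label as a homomorphism. -/
def S_LFT : Prop :=
  ∀ (A : Type) [AddCommGroup A] [Fintype A], ∃ (M : Type) (_ : AddCommGroup M) (_ : Finite M),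
    ∀ t : VV A, ∃ F : VV A →+ ((ℤ × ℤ) →₀ M),
      (∀ (v : ℤ × ℤ) (u : VV A), F (u.mapDomain (fun p => p + v)) =
        (F u).mapDomain (fun p => p + v)) ∧
      (∀ u : VV A, F u = 0 ↔ ∀ v : ℤ × ℤ, bet u (tr v t) = bet (tr v t) u) ∧
      (∀ (L : ℕ) [NeZero L] (u : VV A), (F u).mapDomain (toT L) = 0 ↔
        ∀ y : Site L, betX (pj L u) (fun x => pj L t (x - y)) =
          betX (fun x => pj L t (x - y)) (pj L u))

/-- The hypotheses of the next statements: commuting translates, and for all large `L` a unique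
joint eigenvector `ψ L` with eigenvalues `lam L i`. -/
def Hyp {A : Type} [AddCommGroup A] [Fintype A] {d : ℕ} (e : Fin d ≃ A) {ι : Type} [Fintype ι]
    (w : ι → VV A) (lam : ℕ → ι → ℂ) (ψ : ∀ L : ℕ, (Site L → Fin d) → ℂ) (L₀ : ℕ) : Prop :=
  (∀ (i j : ι) (v : ℤ × ℤ), bet (w i) (tr v (w j)) = bet (tr v (w j)) (w i)) ∧
  (∀ (L : ℕ) [NeZero L], L₀ ≤ L → ψ L ≠ 0 ∧
    (∀ (i : ι) (y : Site L), (weyl e (fun x => pj L (w i) (x - y))).mulVec (ψ L) = lam L i • ψ L) ∧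
    (∀ φ : (Site L → Fin d) → ℂ, (∀ (i : ι) (y : Site L),
      (weyl e (fun x => pj L (w i) (x - y))).mulVec φ = lam L i • φ) → ∃ c : ℂ, φ = c • ψ L))

/-- The group generated by the translates of the `w i`. -/
noncomputable def Gen {A : Type} [AddCommGroup A] {ι : Type} (w : ι → VV A) : AddSubgroup (VV A) :=
  AddSubgroup.closure {g : VV A | ∃ (i : ι) (v : ℤ × ℤ), g = tr v (w i)}

/-- EVA: a label which commutes with the generators lies in the group they generate, on `ℤ²` and on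
all large tori. -/
def S_EVA : Prop :=
  ∀ (A : Type) [AddCommGroup A] [Fintype A] (d : ℕ) (e : Fin d ≃ A) (ι : Type) [Fintype ι]
    (w : ι → VV A) (lam : ℕ → ι → ℂ) (ψ : ∀ L : ℕ, (Site L → Fin d) → ℂ) (L₀ : ℕ),
    Hyp e w lam ψ L₀ →
    (∀ u : VV A, (∀ (i : ι) (v : ℤ × ℤ), bet u (tr v (w i)) = bet (tr v (w i)) u) → u ∈ Gen w) ∧
    (∃ L₁ : ℕ, ∀ (L : ℕ) [NeZero L], L₁ ≤ L → ∀ u : Site L → Lb A,
      (∀ (i : ι) (y : Site L), betX u (fun x => pj L (w i) (x - y)) =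
        betX (fun x => pj L (w i) (x - y)) u) → ∃ g ∈ Gen w, u = pj L g)

/-- TEX: exactness on all large tori. -/
def S_TEX : Prop :=
  ∀ (A : Type) [AddCommGroup A] [Fintype A] (d : ℕ) (e : Fin d ≃ A) (ι : Type) [Fintype ι]
    (w : ι → VV A) (lam : ℕ → ι → ℂ) (ψ : ∀ L : ℕ, (Site L → Fin d) → ℂ) (L₀ : ℕ),
    Hyp e w lam ψ L₀ →
    ∃ L₁ : ℕ, ∀ (L : ℕ) [NeZero L], L₁ ≤ L → ∀ u ∈ Gen w, pj L u = 0 →
      ∃ g ∈ Gen w, ∃ g' ∈ Gen w, u = (tr ((L : ℤ), 0) g - g) + (tr (0, (L : ℤ)) g' - g')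

/-- CHR: the quotient of the eigenvalues for two large sizes is a translation invariant character. -/
def S_CHR : Prop :=
  ∀ (A : Type) [AddCommGroup A] [Fintype A] (d : ℕ) (e : Fin d ≃ A) (ι : Type) [Fintype ι]
    (w : ι → VV A) (lam : ℕ → ι → ℂ) (ψ : ∀ L : ℕ, (Site L → Fin d) → ℂ) (L₀ : ℕ),
    Hyp e w lam ψ L₀ →
    ∃ L₁ : ℕ, ∀ (L L' : ℕ) [NeZero L] [NeZero L'], L₁ ≤ L → L₁ ≤ L' →
      ∃ χ : VV A → ℂ, χ 0 = 1 ∧ (∀ g ∈ Gen w, ∀ g' ∈ Gen w, χ (g + g') = χ g * χ g') ∧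
        (∀ g ∈ Gen w, ∀ v : ℤ × ℤ, χ (tr v g) = χ g) ∧ (∀ i : ι, χ (w i) * lam L i = lam L' i)

/-- CST: on every large torus the eigenvalues of every other large torus occur. -/
def S_CST : Prop :=
  ∀ (A : Type) [AddCommGroup A] [Fintype A] (d : ℕ) (e : Fin d ≃ A) (ι : Type) [Fintype ι]
    (w : ι → VV A) (lam : ℕ → ι → ℂ) (ψ : ∀ L : ℕ, (Site L → Fin d) → ℂ) (L₀ : ℕ),
    Hyp e w lam ψ L₀ →
    ∃ L₁ : ℕ, ∀ (L L' : ℕ) [NeZero L] [NeZero L'], L₁ ≤ L → L₁ ≤ L' →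
      ∃ φ : (Site L → Fin d) → ℂ, φ ≠ 0 ∧ ∀ (i : ι) (y : Site L),
        (weyl e (fun x => pj L (w i) (x - y))).mulVec φ = lam L' i • φ

end SH947
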