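import Pool.Agent.R947.SH.Main
import Pool.Agent.R947.SH.Stm3

/-! # Main theorem of project SH, second stage -/

set_option autoImplicit false

open scoped BigOperators ComplexConjugate
open Finset Pool.Agent.TH235.PP

namespace SH947

variable {A : Type} [AddCommGroup A] [Fintype A] {d R' : ℕ}

/-- the terms have a common eigenvalue -/
lemma term_eig {L : ℕ} [NeZero L] {R : ℕ} (h : BoxOp d R) (X : BoxOp d R)
    (ψ : (Site L → Fin d) → ℂ) (E : ℂ) (h0 : ψ ≠ 0)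
    (h1 : (ham h L).mulVec ψ = E • ψ)
    (h2 : ∀ φ, (ham h L).mulVec φ = E • φ → ∃ c : ℂ, φ = c • ψ)
    (hc : ham h L * (term X (0 : Site L) : TorOp d L) = (term X (0 : Site L) : TorOp d L) * ham h L) :
    ∃ μ : ℂ, ∀ u : Site L, (term X u : TorOp d L).mulVec ψ = μ • ψ := by
  obtain ⟨μ, hμ⟩ := h2 ((term X (0 : Site L) : TorOp d L).mulVec ψ) (by
    rw [Matrix.mulVec_mulVec, hc, ← Matrix.mulVec_mulVec, h1, Matrix.mulVec_smul])
  refine ⟨μ, fun u => ?_⟩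
  obtain ⟨c, hc1, hc2⟩ := simple_shift h ψ E h0 h1 h2 u
  have hc0 : c ≠ 0 := by
    rintro rfl
    simp at hc1
  funext s
  have h3 := congrFun hμ (cs u s)
  simp only [Matrix.mulVec, dotProduct, Pi.smul_apply, smul_eq_mul] at h3 ⊢
  rw [hc2 s] at h3
  have h4 : ∑ t, (term X (0 : Site L) : TorOp d L) (cs u s) t * ψ t =
      ∑ t, (term X (0 : Site L) : TorOp d L) (cs u s) (cs u t) * ψ (cs u t) :=
    (Fintype.sum_equiv (cs u) _ _ fun t => rfl).symm
  rw [h4] at h3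
  have h5 : ∑ t, (term X (0 : Site L) : TorOp d L) (cs u s) (cs u t) * ψ (cs u t) =
      c * ∑ t, (term X u : TorOp d L) s t * ψ t := by
    rw [Finset.mul_sum]
    refine Finset.sum_congr rfl fun t _ => ?_
    rw [term_cs, zero_add, hc2 t]
    ring
  rw [h5] at h3
  refine mul_left_cancel₀ hc0 ?_
  rw [h3]
  ring

open Pool.Agent.Y738.PE in
theorem stab2 (hW : S_WEY) (hL : S_LOC) (hT : S_TRM) (hE : S_EVN) (hX : S_EXP) (hC : S_CPE)
    (hV : S_CST) (hd : 2 ≤ d) (e : Fin d ≃ A) {ι : Type} [Fintype ι]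
    (b : ι → Fin (R' + 1) × Fin (R' + 1) → Lb A) (c : ι → ℂ)
    (hh : (∑ i, c i • weyl e (b i) : BoxOp d (R' + 1)).IsHermitian)
    (hc : ∀ (i j : ι) (v : ℤ × ℤ), bet (lat (b i)) (tr v (lat (b j))) =
      bet (tr v (lat (b j))) (lat (b i)))
    (ψ : ∀ L : ℕ, (ZMod L × ZMod L → Fin d) → ℂ) (Δ : ℝ) (hΔ : 0 < Δ) (L₀ : ℕ)
    (hg : ∀ (L : ℕ) [NeZero L], L₀ ≤ L → normSq (ψ L) = 1 ∧
      IsGappedGround (Pool.Agent.TH235.PP.ham (∑ i, c i • weyl e (b i)) L) Δ (ψ L)) :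
    (∃ (lam : ι → ℂ) (L₂ : ℕ), ∀ (L : ℕ) [NeZero L], L₂ ≤ L → ∀ (i : ι) (u : ZMod L × ZMod L),
      (term (weyl e (b i)) u : TorOp d L).mulVec (ψ L) = lam i • ψ L) ∧
    (∀ u : VV A, (∀ (i : ι) (v : ℤ × ℤ), bet u (tr v (lat (b i))) = bet (tr v (lat (b i))) u) →
      u ∈ AddSubgroup.closure {g : VV A | ∃ (i : ι) (v : ℤ × ℤ), g = tr v (lat (b i))}) ∧
    (∀ R : Finset (ℤ × ℤ), ∃ L₂ : ℕ, ∀ (L L' : ℕ) [NeZero L] [NeZero L'], L₂ ≤ L → L₂ ≤ L' →
      Close R (ψ L) (ψ L') 0) ∧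
    (∀ R : Finset (ℤ × ℤ), EffAll R ψ) ∧
    (∃ f L₂ : ℕ, ∀ (L : ℕ) [NeZero L], L₂ ≤ L → ψ L ≠ 0 ∧ IsPEPS f (ψ L)) := by
  classical
  obtain ⟨L₁, hL₁⟩ := comm_torus hW hL hT e b hc
  set h : BoxOp d (R' + 1) := ∑ i, c i • weyl e (b i) with hh'
  -- eigenvalues of the terms
  have hex : ∀ L : ℕ, ∃ l : ι → ℂ, ∀ [NeZero L], max L₀ L₁ ≤ L → ∀ (i : ι) (u : ZMod L × ZMod L),
      (term (weyl e (b i)) u : TorOp d L).mulVec (ψ L) = l i • ψ L := by
    intro L
    by_cases hLz : L = 0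
    · exact ⟨fun _ => 0, fun hn => absurd hLz (NeZero.ne L)⟩
    have : NeZero L := ⟨hLz⟩
    by_cases hLL : max L₀ L₁ ≤ L
    · obtain ⟨h1, E, h2, h3, _⟩ := hg L (le_trans (le_max_left _ _) hLL)
      have h0 := ne_zero_of_normSq h1
      have : ∀ i : ι, ∃ μ : ℂ, ∀ u : ZMod L × ZMod L,
          (term (weyl e (b i)) u : TorOp d L).mulVec (ψ L) = μ • ψ L := by
        intro i
        refine term_eig h (weyl e (b i)) (ψ L) E h0 h2 h3 ?_
        unfold Pool.Agent.TH235.PP.ham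
        rw [Finset.sum_mul, Finset.mul_sum]
        refine Finset.sum_congr rfl fun u _ => ?_
        rw [hh', term_lin, Finset.sum_mul, Finset.mul_sum]
        refine Finset.sum_congr rfl fun j _ => ?_
        rw [Matrix.smul_mul, Matrix.mul_smul,
          hL₁ L (le_trans (le_max_right _ _) hLL) j i u 0]
      choose μ hμ using this
      exact ⟨μ, fun _ i u => hμ i u⟩
    · exact ⟨fun _ => 0, fun hn => absurd hn hLL⟩
  choose lam hlam using hex
  -- the hypotheses of CST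
  have huniq : Hyp e (fun i => lat (b i)) lam ψ (max (max L₀ L₁) (R' + 1)) := by
    refine ⟨hc, fun L _ hLL => ?_⟩
    have k0 : max L₀ L₁ ≤ L := le_trans (le_max_left _ _) hLL
    have k1 : L₀ ≤ L := le_trans (le_max_left _ _) k0
    have k2 : R' + 1 ≤ L := le_trans (le_max_right _ _) hLL
    obtain ⟨h1, E, h2, h3, _⟩ := hg L k1
    have h0 := ne_zero_of_normSq h1
    have ht : ∀ (i : ι) (y : ZMod L × ZMod L), (term (weyl e (b i)) y : TorOp d L) =
        weyl e (fun x => pj L (lat (b i)) (x - y)) := fun i y => hT A d e R' L k2 (b i) y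
    refine ⟨h0, fun i y => by rw [← ht]; exact hlam L k0 i y, fun φ hφ => ?_⟩
    apply h3
    have e1 := joint_ham e b c (lam L) φ (fun i u => by rw [ht]; exact hφ i u)
    have e2 := joint_ham e b c (lam L) (ψ L) (fun i u => hlam L k0 i u)
    rw [h2] at e2
    have e3 : (E : ℂ) = ∑ _u : ZMod L × ZMod L, ∑ i, c i * lam L i := by
      obtain ⟨s, hs⟩ := Function.ne_iff.1 h0
      have := congrFun e2 s
      simp only [Pi.smul_apply, smul_eq_mul] at this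
      exact mul_right_cancel₀ hs this
    rw [e1, e3]
  obtain ⟨L₃, hL₃⟩ := hV A d e ι (fun i => lat (b i)) lam ψ _ huniq
  -- energy per site
  set N : ℕ := max (max (max L₀ L₁) (R' + 1)) L₃ with hN
  have hen : ∀ (L : ℕ) [NeZero L], N ≤ L → ∃ E : ℝ,
      (Pool.Agent.TH235.PP.ham h L).mulVec (ψ L) = (E : ℂ) • ψ L ∧
      (∀ φ, (Pool.Agent.TH235.PP.ham h L).mulVec φ = (E : ℂ) • φ → ∃ c : ℂ, φ = c • ψ L) ∧
      (∀ (E' : ℝ) (φ : (ZMod L × ZMod L → Fin d) → ℂ), φ ≠ 0 →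
        (Pool.Agent.TH235.PP.ham h L).mulVec φ = (E' : ℂ) • φ → E' = E ∨ E + Δ ≤ E') ∧
      ∑ i, c i * lam L i = ((E / (L : ℝ) ^ 2 : ℝ) : ℂ) := by
    intro L _ hLL
    have k0 : max L₀ L₁ ≤ L :=
      le_trans (le_max_left _ _) (le_trans (le_max_left _ _) hLL)
    obtain ⟨h1, E, h2, h3, h4⟩ := hg L (le_trans (le_max_left _ _) k0)
    have h0 := ne_zero_of_normSq h1
    refine ⟨E, h2, h3, h4, ?_⟩
    have e2 := joint_ham e b c (lam L) (ψ L) (fun i u => hlam L k0 i u)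
    rw [h2] at e2
    have e3 : (E : ℂ) = ∑ _u : ZMod L × ZMod L, ∑ i, c i * lam L i := by
      obtain ⟨s, hs⟩ := Function.ne_iff.1 h0
      have := congrFun e2 s
      simp only [Pi.smul_apply, smul_eq_mul] at this
      exact mul_right_cancel₀ hs this
    rw [Finset.sum_const, Finset.card_univ, Fintype.card_prod, ZMod.card, nsmul_eq_mul] at e3
    have hL0 : (L : ℂ) ≠ 0 := Nat.cast_ne_zero.2 (NeZero.ne L)
    push_cast at e3 ⊢
    rw [e3]
    field_simp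
  have hle : ∀ (L L' : ℕ) [NeZero L] [NeZero L'], N ≤ L → N ≤ L' →
      ∀ E E' : ℝ, (∑ i, c i * lam L i = ((E / (L : ℝ) ^ 2 : ℝ) : ℂ)) →
        (∑ i, c i * lam L' i = ((E' / (L' : ℝ) ^ 2 : ℝ) : ℂ)) →
      (∀ (E'' : ℝ) (φ : (ZMod L × ZMod L → Fin d) → ℂ), φ ≠ 0 →
        (Pool.Agent.TH235.PP.ham h L).mulVec φ = (E'' : ℂ) • φ → E'' = E ∨ E + Δ ≤ E'') →
      E / (L : ℝ) ^ 2 ≤ E' / (L' : ℝ) ^ 2 := by
    intro L L' _ _ h1 h2 E E' h3 h4 h5
    obtain ⟨φ, hφ0, hφ⟩ := hL₃ L L' (le_trans (le_max_right _ _) h1) (le_trans (le_max_right _ _) h2)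
    have k2 : R' + 1 ≤ L := le_trans (le_max_right _ _) (le_trans (le_max_left _ _) h1)
    have e1 := joint_ham e b c (lam L') φ (fun i u => by rw [hT A d e R' L k2 (b i) u]; exact hφ i u)
    rw [Finset.sum_const, Finset.card_univ, Fintype.card_prod, ZMod.card, nsmul_eq_mul, h4] at e1
    have hLp : (0 : ℝ) < (L : ℝ) ^ 2 := by
      have : (0 : ℝ) < L := Nat.cast_pos.2 (Nat.pos_of_ne_zero (NeZero.ne L))
      positivity
    have e2 := h5 ((L : ℝ) ^ 2 * (E' / (L' : ℝ) ^ 2)) φ hφ0 (by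
      rw [← hh'] at e1
      rw [e1]
      congr 1
      push_cast
      ring)
    have e3 : E ≤ (L : ℝ) ^ 2 * (E' / (L' : ℝ) ^ 2) := by
      rcases e2 with e2 | e2 <;> linarith
    rw [div_le_iff₀ hLp]
    linarith
  have hconst : ∀ (L L' : ℕ) [NeZero L] [NeZero L'], N ≤ L → N ≤ L' → lam L' = lam L := by
    intro L L' _ _ h1 h2
    obtain ⟨E, a1, a2, a3, a4⟩ := hen L h1
    obtain ⟨E', b1, b2, b3, b4⟩ := hen L' h2
    have h3 := hle L L' h1 h2 E E' a4 b4 a3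
    have h4 := hle L' L h2 h1 E' E b4 a4 b3
    have h5 : E / (L : ℝ) ^ 2 = E' / (L' : ℝ) ^ 2 := le_antisymm h3 h4
    obtain ⟨φ, hφ0, hφ⟩ := hL₃ L L' (le_trans (le_max_right _ _) h1) (le_trans (le_max_right _ _) h2)
    have k2 : R' + 1 ≤ L := le_trans (le_max_right _ _) (le_trans (le_max_left _ _) h1)
    have k0 : max L₀ L₁ ≤ L :=
      le_trans (le_max_left _ _) (le_trans (le_max_left _ _) h1)
    have e1 := joint_ham e b c (lam L') φ (fun i u => by rw [hT A d e R' L k2 (b i) u]; exact hφ i u)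
    have e2 := joint_ham e b c (lam L) (ψ L) (fun i u => hlam L k0 i u)
    rw [Finset.sum_const, b4, ← h5, ← a4] at e1
    rw [Finset.sum_const] at e2
    have hψ0 : ψ L ≠ 0 := ne_zero_of_normSq (hg L (le_trans (le_max_left _ _) k0)).1
    have e3 : (E : ℂ) = card (univ : Finset (ZMod L × ZMod L)) • ∑ i, c i * lam L i := by
      rw [← hh', a1] at e2
      obtain ⟨s, hs⟩ := Function.ne_iff.1 hψ0
      have := congrFun e2 s
      simp only [Pi.smul_apply, smul_eq_mul] at this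
      exact mul_right_cancel₀ hs this
    rw [← e3, ← hh'] at e1
    obtain ⟨z, rfl⟩ := a2 φ e1
    funext i
    have e4 := hφ i 0
    rw [← hT A d e R' L k2 (b i) 0, Matrix.mulVec_smul, hlam L k0 i 0, smul_comm] at e4
    exact (smul_left_injective ℂ hφ0 e4).symm
  have hNz : NeZero (N + 1) := ⟨by omega⟩
  have hfin := stab hW hL hT hE hX hC hd e b c (lam (N + 1)) hh hc ψ Δ (N + 1)
    (fun L _ hLL => hg L (by
      have : L₀ ≤ N := le_trans (le_max_left _ _) (le_trans (le_max_left _ _) (le_max_left _ _))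
      omega))
    (fun L _ hLL i u => by
      have k0 : max L₀ L₁ ≤ N := le_trans (le_max_left _ _) (le_max_left _ _)
      rw [hlam L (by omega) i u, hconst L (N + 1) (by omega) (by omega)])
  refine ⟨⟨lam (N + 1), N + 1, fun L _ hLL i u => ?_⟩, hfin⟩
  have k0 : max L₀ L₁ ≤ N := le_trans (le_max_left _ _) (le_max_left _ _)
  rw [hlam L (by omega) i u, hconst L (N + 1) (by omega) (by omega)]

end SH947
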