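import Pool.Agent.R947.SH.Defs

/-! # Statements of the pieces of project SH (MP_0f69bf_mp) -/

set_option autoImplicit false

open scoped BigOperators ComplexConjugate
open Finset Pool.Agent.TH235.PP

namespace SH947

/-- ALG: the commutative algebra. -/
def S_ALG : Prop :=
  ∀ (k R V : Type) [CommRing k] [Finite k] [CommRing R] [Algebra k R] [Algebra.FiniteType k R]
    [AddCommGroup V] [Module R V] [Module.Finite R V] (X Y : Rˣ) (S P : Submodule R V),
    (∀ u ∈ P, ∃ L₁ : ℕ, ∀ L : ℕ, L₁ ≤ L →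
      u ∈ S ⊔ (Ideal.span {(X : R) ^ L - 1, (Y : R) ^ L - 1} • (⊤ : Submodule R V))) →
    P ≤ S

/-- LAT: the same for groups of finitely supported functions on `ℤ²`. -/
def S_LAT : Prop :=
  ∀ (K : Type) [AddCommGroup K] [Finite K] (S P : AddSubgroup ((ℤ × ℤ) →₀ K)),
    (∀ v : ℤ × ℤ, ∀ u ∈ S, u.mapDomain (fun p => p + v) ∈ S) →
    (∀ v : ℤ × ℤ, ∀ u ∈ P, u.mapDomain (fun p => p + v) ∈ P) →
    (∀ u ∈ P, ∃ L₁ : ℕ, ∀ L : ℕ, L₁ ≤ L → ∃ g ∈ S,
      u.mapDomain (toT L) = g.mapDomain (toT L)) →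
    P ≤ S

/-- WEY: basic identities for Weyl operators on a finite set of sites. -/
def S_WEY : Prop :=
  ∀ (A : Type) [AddCommGroup A] [Fintype A] (X : Type) [Fintype X] [DecidableEq X] (d : ℕ)
    (e : Fin d ≃ A),
    (∀ u w : X → Lb A, weyl e u * weyl e w = betX u w • weyl e (u + w)) ∧
    weyl e (0 : X → Lb A) = 1 ∧
    (∀ u : X → Lb A, u ≠ 0 → (weyl e u).trace = 0) ∧
    (∀ u : X → Lb A, (weyl e u).conjTranspose * weyl e u = 1) ∧
    (∀ u w : X → Lb A, ‖betX u w‖ = 1) ∧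
    (∀ u u' w : X → Lb A, betX (u + u') w = betX u w * betX u' w) ∧
    (∀ u w w' : X → Lb A, betX u (w + w') = betX u w * betX u w')

/-- UNQ: if the joint eigenvector of commuting Weyl operators is unique, then every Weyl operator
which commutes with them lies in the group they generate. -/
def S_UNQ : Prop :=
  ∀ (A : Type) [AddCommGroup A] [Fintype A] (X : Type) [Fintype X] [DecidableEq X] (d : ℕ)
    (e : Fin d ≃ A) (T : Set (X → Lb A)) (ψ : (X → Fin d) → ℂ) (lam : (X → Lb A) → ℂ),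
    (∀ g ∈ T, ∀ g' ∈ T, betX g g' = betX g' g) → ψ ≠ 0 →
    (∀ g ∈ T, (weyl e g).mulVec ψ = lam g • ψ) →
    (∀ φ : (X → Fin d) → ℂ, (∀ g ∈ T, (weyl e g).mulVec φ = lam g • φ) → ∃ c : ℂ, φ = c • ψ) →
    ∀ u : X → Lb A, (∀ g ∈ T, betX u g = betX g u) → u ∈ AddSubgroup.closure T

/-- LOC: labels of finite support on `ℤ²` and on large tori. -/
def S_LOC : Prop :=
  ∀ (A : Type) [AddCommGroup A] [Fintype A],
    (∀ (L : ℕ) (u w : VV A), pj L (u + w) = pj L u + pj L w) ∧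
    (∀ (L : ℕ) (v : ℤ × ℤ) (u : VV A), pj L (tr v u) = fun y => pj L u (y - toT L v)) ∧
    (∀ u w : VV A, ∃ L₁ : ℕ, ∀ (L : ℕ) [NeZero L], L₁ ≤ L →
      betX (pj L u) (pj L w) = bet u w ∧ betX (pj L w) (pj L u) = bet w u) ∧
    (∀ u w : VV A, (∀ v : ℤ × ℤ, bet u (tr v w) = bet (tr v w) u) →
      ∃ L₁ : ℕ, ∀ (L : ℕ) [NeZero L], L₁ ≤ L → ∀ y : Site L,
        betX (pj L u) (fun x => pj L w (x - y)) = betX (fun x => pj L w (x - y)) (pj L u))

/-- TRM: the translates of a Weyl operator on the box are Weyl operators on the torus. -/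
def S_TRM : Prop :=
  ∀ (A : Type) [AddCommGroup A] [Fintype A] (d : ℕ) (e : Fin d ≃ A) (R' L : ℕ) [NeZero L],
    R' + 1 ≤ L → ∀ (b : Fin (R' + 1) × Fin (R' + 1) → Lb A) (v : Site L),
    term (weyl e b) v = weyl e (fun y => pj L (lat b) (y - v))

/-- EVN: expectations of Weyl operators of finite support do not depend on the size. -/
def S_EVN : Prop :=
  ∀ (A : Type) [AddCommGroup A] [Fintype A] (d : ℕ) (e : Fin d ≃ A) (ι : Type) [Fintype ι]
    (w : ι → VV A) (lam : ι → ℂ) (ψ : ∀ L : ℕ, (Site L → Fin d) → ℂ) (L₀ : ℕ),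
    (∀ (i j : ι) (v : ℤ × ℤ), bet (w i) (tr v (w j)) = bet (tr v (w j)) (w i)) →
    (∀ (L : ℕ) [NeZero L], L₀ ≤ L → ψ L ≠ 0 ∧
      (∀ (i : ι) (y : Site L), (weyl e (fun x => pj L (w i) (x - y))).mulVec (ψ L) = lam i • ψ L) ∧
      (∀ φ : (Site L → Fin d) → ℂ, (∀ (i : ι) (y : Site L),
        (weyl e (fun x => pj L (w i) (x - y))).mulVec φ = lam i • φ) → ∃ c : ℂ, φ = c • ψ L)) →
    (∀ u : VV A, (∀ (i : ι) (v : ℤ × ℤ), bet u (tr v (w i)) = bet (tr v (w i)) u) →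
      u ∈ AddSubgroup.closure {g : VV A | ∃ (i : ι) (v : ℤ × ℤ), g = tr v (w i)}) ∧
    (∀ u : VV A, ∃ (z : ℂ) (L₁ : ℕ), ∀ (L : ℕ) [NeZero L], L₁ ≤ L →
      ipr (ψ L) ((weyl e (pj L u)).mulVec (ψ L)) = z * ipr (ψ L) (ψ L))

/-- PRD: an ordered product of the translates of one operator on the box, applied to a basis vector,
is a PEPS whose bond dimension does not depend on the size. -/
def S_PRD : Prop :=
  ∀ (d R' : ℕ), ∃ f : ℕ, ∀ (p : BoxOp d (R' + 1)) (L : ℕ) [NeZero L] (N : ℕ) (en : Fin N ≃ Site L)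
    (s₀ : Site L → Fin d),
    IsPEPS f ((op (fun b => (term p (en b) : TorOp d L))).mulVec (Pi.single s₀ 1))

/-- TRI: in a simple eigenspace of a translation invariant Hamiltonian with commuting terms all the
terms have the same eigenvalue. -/
def S_TRI : Prop :=
  ∀ (d R L : ℕ) [NeZero L] (h : BoxOp d R), (∀ u v : Site L,
      (term h u : TorOp d L) * term h v = term h v * term h u) →
    ∀ (ψ : (Site L → Fin d) → ℂ) (E : ℂ), ψ ≠ 0 → (ham h L).mulVec ψ = E • ψ →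
      (∀ φ, (ham h L).mulVec φ = E • φ → ∃ c : ℂ, φ = c • ψ) →
      ∃ μ : ℂ, ∀ u : Site L, (term h u : TorOp d L).mulVec ψ = μ • ψ

/-- SPC: spectral projection of the interaction. -/
def S_SPC : Prop :=
  ∀ (d R' : ℕ) (h : BoxOp d (R' + 1)), h.IsHermitian → ∀ μ : ℂ, ∃ p : BoxOp d (R' + 1),
    ∀ (L : ℕ) [NeZero L], R' + 1 ≤ L →
      (∀ u : Site L, (term p u : TorOp d L).IsHermitian) ∧
      (∀ u : Site L, (term h u : TorOp d L) * term p u = μ • (term p u : TorOp d L)) ∧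
      (∀ (u : Site L) (ψ : (Site L → Fin d) → ℂ), (term h u : TorOp d L).mulVec ψ = μ • ψ →
        (term p u : TorOp d L).mulVec ψ = ψ) ∧
      ((∀ u v : Site L, (term h u : TorOp d L) * term h v = term h v * term h u) →
        ∀ u v : Site L, (term h u : TorOp d L) * term p v = term p v * term h u)

/-- CPE: a simple eigenvector of a commuting Hamiltonian is a PEPS whose bond dimension does not
depend on the size (from PRD, TRI, SPC). -/
def S_CPE : Prop :=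
  ∀ (d R' : ℕ) (h : BoxOp d (R' + 1)), h.IsHermitian → ∃ f : ℕ, ∀ (L : ℕ) [NeZero L], R' + 1 ≤ L →
    (∀ u v : Site L, (term h u : TorOp d L) * term h v = term h v * term h u) →
    ∀ (ψ : (Site L → Fin d) → ℂ) (E : ℂ), ψ ≠ 0 → (ham h L).mulVec ψ = E • ψ →
      (∀ φ, (ham h L).mulVec φ = E • φ → ∃ c : ℂ, φ = c • ψ) → IsPEPS f ψ

end SH947
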